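import Pool.Agent.Y158.KL.Main
import Pool.Agent.TH954.SEt2

/-!
# The field attached to a section
-/

set_option autoImplicit false
set_option linter.unusedSectionVars false

namespace Pool.Agent.Y158.KL

open NumberField IsDedekindDomain WithZero Pool.Agent.TH954 Pool.Agent.W620.SC

section field

variable {K F Ω M : Type} [Field K] [CharZero K] [Field F] [Field Ω] [Field M] [Algebra K F]
  [Algebra F Ω] [Algebra K Ω] [Algebra F M] [Algebra K M] [IsScalarTower K F Ω]
  [IsScalarTower K F M]

/-- the elements of `F_U` which are fixed by the section -/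
noncomputable def fld (A : SAct K M) (U : Set (ValuationSubring F)) (e : M →ₐ[F] Ω) : IntermediateField K M :=
  A.fix ⊓ ((unramified F Ω U).restrictScalars K).comap (e.restrictScalars K)

variable {A : SAct K M} {U : Set (ValuationSubring F)} {e : M →ₐ[F] Ω}

lemma mem_fld {x : M} : x ∈ fld A U e ↔ x ∈ A.fix ∧ e x ∈ unramified F Ω U := Iff.rfl

lemma F_mem (hAF : ∀ τ (x : F), A.s τ (algebraMap F M x) = algebraMap F M x) (x : F) :
    algebraMap F M x ∈ fld A U e := by
  rw [mem_fld]
  refine ⟨fun τ => hAF τ x, ?_⟩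
  rw [e.commutes]
  exact (unramified F Ω U).algebraMap_mem x

lemma W_const (hU : ∀ O ∈ U, ∀ c : K, algebraMap K F c ∈ O) {W : ValuationSubring Ω}
    (hW : W.comap (algebraMap F Ω) ∈ U) (c : K) : algebraMap K Ω c ∈ W := by
  have := hU _ hW c
  rw [ValuationSubring.mem_comap, ← IsScalarTower.algebraMap_apply] at this
  exact this

/-- Kummer theory -/
theorem kum_fld [IsAlgClosed Ω] (hU : ∀ O ∈ U, ∀ c : K, algebraMap K F c ∈ O)
    (he : unramified F Ω U ≤ e.fieldRange) {n : ℕ} (hn : 0 < n) : Kum n K (fld A U e) := by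
  classical
  intro w hw0 hloc
  have : IsGalois K (AlgebraicClosure K) := ⟨⟩
  have hwf := (mem_fld.1 w.2).1
  have hwU := (mem_fld.1 w.2).2
  have hw0' : (w : M) ≠ 0 := fun h => hw0 (Subtype.ext h)
  obtain ⟨r, hr⟩ := IsAlgClosed.exists_pow_nat_eq (e (w : M)) hn
  have hew : e (w : M) ≠ 0 := (map_ne_zero _).2 hw0'
  have hr0 : r ≠ 0 := by
    rintro rfl
    rw [zero_pow hn.ne'] at hr
    exact hew hr.symm
  have hrU : r ∈ unramified F Ω U := by
    rw [mem_unramified]
    intro W hW σ hσ
    have hWK := W_const hU hW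
    let ι : fld A U e →+* Ω := (e : M →+* Ω).comp (algebraMap (fld A U e) M)
    obtain ⟨t, ht0, ht⟩ := hloc (W.comap ι) (fun c => by
      rw [ValuationSubring.mem_comap]
      have : ι (algebraMap K (fld A U e) c) = algebraMap K Ω c := by
        change e (algebraMap K M c) = _
        rw [IsScalarTower.algebraMap_apply K F M, e.commutes, ← IsScalarTower.algebraMap_apply]
      rw [this]
      exact hWK c)
    have ht0' : e (t : M) ≠ 0 := (map_ne_zero _).2 (fun h => ht0 (Subtype.ext h))
    have htU := (mem_fld.1 t.2).2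
    have hv0 : (W.comap ι).valuation t ^ n ≠ 0 := pow_ne_zero _ ((Valuation.ne_zero_iff _).2 ht0)
    have h1 : w / t ^ n ∈ W.comap ι := by
      rw [← ValuationSubring.valuation_le_one_iff, map_div₀, map_pow, ht, div_self hv0]
    have h2 : t ^ n / w ∈ W.comap ι := by
      rw [← ValuationSubring.valuation_le_one_iff, map_div₀, map_pow, ht, div_self hv0]
    refine inertia_root hWK hσ hn (t := e (t : M)) ?_ ?_ ht0' hr0 ?_ ?_
    · rw [hr]
      exact mem_unramified.1 hwU W hW σ hσ
    · exact mem_unramified.1 htU W hW σ hσ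
    · rw [hr]
      have : ι (w / t ^ n) = e (w : M) / e (t : M) ^ n := by
        rw [map_div₀, map_pow]
        rfl
      rw [← this]
      exact h1
    · rw [hr]
      have : ι (t ^ n / w) = e (t : M) ^ n / e (w : M) := by
        rw [map_div₀, map_pow]
        rfl
      rw [← this]
      exact h2
  obtain ⟨r', hr'⟩ := he hrU
  have hr'e : e r' = r := hr'
  have hr'w : r' ^ n = (w : M) := by
    apply e.injective
    change e (r' ^ n) = e (w : M)
    rw [map_pow, hr'e, hr]
  have hr'0 : r' ≠ 0 := by
    rintro rfl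
    rw [map_zero] at hr'e
    exact hr0 hr'e.symm
  obtain ⟨E, hE, hEw⟩ := A.cont r'
  obtain ⟨β, hβ0, hβ⟩ := exists_fixed_multiple A.ra
    (A.j : AlgebraicClosure K →+* M) (fun σ a => A.hj σ a) ⊤ r' hr'0 (by
      intro σ _
      have h1 : (A.s σ r' / r') ^ n = 1 := by
        rw [div_pow, ← map_pow, hr'w, hwf σ, div_self hw0']
      obtain ⟨ζ, hζ⟩ := root_mem (A.j : AlgebraicClosure K →+* M) hn
        (h := A.s σ r' / r') (b := 1) (by rw [h1, map_one])
      refine ⟨ζ, ?_⟩
      rw [hζ]
      change A.s σ r' = A.s σ r' / r' * r'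
      rw [div_mul_cancel₀ _ hr'0]) E (by
      intro σ hσ
      exact hEw σ (fun z hz => (IntermediateField.mem_fixingSubgroup_iff _ _).1 hσ z hz))
  have hg : A.j β * r' ∈ A.fix := fun τ => hβ τ (Subgroup.mem_top τ)
  have hβU : e (A.j β) ∈ unramified F Ω U := by
    rw [mem_unramified]
    intro W hW σ hσ
    refine inertia_const (W_const hU hW) hσ ?_
    have h1 : IsIntegral K β := (Algebra.IsAlgebraic.isAlgebraic β).isIntegral
    exact h1.map ((e.restrictScalars K).comp A.j)
  have hgU : A.j β * r' ∈ fld A U e := by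
    rw [mem_fld]
    refine ⟨hg, ?_⟩
    rw [map_mul, hr'e]
    exact mul_mem hβU hrU
  have hβn : A.j (β ^ n) ∈ A.fix := by
    have e1 : A.j (β ^ n) = (A.j β * r') ^ n / w := by
      rw [mul_pow, hr'w, map_pow, mul_div_assoc, div_self hw0', mul_one]
    rw [e1]
    exact div_mem (pow_mem hg n) hwf
  obtain ⟨c, hc⟩ := A.fix_j hβn
  have hc0 : c ≠ 0 := by
    rintro rfl
    rw [map_zero] at hc
    exact pow_ne_zero n hβ0 hc.symm
  refine ⟨c⁻¹, inv_ne_zero hc0, ⟨_, hgU⟩, ?_⟩
  apply Subtype.ext
  change (w : M) = algebraMap K M c⁻¹ * (A.j β * r') ^ n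
  have e1 : algebraMap K M c = A.j β ^ n := by
    rw [← A.j.commutes c, hc, map_pow]
  rw [map_inv₀, e1, mul_pow, hr'w, inv_mul_cancel_left₀]
  exact pow_ne_zero _ ((map_ne_zero A.j).2 hβ0)

end field

section places

/-- descent of a homomorphism along an injective one -/
noncomputable def descHom {R C C' : Type} [CommRing R] [Field C] [Field C'] [Algebra C C']
    (f : R →+* C') (h : ∀ x, ∃ z : C, algebraMap C C' z = f x) : R →+* C where
  toFun x := (h x).choose
  map_one' := (algebraMap C C').injective (by rw [(h 1).choose_spec, map_one, map_one])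
  map_mul' x y := (algebraMap C C').injective (by
    rw [(h (x * y)).choose_spec, map_mul, map_mul, (h x).choose_spec, (h y).choose_spec])
  map_zero' := (algebraMap C C').injective (by rw [(h 0).choose_spec, map_zero, map_zero])
  map_add' x y := (algebraMap C C').injective (by
    rw [(h (x + y)).choose_spec, map_add, map_add, (h x).choose_spec, (h y).choose_spec])

lemma descHom_spec {R C C' : Type} [CommRing R] [Field C] [Field C'] [Algebra C C']
    (f : R →+* C') (h : ∀ x, ∃ z : C, algebraMap C C' z = f x) (x : R) :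
    algebraMap C C' (descHom f h x) = f x := (h x).choose_spec

variable {K M C : Type} [Field K] [Field M] [Field C] [Algebra K M] [Algebra K C] {C' : Type}
  [Field C'] [Algebra C C'] [Algebra K C'] [IsScalarTower K C C']

/-- the place of a subfield with values in a smaller field -/
noncomputable def subPlc (L : IntermediateField K M) (pl : Plc K M C')
    (h : ∀ (x : M) (_ : x ∈ L) (hx : x ∈ pl.W), ∃ z : C, algebraMap C C' z = pl.ρ ⟨x, hx⟩) :
    Plc K L C where
  W := pl.W.comap (algebraMap L M)
  ρ := descHom (R := pl.W.comap (algebraMap L M)) (C := C)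
    (pl.ρ.comp ((algebraMap L M).restrict (pl.W.comap (algebraMap L M)) pl.W
      (fun _ hx => hx))) (fun x => h _ (x : L).2 x.2)
  loc := by
    intro x hx
    have h1 := descHom_spec (R := pl.W.comap (algebraMap L M)) (C := C)
      (pl.ρ.comp ((algebraMap L M).restrict (pl.W.comap (algebraMap L M)) pl.W
        (fun _ hx => hx))) (fun x => h _ (x : L).2 x.2) x
    have h2 : pl.ρ ⟨((x : L) : M), x.2⟩ ≠ 0 := by
      intro h3
      apply hx
      apply (algebraMap C C').injective
      rw [map_zero, h1]
      exact h3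
    exact pl.loc _ h2
  comm := by
    intro c
    obtain ⟨h1, h2⟩ := pl.comm c
    refine ⟨h1, ?_⟩
    apply (algebraMap C C').injective
    refine (descHom_spec _ _ _).trans ?_
    rw [← IsScalarTower.algebraMap_apply, ← h2]
    rfl

lemma subPlc_val {L : IntermediateField K M} {pl : Plc K M C'}
    {h : ∀ (x : M) (_ : x ∈ L) (hx : x ∈ pl.W), ∃ z : C, algebraMap C C' z = pl.ρ ⟨x, hx⟩}
    {x : L} {c : C} (hx : (subPlc L pl h).val x c) : pl.val (x : M) (algebraMap C C' c) := by
  obtain ⟨h1, rfl⟩ := hx
  exact ⟨h1, (descHom_spec (R := pl.W.comap (algebraMap L M)) (C := C)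
    (pl.ρ.comp ((algebraMap L M).restrict (pl.W.comap (algebraMap L M)) pl.W
      (fun _ hx => hx))) (fun x => h _ (x : L).2 x.2) ⟨x, h1⟩).symm⟩

end places

end Pool.Agent.Y158.KL
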