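import Pool.Agent.Y158.KL.Case1

/-!
# Kummer's theorem
-/

set_option autoImplicit false
set_option linter.unusedSectionVars false

namespace Pool.Agent.Y158.KL

open NumberField IsDedekindDomain WithZero Pool.Agent.TH954 Polynomial

variable {K L : Type} [Field K] [NumberField K] [Field L] [Algebra K L] {ℓ : ℕ}
  [hp : Fact ℓ.Prime] [hK : IsCyclotomicExtension {ℓ} ℚ K] {ζ : K} (hζ : IsPrimitiveRoot ζ ℓ)

lemma V_pow_sub {x y : Kl hζ} (hx : V hζ x ≤ 1) (hy : V hζ y ≤ 1) (n : ℕ) :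
    V hζ (x ^ n - y ^ n) ≤ V hζ (x - y) := by
  obtain ⟨t, ht⟩ := sub_dvd_pow_sub_pow (⟨x, hx⟩ : (V hζ).integer) ⟨y, hy⟩ n
  have h1 := congrArg Subtype.val ht
  push_cast at h1
  have h2 : x ^ n - y ^ n = (x - y) * (t : Kl hζ) := h1
  rw [h2, map_mul]
  exact mul_le_of_le_one_right zero_le t.2

lemma V_intCast_lt {n : ℤ} : V hζ (n : Kl hζ) < 1 ↔ (ℓ : ℤ) ∣ n := by
  have h := V_int hζ (n : 𝓞 K)
  rw [map_intCast, map_intCast] at h
  rw [h, HeightOneSpectrum.intValuation_lt_one_iff_mem]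
  change _ ∈ Ideal.span {hζ.toInteger - 1} ↔ _
  rw [Ideal.mem_span_singleton, pi_dvd_int]

/-- the first case for `ℓ ≥ 5` -/
theorem first5 (hℓ5 : 5 ≤ ℓ) (hcop : (classNumber K).Coprime ℓ)
    (hkum : Kum ℓ K L) (pl : ∀ v : HeightOneSpectrum (𝓞 K), Plc K L (v.adicCompletion K))
    {x z : L} (h : x ^ ℓ + 1 = z ^ ℓ) {x' z' : Kl hζ}
    (hx' : (pl (lam hζ)).val x x') (hz' : (pl (lam hζ)).val z z') (hVx : V hζ x' = 1)
    (hVz : V hζ z' = 1) : False := by
  have hodd : Odd ℓ := hp.out.odd_of_ne_two (by omega)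
  set P := pl (lam hζ) with hP
  have hz'0 : z' ≠ 0 := by
    rintro rfl
    rw [map_zero] at hVz
    exact zero_ne_one hVz
  have hz : z ≠ 0 := by
    rintro rfl
    exact hz'0 (hz'.unique Plc.val_zero)
  have hx'0 : x' ≠ 0 := by
    rintro rfl
    rw [map_zero] at hVx
    exact zero_ne_one hVx
  have hx : x ≠ 0 := by
    rintro rfl
    exact hx'0 (hx'.unique Plc.val_zero)
  have hloc : x' ^ ℓ + 1 = z' ^ ℓ := by
    have h1 : P.val (x ^ ℓ + 1) (x' ^ ℓ + 1) := (hx'.pow ℓ).add Plc.val_one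
    rw [h] at h1
    exact h1.unique (hz'.pow ℓ)
  have h1 := case1 hζ hℓ5 hcop hkum pl hz h hx' hz' hVx hVz
  have h2 := case1 hζ hℓ5 hcop hkum pl (x := -z⁻¹) (z := x * z⁻¹) (x' := -z'⁻¹)
    (z' := x' * z'⁻¹) (mul_ne_zero hx (inv_ne_zero hz)) (by
      rw [Odd.neg_pow hodd, mul_pow, inv_pow]
      have hzl : z ^ ℓ ≠ 0 := pow_ne_zero _ hz
      field_simp
      linear_combination -h) (by
      have := Plc.val_zero.sub (hz'.inv hz'0)
      rwa [zero_sub, zero_sub] at this) (hx'.mul (hz'.inv hz'0)) (by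
      rw [Valuation.map_neg, map_inv₀, hVz, inv_one]) (by
      rw [map_mul, map_inv₀, hVx, hVz, inv_one, mul_one])
  have h3 : V hζ (z' + 1) < 1 := by
    have e : z' + 1 = -z' * (-z'⁻¹ - 1) := by
      field_simp
      ring
    rw [e, map_mul, Valuation.map_neg, hVz, one_mul]
    exact h2
  have h4 : V hζ ((3 : ℤ) : Kl hζ) < 1 := by
    have e2 : ((3 : ℤ) : Kl hζ) = (z' ^ ℓ + 1 ^ ℓ) - (x' ^ ℓ - 1 ^ ℓ) := by
      rw [one_pow]
      push_cast
      linear_combination hloc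
    rw [e2]
    refine Valuation.map_sub_lt _ ?_ ?_
    · exact lt_of_le_of_lt (V_pow_add hζ hVz.le (by rw [map_one]) hodd) h3
    · exact lt_of_le_of_lt (V_pow_sub hζ hVx.le (by rw [map_one]) ℓ) h1
  rw [V_intCast_lt] at h4
  have h5 := Int.le_of_dvd (by norm_num) h4
  omega

/-- cubes of units modulo `9` -/
lemma cube_near (h3 : ℓ = 3) {w : Kl hζ} (hw : V hζ w = 1) :
    V hζ (w ^ 3 - 1) ≤ exp (-3) ∨ V hζ (w ^ 3 + 1) ≤ exp (-3) := by
  have h3V : V hζ (3 : Kl hζ) = exp (-2) := by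
    have h := V_ell hζ
    have e : ((ℓ : ℕ) : Kl hζ) = 3 := by
      exact_mod_cast congrArg (Nat.cast : ℕ → Kl hζ) h3
    have e2 : ℓ - 1 = 2 := by omega
    rw [e, e2] at h
    rw [h]
    norm_num
  obtain ⟨n, hn⟩ := near_rat hζ hw.le
  have hlt1 : (exp (-1) : WithZero (Multiplicative ℤ)) ≤ 1 :=
    (exp_neg_lt_one (n := 1) (by norm_num)).le
  have key : ∀ e : Kl hζ, V hζ e = 1 → V hζ (w - e) ≤ exp (-1) →
      V hζ (w ^ 3 - e ^ 3) ≤ exp (-3) := by
    intro e he hwe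
    have e1 : w ^ 3 - e ^ 3 = (w - e) ^ 3 + 3 * (e * (w - e) * w) := by ring
    rw [e1]
    refine Valuation.map_add_le _ ?_ ?_
    · rw [map_pow]
      refine (pow_le_pow_left₀ zero_le hwe 3).trans ?_
      rw [exp_pow, exp_le_exp]
      norm_num
    · rw [map_mul, map_mul, map_mul, h3V, he, hw, one_mul, mul_one]
      refine (mul_le_mul' le_rfl hwe).trans ?_
      rw [← exp_add, exp_le_exp]
      norm_num
  have hn3 : ¬ (3 : ℤ) ∣ n := by
    intro hd
    have hd' : (ℓ : ℤ) ∣ n := by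
      rw [h3]
      exact hd
    have h5 := V_dvd hζ hd'
    have h6 : V hζ w ≤ exp (-1) := by
      have e : w = (w - n) + n := by ring
      rw [e]
      refine Valuation.map_add_le _ hn (h5.trans ?_)
      rw [exp_le_exp, h3]
      norm_num
    rw [hw] at h6
    exact absurd h6 (not_le.2 (exp_neg_lt_one (n := 1) (by norm_num)))
  have hmod : (3 : ℤ) ∣ n - 1 ∨ (3 : ℤ) ∣ n + 1 := by omega
  have hsm : ∀ m : ℤ, (3 : ℤ) ∣ m → V hζ (m : Kl hζ) ≤ exp (-1) := by
    intro m hm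
    have hd' : (ℓ : ℤ) ∣ m := by
      rw [h3]
      exact hm
    refine (V_dvd hζ hd').trans ?_
    rw [exp_le_exp, h3]
    norm_num
  rcases hmod with hm | hm
  · left
    have h7 := key 1 (map_one _) (by
      have e : w - 1 = (w - n) + ((n - 1 : ℤ) : Kl hζ) := by
        push_cast
        ring
      rw [e]
      exact Valuation.map_add_le _ hn (hsm _ hm))
    rwa [one_pow] at h7
  · right
    have h7 := key (-1) (by rw [Valuation.map_neg, map_one]) (by
      have e : w - -1 = (w - n) + ((n + 1 : ℤ) : Kl hζ) := by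
        push_cast
        ring
      rw [e]
      exact Valuation.map_add_le _ hn (hsm _ hm))
    have e : w ^ 3 + 1 = w ^ 3 - (-1) ^ 3 := by ring
    rw [e]
    exact h7

/-- the first case for `ℓ = 3` -/
theorem first3 (h3 : ℓ = 3) {x' z' : Kl hζ} (h : x' ^ ℓ + 1 = z' ^ ℓ) (hVx : V hζ x' = 1)
    (hVz : V hζ z' = 1) : False := by
  have h3V : V hζ (3 : Kl hζ) = exp (-2) := by
    have h := V_ell hζ
    have e : ((ℓ : ℕ) : Kl hζ) = 3 := by
      exact_mod_cast congrArg (Nat.cast : ℕ → Kl hζ) h3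
    have e2 : ℓ - 1 = 2 := by omega
    rw [e, e2] at h
    rw [h]
    norm_num
  have e3 : ∀ w : Kl hζ, w ^ ℓ = w ^ 3 := fun w => congrArg (fun n => w ^ n) h3
  rw [e3, e3] at h
  have hone : ¬ V hζ (1 : Kl hζ) ≤ exp (-3) := by
    rw [map_one]
    exact not_le.2 (exp_neg_lt_one (n := 3) (by norm_num))
  have hthree : ¬ V hζ (3 : Kl hζ) ≤ exp (-3) := by
    rw [h3V, exp_le_exp]
    norm_num
  rcases cube_near hζ h3 hVx with h1 | h1 <;> rcases cube_near hζ h3 hVz with h2 | h2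
  · apply hone
    have e : (1 : Kl hζ) = (z' ^ 3 - 1) - (x' ^ 3 - 1) := by linear_combination h
    rw [e]
    exact Valuation.map_sub_le _ h2 h1
  · apply hthree
    have e : (3 : Kl hζ) = (z' ^ 3 + 1) - (x' ^ 3 - 1) := by linear_combination h
    rw [e]
    exact Valuation.map_sub_le _ h2 h1
  · apply hone
    have e' : (1 : Kl hζ) = (x' ^ 3 + 1) - (z' ^ 3 - 1) := by linear_combination -h
    rw [e']
    exact Valuation.map_sub_le _ h1 h2
  · apply hone
    have e : (1 : Kl hζ) = (z' ^ 3 + 1) - (x' ^ 3 + 1) := by linear_combination h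
    rw [e]
    exact Valuation.map_sub_le _ h2 h1

/-- **Kummer's theorem.** For a point of the Fermat curve over `L` the value at the prime above `ℓ`
is a trivial point. -/
theorem core_main (hodd : Odd ℓ) (hcop : (classNumber K).Coprime ℓ) (hKL : KLem ℓ K)
    (hkum : Kum ℓ K L) (pl : ∀ v : HeightOneSpectrum (𝓞 K), Plc K L (v.adicCompletion K))
    {X Y : L} (h : X ^ ℓ + Y ^ ℓ = 1) :
    (pl (lam hζ)).val X 0 ∨ (pl (lam hζ)).val Y 0 ∨ (X ≠ 0 ∧ (pl (lam hζ)).val X⁻¹ 0) := by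
  set P := pl (lam hζ) with hP
  have hℓ := hp.out.pos
  by_cases hX0 : X = 0
  · left
    rw [hX0]
    exact Plc.val_zero
  by_cases hY0 : Y = 0
  · right; left
    rw [hY0]
    exact Plc.val_zero
  by_cases hXW : X ∈ P.W
  swap
  · right; right
    exact ⟨hX0, Plc.val_inv_of_notMem hXW⟩
  obtain ⟨x', hx'⟩ := Plc.val_of_mem hXW
  have hYW : Y ∈ P.W := by
    apply Plc.mem_of_pow_mem hℓ
    have e : Y ^ ℓ = 1 - X ^ ℓ := by linear_combination h
    rw [e]
    exact sub_mem (one_mem _) (pow_mem hXW _)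
  obtain ⟨y', hy'⟩ := Plc.val_of_mem hYW
  by_cases hx0 : x' = 0
  · left
    rwa [hx0] at hx'
  by_cases hy0 : y' = 0
  · right; left
    rwa [hy0] at hy'
  exfalso
  have hloc : x' ^ ℓ + y' ^ ℓ = 1 := by
    have h1 : P.val (X ^ ℓ + Y ^ ℓ) (x' ^ ℓ + y' ^ ℓ) := (hx'.pow ℓ).add (hy'.pow ℓ)
    rw [h] at h1
    exact h1.unique Plc.val_one
  have hVx0 : V hζ x' ≠ 0 := (Valuation.ne_zero_iff _).2 hx0
  have hVy0 : V hζ y' ≠ 0 := (Valuation.ne_zero_iff _).2 hy0
  -- the second case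
  have hcase2 : ∀ {x z : L} {x₁ z₁ : Kl hζ}, z ≠ 0 → x ^ ℓ + 1 = z ^ ℓ → P.val x x₁ →
      P.val z z₁ → z₁ ≠ 0 → V hζ z₁ < 1 → False := by
    intro x z x₁ z₁ hz hxz hx₁ hz₁ hz₁0 hV
    obtain ⟨m, hm⟩ := exists_exp ((Valuation.ne_zero_iff (V hζ)).2 hz₁0)
    have hm0 : m < 0 := by
      rw [hm, ← exp_zero, exp_lt_exp] at hV
      exact hV
    obtain ⟨n, hn⟩ : ∃ n : ℕ, m = -(n : ℤ) := ⟨(-m).toNat, by omega⟩
    refine case2 hζ hodd hcop hKL hkum pl n (by omega) (ε := 1) hz ?_ hx₁ hz₁ ?_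
    · rw [hxz, Units.val_one, map_one, one_mul]
    · rw [hm, hn]
  rcases lt_trichotomy (V hζ x') 1 with hlt | heq | hgt
  · exact hcase2 (x := -Y) (z := X) (x₁ := -y') hX0 (by
      rw [Odd.neg_pow hodd]
      linear_combination -h) (by
      have := Plc.val_zero.sub hy'
      rwa [zero_sub, zero_sub] at this) hx' hx0 hlt
  · have hy1 : V hζ y' ≤ 1 := by
      have e : y' ^ ℓ = 1 - x' ^ ℓ := by linear_combination hloc
      have h2 : V hζ (y' ^ ℓ) ≤ 1 := by
        rw [e]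
        exact Valuation.map_sub_le _ (by rw [map_one]) (by rw [map_pow, heq, one_pow])
      rw [map_pow] at h2
      exact (pow_le_one_iff_of_nonneg zero_le hℓ.ne').1 h2
    rcases hy1.lt_or_eq with hy2 | hy2
    · exact hcase2 (x := -X) (z := Y) (x₁ := -x') hY0 (by
        rw [Odd.neg_pow hodd]
        linear_combination -h) (by
        have := Plc.val_zero.sub hx'
        rwa [zero_sub, zero_sub] at this) hy' hy0 hy2
    · have hq : (X * Y⁻¹) ^ ℓ + 1 = (Y⁻¹) ^ ℓ := by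
        rw [mul_pow, inv_pow]
        have : Y ^ ℓ ≠ 0 := pow_ne_zero _ hY0
        field_simp
        linear_combination h
      have hvx := hx'.mul (hy'.inv hy0)
      have hvz := hy'.inv hy0
      have h5 : V hζ (x' * y'⁻¹) = 1 := by rw [map_mul, map_inv₀, heq, hy2, inv_one, one_mul]
      have h6 : V hζ y'⁻¹ = 1 := by rw [map_inv₀, hy2, inv_one]
      rcases Nat.lt_or_ge ℓ 5 with hl | hl
      · have h3 : ℓ = 3 := by
          have h2 := hp.out.two_le
          obtain ⟨t, ht⟩ := hodd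
          omega
        have hq' : (x' * y'⁻¹) ^ ℓ + 1 = (y'⁻¹) ^ ℓ := by
          have h7 : P.val ((X * Y⁻¹) ^ ℓ + 1) ((x' * y'⁻¹) ^ ℓ + 1) :=
            (hvx.pow ℓ).add Plc.val_one
          rw [hq] at h7
          exact h7.unique (hvz.pow ℓ)
        exact first3 hζ h3 hq' h5 h6
      · exact first5 hζ hl hcop hkum pl hq hvx hvz h5 h6
  · have hy1 : 1 < V hζ y' := by
      have e : y' ^ ℓ = 1 - x' ^ ℓ := by linear_combination hloc
      have h2 : V hζ (y' ^ ℓ) = V hζ x' ^ ℓ := by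
        rw [e, Valuation.map_sub_eq_of_lt_right _ (by
          rw [map_one, map_pow]
          exact one_lt_pow₀ hgt hℓ.ne'), map_pow]
      rw [map_pow] at h2
      by_contra hcon
      have h3 : V hζ y' ^ ℓ ≤ 1 := pow_le_one₀ zero_le (not_lt.1 hcon)
      rw [h2] at h3
      exact absurd h3 (not_le.2 (one_lt_pow₀ hgt hℓ.ne'))
    refine hcase2 (x := X * Y⁻¹) (z := Y⁻¹) (inv_ne_zero hY0) ?_ (hx'.mul (hy'.inv hy0))
      (hy'.inv hy0) (inv_ne_zero hy0) ?_
    · rw [mul_pow, inv_pow]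
      have : Y ^ ℓ ≠ 0 := pow_ne_zero _ hY0
      field_simp
      linear_combination h
    · rw [map_inv₀]
      exact inv_lt_one_of_one_lt₀ hy1

end Pool.Agent.Y158.KL
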