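import Pool.Agent.Y158.KL.Alg

/-!
# Computations modulo the fourth power of a parameter (2)
-/

set_option autoImplicit false

namespace Pool.Agent.Y158.KL

variable {k R : Type*} [Field k] [CommRing R] [Algebra k R] {s : R}

lemma Q_smul (x a b c d : k) :
    algebraMap k R x * Q s a b c d = Q s (x * a) (x * b) (x * c) (x * d) := by
  simp only [Q, map_mul]
  ring

theorem alg_final (h2 : (2 : k) ≠ 0) (h3 : (3 : k) ≠ 0) (c : R →+* R)
    (hc : ∀ x : k, c (algebraMap k R x) = algebraMap k R x) {p : R} (hp4 : p ^ 4 = 0)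
    (hp3 : p ^ 3 ≠ 0) (hcp : c (1 + p) * (1 + p) = 1)
    (hQ : ∀ x : R, ∃ a b d e : k, x = Q p a b d e) (ξ : R)
    (r₁ r₂ r₃ : ℕ)
    (E1 : (ξ + (1 + p)) * (c ξ + 1) = (1 + p) ^ r₁ * ((ξ + 1) * (c ξ + c (1 + p))))
    (E2 : (ξ + (1 + p) ^ 2) * (c ξ + 1) = (1 + p) ^ r₂ * ((ξ + 1) * (c ξ + c (1 + p) ^ 2)))
    (E3 : (ξ + c (1 + p)) * (c ξ + 1) = (1 + p) ^ r₃ * ((ξ + 1) * (c ξ + (1 + p)))) :
    ∃ (a : k) (y : R), ξ = algebraMap k R a + p * y ∧ (a + 1 = 0 ∨ a = 0 ∨ a = 1) := by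
  have h6 : (6 : k) ≠ 0 := by
    have : (6 : k) = 2 * 3 := by norm_num
    rw [this]
    exact mul_ne_zero h2 h3
  set s : R := Q p (0 : k) 1 (-1 / 2) (1 / 3) with hsdef
  have hs2 : s ^ 2 = Q p (0 : k) 0 1 (-1) := by
    rw [pow_two, hsdef, Q_mul hp4]
    congr 1
    · ring
    · ring
    · ring
    · field_simp
      ring
  have hs3' : s ^ 3 = Q p (0 : k) 0 0 1 := by
    rw [pow_succ, hs2, hsdef, Q_mul hp4]
    congr 1 <;> ring
  have hs3'' : s ^ 3 = p ^ 3 := by
    rw [hs3']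
    simp [Q]
  have hs3 : s ^ 3 ≠ 0 := by
    rw [hs3'']
    exact hp3
  have hs4 : s ^ 4 = 0 := by
    rw [pow_succ, hs3', hsdef, Q_mul hp4]
    simp [Q]
  have hEx : ∀ x : k, Ex s x = Q p 1 x (-x / 2 + x ^ 2 / 2) (x / 3 - x ^ 2 / 2 + x ^ 3 / 6) := by
    intro x
    have e1 : Ex s x = algebraMap k R 1 + algebraMap k R x * s + algebraMap k R (x ^ 2 / 2) * s ^ 2
        + algebraMap k R (x ^ 3 / 6) * s ^ 3 := rfl
    rw [e1, hs3', hs2, hsdef, Q_smul, Q_smul, Q_smul]
    have e2 : algebraMap k R 1 = Q p (1 : k) 0 0 0 := by simp [Q]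
    rw [e2, Q_add, Q_add, Q_add]
    congr 1 <;> ring
  have hz : Ex s (1 : k) = 1 + p := by
    rw [hEx]
    have e3 : (-1 / 2 + (1 : k) ^ 2 / 2) = 0 := by ring
    have e4 : ((1 : k) / 3 - 1 ^ 2 / 2 + 1 ^ 3 / 6) = 0 := by
      field_simp
      norm_num
    rw [e3, e4]
    simp [Q]
  have hz' : Ex s (-1 : k) = c (1 + p) := by
    have h4 : Ex s (-1 : k) * (1 + p) = 1 := by
      rw [← hz, Ex_mul h2 h3 hs4, neg_add_cancel, Ex_zero]
    calc Ex s (-1 : k) = Ex s (-1 : k) * (c (1 + p) * (1 + p)) := by rw [hcp, mul_one]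
      _ = c (1 + p) * (Ex s (-1 : k) * (1 + p)) := by ring
      _ = c (1 + p) := by rw [h4, mul_one]
  -- every element is a polynomial in `s`
  have hpQ : p = Q s (0 : k) 1 (1 / 2) (1 / 6) := by
    have e1 : p = Ex s (1 : k) - 1 := by rw [hz]; ring
    rw [e1]
    unfold Ex
    rw [Q_sub_one]
    congr 1 <;> ring
  have hQs : ∀ x : R, ∃ a b d e : k, x = Q s a b d e := by
    intro x
    obtain ⟨a, b, d, e, hx⟩ := hQ x
    have e1 : x = algebraMap k R a + algebraMap k R b * p + algebraMap k R d * (p * p) +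
        algebraMap k R e * (p * p * p) := by
      rw [hx]
      unfold Q
      ring
    have e2 : algebraMap k R a = Q s a 0 0 0 := by simp [Q]
    rw [e1, hpQ, Q_mul hs4, Q_mul hs4, Q_smul, Q_smul, Q_smul, e2, Q_add, Q_add, Q_add]
    exact ⟨_, _, _, _, rfl⟩
  have hcs : c s = -s := by
    have hcp' : c p = Q p (0 : k) (-1) 1 (-1) := by
      have e1 : c p = Ex s (-1 : k) - 1 := by rw [hz', map_add, map_one]; ring
      rw [e1, hEx, Q_sub_one]
      congr 1
      · ring
      · field_simp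
        norm_num
      · field_simp
        norm_num
    have e1 : c s = algebraMap k R 0 + algebraMap k R 1 * c p + algebraMap k R (-1 / 2) * (c p * c p)
        + algebraMap k R (1 / 3) * (c p * c p * c p) := by
      rw [hsdef]
      unfold Q
      rw [map_add, map_add, map_add, map_mul, map_mul, map_mul, hc, hc, hc, hc, map_pow, map_pow]
      ring
    have e2 : algebraMap k R 0 = Q p (0 : k) 0 0 0 := by simp [Q]
    have e3 : -s = Q p (0 : k) (-1) (1 / 2) (-1 / 3) := by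
      rw [hsdef]
      unfold Q
      simp only [neg_div, map_neg]
      simp
      ring
    rw [e1, hcp', Q_mul hp4, Q_mul hp4, Q_smul, Q_smul, Q_smul, e2, Q_add, Q_add, Q_add, e3]
    congr 1
    · ring
    · ring
    · field_simp
      norm_num
    · field_simp
      norm_num
  have hcQ : ∀ a b d e : k, c (Q s a b d e) = Q s a (-b) d (-e) := by
    intro a b d e
    unfold Q
    rw [map_add, map_add, map_add, map_mul, map_mul, map_mul, hc, hc, hc, hc, map_pow, map_pow,
      hcs, map_neg, map_neg]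
    ring
  obtain ⟨a', b, d, e, hξ⟩ := hQs (ξ + 1)
  have hcξ : c ξ + 1 = Q s a' (-b) d (-e) := by
    rw [← hcQ, ← hξ, map_add, map_one]
  refine ⟨a' - 1, (1 - algebraMap k R (1 / 2) * p + algebraMap k R (1 / 3) * p ^ 2) *
    (algebraMap k R b + algebraMap k R d * s + algebraMap k R e * s ^ 2), ?_, ?_⟩
  · have e1 : s = p * (1 - algebraMap k R (1 / 2) * p + algebraMap k R (1 / 3) * p ^ 2) := by
      rw [hsdef]
      unfold Q
      rw [neg_div, map_neg, map_zero, map_one]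
      ring
    have e2 : ξ = Q s a' b d e - 1 := by rw [← hξ]; ring
    rw [← mul_assoc, ← e1, e2, map_sub, map_one]
    unfold Q
    ring
  · by_cases ha : a' = 0
    · left
      rw [ha]
      ring
    right
    have key : ∀ (u r : k), u ≠ 0 →
        (Q s a' b d e + (Ex s u - 1)) * Q s a' (-b) d (-e) =
          Ex s r * (Q s a' b d e * (Q s a' (-b) d (-e) + (Ex s (-u) - 1))) →
        (a' - 1) * (a' - 2) * u ^ 2 + 3 * b * (2 - a') * u + 6 * (b ^ 2 - a' * d) = 0 :=
      fun u r hu h => main_alg h2 h3 hs4 hs3 ha hu h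
    have k1 := key 1 (r₁ * 1) one_ne_zero (by
      rw [← hcξ, ← hξ, ← Ex_pow h2 h3 hs4, hz, hz']
      linear_combination E1)
    have k2 := key 2 (r₂ * 1) h2 (by
      have e1 : Ex s (2 : k) = (1 + p) ^ 2 := by
        rw [← hz, Ex_pow h2 h3 hs4]
        norm_num
      have e2 : Ex s (-2 : k) = c (1 + p) ^ 2 := by
        rw [← hz', Ex_pow h2 h3 hs4]
        norm_num
      rw [← hcξ, ← hξ, ← Ex_pow h2 h3 hs4, hz, e1, e2]
      linear_combination E2)
    have k3 := key (-1) (r₃ * 1) (neg_ne_zero.2 one_ne_zero) (by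
      rw [neg_neg, ← hcξ, ← hξ, ← Ex_pow h2 h3 hs4, hz, hz']
      linear_combination E3)
    have h7 : (3 * 2) * ((a' - 1) * (a' - 2)) = 0 := by
      linear_combination 2 * k2 - 3 * k1 + k3
    rcases mul_eq_zero.1 ((mul_eq_zero.1 h7).resolve_left (mul_ne_zero h3 h2)) with h8 | h8
    · left
      exact h8
    · right
      linear_combination h8

end Pool.Agent.Y158.KL
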