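import Pool.Agent.Y158.KL.Conj
import Pool.Agent.Y158.KL.Alg2

/-!
# The first case: congruences modulo the fourth power of `ζ - 1`
-/

set_option autoImplicit false
set_option linter.unusedSectionVars false

namespace Pool.Agent.Y158.KL

open NumberField IsDedekindDomain WithZero

variable {K : Type*} [Field K] [NumberField K] {ℓ : ℕ} [hp : Fact ℓ.Prime]
  [hK : IsCyclotomicExtension {ℓ} ℚ K] {ζ : K} (hζ : IsPrimitiveRoot ζ ℓ)

lemma pi_prime : Prime (hζ.toInteger - 1) := hζ.zeta_sub_one_prime'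

lemma pi_dvd_int {n : ℤ} : hζ.toInteger - 1 ∣ (n : 𝓞 K) ↔ (ℓ : ℤ) ∣ n :=
  IsCyclotomicExtension.Rat.zeta_sub_one_dvd_intCast_iff' ℓ hζ

lemma conj_pi {c : 𝓞 K →+* 𝓞 K} (hc1 : c hζ.toInteger * hζ.toInteger = 1) :
    c (hζ.toInteger - 1) = -c hζ.toInteger * (hζ.toInteger - 1) := by
  rw [map_sub, map_one]
  linear_combination hc1

lemma conj_mod {c : 𝓞 K →+* 𝓞 K} (hc1 : c hζ.toInteger * hζ.toInteger = 1) (x : 𝓞 K) :
    hζ.toInteger - 1 ∣ c x - x := by
  obtain ⟨n, t, hn⟩ := res_int hζ x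
  refine ⟨-c hζ.toInteger * c t - t, ?_⟩
  have h1 := congrArg c hn
  rw [map_sub, map_intCast, map_mul, conj_pi hζ hc1] at h1
  linear_combination h1 - hn

lemma conj_four {c : 𝓞 K →+* 𝓞 K} (hc1 : c hζ.toInteger * hζ.toInteger = 1) {x : 𝓞 K}
    (h : (hζ.toInteger - 1) ^ 4 ∣ x) : (hζ.toInteger - 1) ^ 4 ∣ c x := by
  obtain ⟨t, rfl⟩ := h
  rw [map_mul, map_pow, conj_pi hζ hc1, mul_pow]
  exact ⟨(-c hζ.toInteger) ^ 4 * c t, by ring⟩

theorem rel (hodd : Odd ℓ) {c : 𝓞 K →+* 𝓞 K} (hc1 : c hζ.toInteger * hζ.toInteger = 1)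
    (hc2 : ∀ η : (𝓞 K)ˣ, ∃ r : ℕ, (η : 𝓞 K) = (-hζ.toInteger) ^ r * c η)
    {a b : 𝓞 K} {η : (𝓞 K)ˣ} {n : ℤ} (h : (hζ.toInteger - 1) ^ 4 ∣ a - η * n * b)
    (ha : ¬ hζ.toInteger - 1 ∣ a) (hb : ¬ hζ.toInteger - 1 ∣ b) :
    ∃ r : ℕ, (hζ.toInteger - 1) ^ 4 ∣ a * c b - hζ.toInteger ^ r * (b * c a) := by
  set z := hζ.toInteger with hz
  obtain ⟨r, hr⟩ := hc2 η
  have h1 := conj_four hζ hc1 h
  rw [map_sub, map_mul, map_mul, map_intCast] at h1
  have h2 : (z - 1) ^ 4 ∣ c η * (a * c b - (-z) ^ r * (b * c a)) := by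
    have e : c η * (a * c b - (-z) ^ r * (b * c a)) =
        c η * c b * (a - η * n * b) - η * b * (c a - c η * n * c b) := by
      linear_combination (b * c a) * hr
    rw [e]
    exact dvd_sub (h.mul_left _) (h1.mul_left _)
  have hu : IsUnit (c (η : 𝓞 K)) := η.isUnit.map c
  have h3 : (z - 1) ^ 4 ∣ a * c b - (-z) ^ r * (b * c a) := (hu.dvd_mul_left).1 h2
  have hev : Even r := by
    by_contra hno
    rw [Nat.not_even_iff_odd] at hno
    rw [Odd.neg_pow hno] at h3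
    have h4 : z - 1 ∣ a * c b - -z ^ r * (b * c a) :=
      (dvd_pow_self _ (by norm_num)).trans h3
    have h5 : z - 1 ∣ z ^ r - 1 := by
      have := sub_dvd_pow_sub_pow z 1 r
      rwa [one_pow] at this
    have h6 : z - 1 ∣ ((2 : ℤ) : 𝓞 K) * (a * b) := by
      have e : ((2 : ℤ) : 𝓞 K) * (a * b) = (a * c b - -z ^ r * (b * c a)) - a * (c b - b)
          - z ^ r * b * (c a - a) - (z ^ r - 1) * (a * b) := by
        push_cast
        ring
      rw [e]
      refine dvd_sub (dvd_sub (dvd_sub h4 ?_) ?_) ?_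
      · exact (conj_mod hζ hc1 b).mul_left _
      · exact (conj_mod hζ hc1 a).mul_left _
      · exact h5.mul_right _
    rcases (pi_prime hζ).dvd_or_dvd h6 with h7 | h7
    · rw [pi_dvd_int hζ] at h7
      have h8 : ℓ ∣ 2 := by exact_mod_cast h7
      have h9 := (Nat.prime_dvd_prime_iff_eq hp.out Nat.prime_two).1 h8
      rw [h9] at hodd
      exact absurd hodd (by decide)
    · rcases (pi_prime hζ).dvd_or_dvd h7 with h8 | h8
      · exact ha h8
      · exact hb h8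
  refine ⟨r, ?_⟩
  rwa [hev.neg_pow] at h3

/-- In the first case the ratio is congruent to one. -/
theorem glob1 (hℓ5 : 5 ≤ ℓ) {ξ : 𝓞 K} (hξ : ¬ hζ.toInteger - 1 ∣ ξ)
    (hξ1 : ¬ hζ.toInteger - 1 ∣ ξ + 1)
    (H : ∀ u : ℕ, ∃ (η : (𝓞 K)ˣ) (n : ℤ),
      (hζ.toInteger - 1) ^ 4 ∣ (ξ + hζ.toInteger ^ u) - η * n * (ξ + 1)) :
    hζ.toInteger - 1 ∣ ξ - 1 := by
  have hodd : Odd ℓ := hp.out.odd_of_ne_two (by omega)
  obtain ⟨c, hc1, hc2⟩ := exists_conj hζ hodd
  set z := hζ.toInteger with hz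
  set π := z - 1 with hπ
  have hππ : Prime π := pi_prime hζ
  have hzu : ∀ u : ℕ, ¬ π ∣ ξ + z ^ u := by
    intro u h
    apply hξ1
    have h5 : π ∣ z ^ u - 1 := by
      have := sub_dvd_pow_sub_pow z 1 u
      rwa [one_pow] at this
    have e : ξ + 1 = (ξ + z ^ u) - (z ^ u - 1) := by ring
    rw [e]
    exact dvd_sub h h5
  have hrel : ∀ u : ℕ, ∃ r : ℕ, π ^ 4 ∣ (ξ + z ^ u) * c (ξ + 1) -
      z ^ r * ((ξ + 1) * c (ξ + z ^ u)) := by
    intro u
    obtain ⟨η, n, h⟩ := H u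
    exact rel hζ hodd hc1 hc2 h (hzu u) hξ1
  -- the quotient ring
  set I : Ideal (𝓞 K) := Ideal.span {π ^ 4} with hI
  set q : 𝓞 K →+* 𝓞 K ⧸ I := Ideal.Quotient.mk I with hq
  have hq0 : ∀ x : 𝓞 K, q x = 0 ↔ π ^ 4 ∣ x := by
    intro x
    rw [hq, Ideal.Quotient.eq_zero_iff_mem, hI, Ideal.mem_span_singleton]
  have hell : q (ℓ : 𝓞 K) = 0 := by
    rw [hq0]
    refine (pow_dvd_pow π (show 4 ≤ ℓ - 1 by omega)).trans ?_
    exact (IsCyclotomicExtension.Rat.associated_zeta_sub_one_pow_prime ℓ hζ).dvd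
  have hnt : Nontrivial (𝓞 K ⧸ I) := by
    refine Ideal.Quotient.nontrivial_iff.2 ?_
    intro htop
    rw [hI, Ideal.span_singleton_eq_top] at htop
    exact hππ.not_isUnit (isUnit_of_dvd_unit (dvd_pow_self _ (by norm_num)) htop)
  have hchar : CharP (𝓞 K ⧸ I) ℓ := by
    rw [CharP.charP_iff_prime_eq_zero hp.out, ← hell, map_natCast]
  let _ : Algebra (ZMod ℓ) (𝓞 K ⧸ I) := ZMod.algebra _ ℓ
  have hcast : ∀ n : ℤ, algebraMap (ZMod ℓ) (𝓞 K ⧸ I) (n : ZMod ℓ) = q n := by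
    intro n
    rw [map_intCast, map_intCast]
  have h2 : (2 : ZMod ℓ) ≠ 0 := by
    intro h
    have h3 : ((2 : ℕ) : ZMod ℓ) = 0 := by exact_mod_cast h
    rw [ZMod.natCast_eq_zero_iff] at h3
    have := Nat.le_of_dvd (by norm_num) h3
    omega
  have h3 : (3 : ZMod ℓ) ≠ 0 := by
    intro h
    have h3 : ((3 : ℕ) : ZMod ℓ) = 0 := by exact_mod_cast h
    rw [ZMod.natCast_eq_zero_iff] at h3
    have := Nat.le_of_dvd (by norm_num) h3
    omega
  let cb : 𝓞 K ⧸ I →+* 𝓞 K ⧸ I := Ideal.Quotient.lift I (q.comp c) (by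
    intro a ha
    rw [hI, Ideal.mem_span_singleton] at ha
    exact (hq0 _).2 (conj_four hζ hc1 ha))
  have hcb : ∀ x, cb (q x) = q (c x) := fun x => Ideal.Quotient.lift_mk I _ _
  have hqz : (1 : 𝓞 K ⧸ I) + q π = q z := by
    rw [hπ, map_sub, map_one]
    ring
  obtain ⟨r₁, hr₁⟩ := hrel 1
  obtain ⟨r₂, hr₂⟩ := hrel 2
  obtain ⟨r₃, hr₃⟩ := hrel (ℓ - 1)
  have hzl : z ^ (ℓ - 1) = c z := by
    have h4 : z ^ (ℓ - 1) * z = 1 := by
      rw [← pow_succ, Nat.sub_add_cancel hp.out.pos,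
        hζ.toInteger_isPrimitiveRoot.pow_eq_one]
    calc z ^ (ℓ - 1) = z ^ (ℓ - 1) * (c z * z) := by rw [hc1, mul_one]
      _ = (z ^ (ℓ - 1) * z) * c z := by ring
      _ = c z := by rw [h4, one_mul]
  have hcc : c (c z) = z := by
    have h4 := congrArg c hc1
    rw [map_mul, map_one] at h4
    calc c (c z) = c (c z) * (c z * z) := by rw [hc1, mul_one]
      _ = (c (c z) * c z) * z := by ring
      _ = z := by rw [h4, one_mul]
  have heq : ∀ {x y : 𝓞 K}, π ^ 4 ∣ x - y → q x = q y := by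
    intro x y h
    rw [← sub_eq_zero, ← map_sub, hq0]
    exact h
  obtain ⟨a, y, hay, ha⟩ := alg_final (k := ZMod ℓ) h2 h3 cb (by
      intro x
      obtain ⟨n, rfl⟩ := ZMod.intCast_surjective x
      rw [hcast, hcb, map_intCast]) (p := q π) (by rw [← map_pow, hq0]) (by
      rw [← map_pow, Ne, hq0]
      intro h
      have h4 : π ∣ 1 := by
        have h5 : π ^ 3 * π ∣ π ^ 3 * 1 := by rwa [← pow_succ, mul_one]
        exact (mul_dvd_mul_iff_left (pow_ne_zero 3 hππ.ne_zero)).1 h5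
      exact hππ.not_isUnit (isUnit_of_dvd_one h4)) (by
      rw [hqz, hcb, ← map_mul, hc1, map_one]) (by
      intro x
      obtain ⟨x, rfl⟩ := Ideal.Quotient.mk_surjective x
      obtain ⟨n0, x1, h0⟩ := res_int hζ x
      obtain ⟨n1, x2, h1⟩ := res_int hζ x1
      obtain ⟨n2, x3, h2⟩ := res_int hζ x2
      obtain ⟨n3, x4, h3⟩ := res_int hζ x3
      refine ⟨n0, n1, n2, n3, ?_⟩
      unfold Q
      rw [hcast, hcast, hcast, hcast, ← map_pow, ← map_pow, ← map_mul, ← map_mul, ← map_mul,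
        ← map_add, ← map_add, ← map_add]
      apply heq
      refine ⟨x4, ?_⟩
      rw [← hz, ← hπ] at h0 h1 h2 h3
      linear_combination h0 + π * h1 + π ^ 2 * h2 + π ^ 3 * h3) (q ξ) r₁ r₂ r₃
      (by
        rw [hqz, hcb, hcb]
        have := heq hr₁
        simp only [map_mul, map_add, map_one, map_pow, pow_one] at this ⊢
        exact this) (by
        rw [hqz, hcb, hcb]
        have := heq hr₂
        simp only [map_mul, map_add, map_one, map_pow] at this ⊢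
        exact this) (by
        rw [hqz, hcb, hcb]
        have := heq hr₃
        rw [hzl] at this
        simp only [map_mul, map_add, map_one, map_pow, hcc] at this ⊢
        exact this)
  obtain ⟨n, rfl⟩ := ZMod.intCast_surjective a
  obtain ⟨y, rfl⟩ := Ideal.Quotient.mk_surjective y
  rw [hcast] at hay
  have h4 : π ∣ ξ - n := by
    have h5 : π ^ 4 ∣ ξ - (n + π * y) := by
      rw [← hq0, map_sub, hay, map_add, map_mul]
      ring
    have e : ξ - n = (ξ - (n + π * y)) + π * y := by ring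
    rw [e]
    exact dvd_add ((dvd_pow_self _ (by norm_num)).trans h5) (Dvd.intro _ rfl)
  have hz0 : ∀ m : ℤ, ((m : ℤ) : ZMod ℓ) = 0 → π ∣ (m : 𝓞 K) := by
    intro m hm
    rw [ZMod.intCast_zmod_eq_zero_iff_dvd] at hm
    exact (pi_dvd_int hζ).2 hm
  rcases ha with ha | ha | ha
  · exfalso
    apply hξ1
    have h5 := hz0 (n + 1) (by push_cast; exact ha)
    have e : ξ + 1 = (ξ - n) + ((n + 1 : ℤ) : 𝓞 K) := by
      push_cast
      ring
    rw [e]
    exact dvd_add h4 h5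
  · exfalso
    apply hξ
    have h5 := hz0 n ha
    have e : ξ = (ξ - n) + (n : 𝓞 K) := by ring
    rw [e]
    exact dvd_add h4 h5
  · have h5 := hz0 (n - 1) (by push_cast; rw [ha, sub_self])
    have e : ξ - 1 = (ξ - n) + ((n - 1 : ℤ) : 𝓞 K) := by
      push_cast
      ring
    rw [e]
    exact dvd_add h4 h5

end Pool.Agent.Y158.KL
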