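import Mathlib

/-!
# Computations modulo the fourth power of a parameter
-/

set_option autoImplicit false

namespace Pool.Agent.Y158.KL

variable {k R : Type*} [Field k] [CommRing R] [Algebra k R] {s : R}

/-- a polynomial of degree at most three in `s` -/
def Q (s : R) (a b c d : k) : R :=
  algebraMap k R a + algebraMap k R b * s + algebraMap k R c * s ^ 2 + algebraMap k R d * s ^ 3

lemma Q_mul (hs : s ^ 4 = 0) (a b c d a' b' c' d' : k) :
    Q s a b c d * Q s a' b' c' d' = Q s (a * a') (a * b' + b * a') (a * c' + b * b' + c * a')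
      (a * d' + b * c' + c * b' + d * a') := by
  simp only [Q, map_add, map_mul]
  linear_combination (algebraMap k R b * algebraMap k R d' + algebraMap k R c * algebraMap k R c' +
    algebraMap k R d * algebraMap k R b' + (algebraMap k R c * algebraMap k R d' +
    algebraMap k R d * algebraMap k R c') * s + algebraMap k R d * algebraMap k R d' * s ^ 2) * hs

lemma Q_add (a b c d a' b' c' d' : k) :
    Q s a b c d + Q s a' b' c' d' = Q s (a + a') (b + b') (c + c') (d + d') := by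
  simp only [Q, map_add]
  ring

lemma Q_sub_one (a b c d : k) : Q s a b c d - 1 = Q s (a - 1) b c d := by
  simp only [Q, map_sub, map_one]
  ring

lemma Q_zero (hs : s ^ 4 = 0) (hs3 : s ^ 3 ≠ 0) {a b c d : k} (h : Q s a b c d = 0) :
    a = 0 ∧ b = 0 ∧ c = 0 ∧ d = 0 := by
  have key : ∀ x : k, algebraMap k R x * s ^ 3 = 0 → x = 0 := by
    intro x hx
    by_contra hx0
    apply hs3
    have h1 : algebraMap k R x⁻¹ * (algebraMap k R x * s ^ 3) = 0 := by rw [hx, mul_zero]
    rwa [← mul_assoc, ← map_mul, inv_mul_cancel₀ hx0, map_one, one_mul] at h1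
  unfold Q at h
  have ha : a = 0 := key a (by linear_combination s ^ 3 * h - (algebraMap k R b +
    algebraMap k R c * s + algebraMap k R d * s ^ 2) * hs)
  subst ha
  rw [map_zero] at h
  have hb : b = 0 := key b (by linear_combination s ^ 2 * h - (
    algebraMap k R c + algebraMap k R d * s) * hs)
  subst hb
  rw [map_zero] at h
  have hc : c = 0 := key c (by linear_combination s * h - algebraMap k R d * hs)
  subst hc
  rw [map_zero] at h
  exact ⟨rfl, rfl, rfl, key d (by linear_combination h)⟩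

lemma Q_inj (hs : s ^ 4 = 0) (hs3 : s ^ 3 ≠ 0) {a b c d a' b' c' d' : k}
    (h : Q s a b c d = Q s a' b' c' d') : a = a' ∧ b = b' ∧ c = c' ∧ d = d' := by
  have h1 : Q s (a - a') (b - b') (c - c') (d - d') = 0 := by
    rw [← sub_eq_zero] at h
    rw [← h]
    simp only [Q, map_sub]
    ring
  obtain ⟨h1, h2, h3, h4⟩ := Q_zero hs hs3 h1
  exact ⟨sub_eq_zero.1 h1, sub_eq_zero.1 h2, sub_eq_zero.1 h3, sub_eq_zero.1 h4⟩

/-- the truncated exponential series -/
def Ex (s : R) (x : k) : R := Q s 1 x (x ^ 2 / 2) (x ^ 3 / 6)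

lemma Ex_mul (h2 : (2 : k) ≠ 0) (h3 : (3 : k) ≠ 0) (hs : s ^ 4 = 0) (x y : k) :
    Ex s x * Ex s y = Ex s (x + y) := by
  have h6 : (6 : k) ≠ 0 := by
    have : (6 : k) = 2 * 3 := by norm_num
    rw [this]
    exact mul_ne_zero h2 h3
  unfold Ex
  rw [Q_mul hs]
  congr 1
  · ring
  · ring
  · field_simp
    ring
  · field_simp
    ring

lemma Ex_zero : Ex s (0 : k) = 1 := by simp [Ex, Q]

lemma Ex_pow (h2 : (2 : k) ≠ 0) (h3 : (3 : k) ≠ 0) (hs : s ^ 4 = 0) (x : k) (n : ℕ) :
    Ex s x ^ n = Ex s (n * x) := by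
  induction n with
  | zero => rw [pow_zero, Nat.cast_zero, zero_mul, Ex_zero]
  | succ n ih =>
    rw [pow_succ, ih, Ex_mul h2 h3 hs]
    congr 1
    push_cast
    ring

/-- the third coefficient of the relation -/
theorem main_alg (h2 : (2 : k) ≠ 0) (h3 : (3 : k) ≠ 0) (hs : s ^ 4 = 0) (hs3 : s ^ 3 ≠ 0)
    {a b c d u r : k} (ha : a ≠ 0) (hu : u ≠ 0)
    (h : (Q s a b c d + (Ex s u - 1)) * Q s a (-b) c (-d) =
      Ex s r * (Q s a b c d * (Q s a (-b) c (-d) + (Ex s (-u) - 1)))) :
    (a - 1) * (a - 2) * u ^ 2 + 3 * b * (2 - a) * u + 6 * (b ^ 2 - a * c) = 0 := by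
  have h6 : (6 : k) ≠ 0 := by
    have : (6 : k) = 2 * 3 := by norm_num
    rw [this]
    exact mul_ne_zero h2 h3
  unfold Ex at h
  rw [Q_sub_one, Q_sub_one, Q_add, Q_add, Q_mul hs, Q_mul hs, Q_mul hs] at h
  obtain ⟨-, e1, -, e3⟩ := Q_inj hs hs3 h
  have hr : r * a = 2 * u := by
    have h4 : a * (r * a - 2 * u) = 0 := by linear_combination -e1
    exact sub_eq_zero.1 ((mul_eq_zero.1 h4).resolve_left ha)
  have hr' : r = 2 * u / a := by rw [eq_div_iff ha]; exact hr
  subst hr'
  field_simp at e3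
  have h5 : u * ((a - 1) * (a - 2) * u ^ 2 + 3 * b * (2 - a) * u + 6 * (b ^ 2 - a * c)) = 0 := by
    have h7 : (2 * 2 * a) * (u * ((a - 1) * (a - 2) * u ^ 2 + 3 * b * (2 - a) * u +
        6 * (b ^ 2 - a * c))) = 0 := by
      linear_combination e3
    exact (mul_eq_zero.1 h7).resolve_left (mul_ne_zero (mul_ne_zero h2 h2) ha)
  exact (mul_eq_zero.1 h5).resolve_left hu

end Pool.Agent.Y158.KL
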