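import Pool.Agent.Y158.KL.Case2d
import Pool.Agent.Y158.KL.Glob1

/-!
# The first case
-/

set_option autoImplicit false
set_option linter.unusedSectionVars false

namespace Pool.Agent.Y158.KL

open NumberField IsDedekindDomain WithZero Pool.Agent.TH954 Polynomial

variable {K L : Type} [Field K] [NumberField K] [Field L] [Algebra K L] {ℓ : ℕ}
  [hp : Fact ℓ.Prime] [hK : IsCyclotomicExtension {ℓ} ℚ K] {ζ : K} (hζ : IsPrimitiveRoot ζ ℓ)

lemma V_pow_add {x y : Kl hζ} (hx : V hζ x ≤ 1) (hy : V hζ y ≤ 1) {n : ℕ} (hn : Odd n) :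
    V hζ (x ^ n + y ^ n) ≤ V hζ (x + y) := by
  obtain ⟨t, ht⟩ := Odd.add_dvd_pow_add_pow (⟨x, hx⟩ : (V hζ).integer) ⟨y, hy⟩ hn
  have h1 := congrArg Subtype.val ht
  push_cast at h1
  have h2 : x ^ n + y ^ n = (x + y) * (t : Kl hζ) := h1
  rw [h2, map_mul]
  exact mul_le_of_le_one_right zero_le t.2

lemma exp_neg_lt_one {n : ℤ} (hn : 0 < n) : (exp (-n) : WithZero (Multiplicative ℤ)) < 1 := by
  rw [← exp_zero, exp_lt_exp]
  omega

theorem case1 (hℓ5 : 5 ≤ ℓ) (hcop : (classNumber K).Coprime ℓ)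
    (hkum : Kum ℓ K L) (pl : ∀ v : HeightOneSpectrum (𝓞 K), Plc K L (v.adicCompletion K))
    {x z : L} (hz : z ≠ 0) (h : x ^ ℓ + 1 = z ^ ℓ) {x' z' : Kl hζ}
    (hx' : (pl (lam hζ)).val x x') (hz' : (pl (lam hζ)).val z z') (hVx : V hζ x' = 1)
    (hVz : V hζ z' = 1) : V hζ (x' - 1) < 1 := by
  have hodd : Odd ℓ := hp.out.odd_of_ne_two (by omega)
  set P := pl (lam hζ) with hP
  have h' : x ^ ℓ + 1 = oo K L ((1 : (𝓞 K)ˣ) : 𝓞 K) * z ^ ℓ := by
    rw [Units.val_one, map_one, one_mul, h]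
  have hloc : x' ^ ℓ + 1 = z' ^ ℓ := by
    have h1 : P.val (x ^ ℓ + 1) (x' ^ ℓ + 1) := (hx'.pow ℓ).add Plc.val_one
    rw [h] at h1
    exact h1.unique (hz'.pow ℓ)
  have hVzk : ∀ k : ℕ, V hζ (zm hζ ^ k) = 1 := fun k => by rw [map_pow, V_zm, one_pow]
  have hVk : ∀ k : ℕ, V hζ (x' + zm hζ ^ k) = 1 := by
    intro k
    apply le_antisymm (Valuation.map_add_le _ hVx.le (hVzk k).le)
    have h1 := V_pow_add hζ hVx.le (hVzk k).le hodd
    rw [← pow_mul, mul_comm k ℓ, pow_mul, (zm_prim hζ).pow_eq_one, one_pow, hloc, map_pow, hVz,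
      one_pow] at h1
    exact h1
  have hne := ne_of_pow hodd (zl_prim hζ) (oo_ne (L := L) (Units.ne_zero 1)) hz h'
  have hvk : ∀ k : ℕ, P.val (x + zl hζ L ^ k) (x' + zm hζ ^ k) := fun k =>
    hx'.add ((val_zm hζ).pow k)
  have hnz : x' + zm hζ ^ 0 ≠ 0 := by
    intro h1
    have := hVk 0
    rw [h1, map_zero] at this
    exact zero_ne_one this
  obtain ⟨ξ, hξ⟩ := near_int (lam hζ) x' hVx.le 4
  change V hζ (x' - om hζ ξ) ≤ exp (-4) at hξ
  have h4 : (exp (-4) : WithZero (Multiplicative ℤ)) < 1 := exp_neg_lt_one (n := 4) (by norm_num)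
  have hVξ : V hζ (om hζ ξ) = 1 := by
    have e : om hζ ξ = x' - (x' - om hζ ξ) := by ring
    rw [e, Valuation.map_sub_eq_of_lt_left _ (by rw [hVx]; exact lt_of_le_of_lt hξ h4), hVx]
  have hVξ1 : V hζ (om hζ (ξ + 1)) = 1 := by
    have e : om hζ (ξ + 1) = (x' + zm hζ ^ 0) - (x' - om hζ ξ) := by
      rw [map_add, map_one, pow_zero]
      ring
    rw [e, Valuation.map_sub_eq_of_lt_left _ (by rw [hVk]; exact lt_of_le_of_lt hξ h4), hVk]
  have hnd : ∀ a : 𝓞 K, V hζ (om hζ a) = 1 → ¬ hζ.toInteger - 1 ∣ a := by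
    intro a ha h1
    rw [← pow_one (hζ.toInteger - 1), ← lam_dvd, ← V_om, ha] at h1
    exact absurd h1 (not_le.2 (exp_neg_lt_one (n := 1) (by norm_num)))
  have hmain := glob1 hζ hℓ5 (hnd _ hVξ) (hnd _ hVξ1) (by
    intro k
    obtain ⟨u₁, a₁, g₁, hg₁, hw₁⟩ := cls hζ hodd hcop hkum pl hz h' hne k 0
    have hv : P.val ((x + zl hζ L ^ k) / (x + zl hζ L ^ 0))
        ((x' + zm hζ ^ k) / (x' + zm hζ ^ 0)) := by
      rw [div_eq_mul_inv, div_eq_mul_inv]
      exact (hvk k).mul ((hvk _).inv hnz)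
    obtain ⟨ρ, ρ', hρ0, hρ, hρv, hVρ⟩ := absorb hζ hg₁ hw₁ hv 0 (by
      rw [map_div₀, hVk, hVk, div_self one_ne_zero]
      simp)
    have hVρ1 : V hζ ρ' = 1 := by
      rw [hVρ]
      simp
    obtain ⟨n, hn⟩ := pow_near hζ (w := ρ') hVρ1.le
    refine ⟨u₁, n, ?_⟩
    rw [← lam_dvd, ← V_om]
    have hid : (x' + zm hζ ^ k) = om hζ u₁ * ρ' ^ ℓ * (x' + 1) := by
      have h5 : P.val ((x + zl hζ L ^ k) / (x + zl hζ L ^ 0)) (om hζ u₁ * ρ' ^ ℓ) := by
        rw [hρ]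
        exact (val_om hζ _).mul (hρv.pow ℓ)
      have h6 := hv.unique h5
      rw [div_eq_iff hnz, pow_zero] at h6
      exact h6
    have hn4 : V hζ (ρ' ^ ℓ - n) ≤ exp (-4) := by
      refine hn.trans ?_
      rw [exp_le_exp]
      omega
    have e : om hζ ((ξ + hζ.toInteger ^ k) - u₁ * n * (ξ + 1)) =
        om hζ u₁ * (ρ' ^ ℓ - n) * (x' + 1) + (om hζ u₁ * n) * (x' - om hζ ξ) -
          (x' - om hζ ξ) := by
      have hz1 : om hζ hζ.toInteger = zm hζ := rfl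
      rw [map_sub, map_add, map_mul, map_mul, map_add, map_intCast, map_one, map_pow, hz1]
      linear_combination hid
    rw [e]
    refine Valuation.map_sub_le _ (Valuation.map_add_le _ ?_ ?_) hξ
    · rw [map_mul, map_mul, V_unit, one_mul]
      refine le_trans (mul_le_of_le_one_right zero_le ?_) hn4
      have := hVk 0
      rw [pow_zero] at this
      exact this.le
    · rw [map_mul, map_mul, V_unit, one_mul]
      refine le_trans (mul_le_of_le_one_left zero_le (V_intCast hζ n)) hξ)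
  rw [← pow_one (hζ.toInteger - 1), ← lam_dvd, ← V_om, map_sub, map_one] at hmain
  have e : x' - 1 = (x' - om hζ ξ) + (om hζ ξ - 1) := by ring
  rw [e]
  exact Valuation.map_add_lt _ (lt_of_le_of_lt hξ h4)
    (lt_of_le_of_lt hmain (exp_neg_lt_one (n := 1) (by norm_num)))

end Pool.Agent.Y158.KL
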