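import Pool.Agent.Y158.KL.Core

/-!
# The second case: infinite descent at the prime above `ℓ`
-/

set_option autoImplicit false
set_option linter.unusedSectionVars false

namespace Pool.Agent.Y158.KL

open NumberField IsDedekindDomain WithZero Pool.Agent.TH954 Polynomial

lemma ne_of_pow {L : Type} [Field L] {ℓ : ℕ} (hodd : Odd ℓ) {ζ : L} (hζ : IsPrimitiveRoot ζ ℓ)
    {x z ε : L} (hε : ε ≠ 0) (hz : z ≠ 0) (h : x ^ ℓ + 1 = ε * z ^ ℓ) (k : ℕ) :
    x + ζ ^ k ≠ 0 := by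
  intro hk
  have h1 : x = -ζ ^ k := eq_neg_of_add_eq_zero_left hk
  have h2 : ε * z ^ ℓ = 0 := by
    rw [← h, h1, Odd.neg_pow hodd, ← pow_mul, mul_comm, pow_mul, hζ.pow_eq_one, one_pow]
    ring
  exact mul_ne_zero hε (pow_ne_zero _ hz) h2

variable {K L : Type} [Field K] [NumberField K] [Field L] [Algebra K L] {ℓ : ℕ}
  [hp : Fact ℓ.Prime] [hK : IsCyclotomicExtension {ℓ} ℚ K] {ζ : K} (hζ : IsPrimitiveRoot ζ ℓ)

/-- the integers of `K` in the completion -/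
noncomputable def om : 𝓞 K →+* Kl hζ := (cm hζ).comp (algebraMap (𝓞 K) K)

lemma V_om (a : 𝓞 K) : V hζ (om hζ a) = (lam hζ).intValuation a := V_int hζ a

lemma om_inj : Function.Injective (om hζ) := by
  intro a b h
  exact FaithfulSMul.algebraMap_injective (𝓞 K) K ((cm hζ).injective h)

lemma om_ne {a : 𝓞 K} (h : a ≠ 0) : om hζ a ≠ 0 := (map_ne_zero_iff _ (om_inj hζ)).2 h

lemma val_om {P : Plc K L (Kl hζ)} (a : 𝓞 K) : P.val (oo K L a) (om hζ a) := Plc.val_alg _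

lemma V_unit (u : (𝓞 K)ˣ) : V hζ (om hζ u) = 1 := by rw [V_om, val_unit]

lemma V_pi : V hζ (om hζ (hζ.toInteger - 1)) = exp (-1) := by rw [V_om, lam_pi]

/-- the `ℓ`-th power of an element with an `ℓ`-th power as value -/
theorem absorb {P : Plc K L (Kl hζ)} {w g : L} {u : (𝓞 K)ˣ} {a : ℤ} (hg : g ≠ 0)
    (hw : w = oo K L u * oo K L (hζ.toInteger - 1) ^ a * g ^ ℓ) {c : Kl hζ} (hc : P.val w c)
    (b : ℤ) (hV : V hζ c = exp (-(ℓ * b))) :
    ∃ (α : L) (α' : Kl hζ), α ≠ 0 ∧ w = oo K L u * α ^ ℓ ∧ P.val α α' ∧ V hζ α' = exp (-b) := by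
  have hℓ := hp.out.pos
  set π : K := algebraMap (𝓞 K) K (hζ.toInteger - 1) with hπ
  have hπ0 : π ≠ 0 := (map_ne_zero_iff _ (FaithfulSMul.algebraMap_injective (𝓞 K) K)).2
    (pi_ne_zero hζ)
  have hVπ : V hζ (cm hζ π) = exp (-1) := by
    rw [hπ, V_int, lam_pi]
  set U : K := algebraMap (𝓞 K) K u with hU
  have hU0 : U ≠ 0 := (map_ne_zero_iff _ (FaithfulSMul.algebraMap_injective (𝓞 K) K)).2
    u.ne_zero
  have hVU : V hζ (cm hζ U) = 1 := by rw [hU, V_int, val_unit]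
  have hoπ : oo K L (hζ.toInteger - 1) = algebraMap K L π := rfl
  have hou : oo K L u = algebraMap K L U := rfl
  have hπL : algebraMap K L π ≠ 0 := (_root_.map_ne_zero _).2 hπ0
  have hUL : algebraMap K L U ≠ 0 := (_root_.map_ne_zero _).2 hU0
  have e1 : g ^ ℓ = w * algebraMap K L ((U * π ^ a)⁻¹) := by
    rw [hw, hoπ, hou, map_inv₀, map_mul, map_zpow₀]
    field_simp
  have h1 : P.val (g ^ ℓ) (c * cm hζ ((U * π ^ a)⁻¹)) := by
    rw [e1]
    exact hc.mul (Plc.val_alg _)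
  obtain ⟨γ, hγ⟩ := Plc.val_of_mem (Plc.mem_of_pow_mem hℓ h1.mem)
  have h2 := (hγ.pow ℓ).unique h1
  have h3 : V hζ γ ^ ℓ = exp (-(ℓ * b)) * exp a := by
    rw [← map_pow, h2, map_mul, hV, map_inv₀ (cm hζ), map_mul (cm hζ), map_zpow₀ (cm hζ),
      map_inv₀ (V hζ), map_mul (V hζ), hVU, map_zpow₀ (V hζ), hVπ, one_mul, ← exp_zsmul,
      ← exp_neg]
    congr 2
    simp
  have hγ0 : V hζ γ ≠ 0 := by
    intro h
    rw [h, zero_pow hℓ.ne', ← exp_add] at h3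
    exact exp_ne_zero h3.symm
  obtain ⟨m, hm⟩ := exists_exp hγ0
  rw [hm, exp_pow, ← exp_add, exp_inj] at h3
  have ha : a = ℓ * (m + b) := by linarith
  refine ⟨algebraMap K L (π ^ (m + b)) * g, cm hζ (π ^ (m + b)) * γ,
    mul_ne_zero ((_root_.map_ne_zero _).2 (zpow_ne_zero _ hπ0)) hg, ?_, ?_, ?_⟩
  · rw [hw, hoπ, mul_pow, map_zpow₀, ← zpow_natCast, ← zpow_natCast, ← zpow_mul, ha,
      mul_comm (m + b) (ℓ : ℤ)]
    ring
  · exact (Plc.val_alg _).mul hγ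
  · rw [map_mul, map_zpow₀ (cm hζ), map_zpow₀ (V hζ), hVπ, hm, ← exp_zsmul, ← exp_add]
    congr 1
    simp

/-- the root of unity in the completion -/
noncomputable def zm : Kl hζ := om hζ hζ.toInteger

lemma zm_prim : IsPrimitiveRoot (zm hζ) ℓ :=
  hζ.toInteger_isPrimitiveRoot.map_of_injective (om_inj hζ)

lemma val_zm {P : Plc K L (Kl hζ)} : P.val (zl hζ L) (zm hζ) := val_om hζ _

lemma V_zm : V hζ (zm hζ) = 1 := by
  have h1 : V hζ (zm hζ) ^ ℓ = 1 := by rw [← map_pow, (zm_prim hζ).pow_eq_one, map_one]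
  exact (pow_eq_one_iff_of_nonneg zero_le hp.out.pos.ne').1 h1

lemma V_diff {i j : ℕ} (h : zm hζ ^ i ≠ zm hζ ^ j) : V hζ (zm hζ ^ i - zm hζ ^ j) = exp (-1) := by
  have h1 : hζ.toInteger ^ i ≠ hζ.toInteger ^ j := by
    intro h2
    apply h
    unfold zm
    rw [← map_pow, h2, map_pow]
  have h3 := diff_assoc hζ h1
  have h4 : zm hζ ^ i - zm hζ ^ j = om hζ (hζ.toInteger ^ i - hζ.toInteger ^ j) := by
    unfold zm
    rw [map_sub, map_pow, map_pow]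
  rw [h4, V_om, ← lam_assoc h3, lam_pi]

/-- the value of `x + 1` if it is small -/
lemma V_one {x z ε : Kl hζ} (hodd : Odd ℓ) (hε : V hζ ε = 1) (h : x ^ ℓ + 1 = ε * z ^ ℓ)
    {m : ℤ} (hz : V hζ z = exp (-m)) (hx : V hζ (x + 1) ≤ exp (-2)) :
    V hζ (x + 1) = exp (-(ℓ * m - (ℓ - 1))) ∧
      ∀ k : ℕ, zm hζ ^ k ≠ 1 → V hζ (x + zm hζ ^ k) = exp (-1) := by
  classical
  have hℓ := hp.out.pos
  have hne : NeZero ℓ := ⟨hℓ.ne'⟩
  have h2 : ∀ k : ℕ, zm hζ ^ k ≠ 1 → V hζ (x + zm hζ ^ k) = exp (-1) := by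
    intro k hk
    have h3 : V hζ (zm hζ ^ k - 1) = exp (-1) := by
      have := V_diff hζ (i := k) (j := 0) (by rwa [pow_zero])
      rwa [pow_zero] at this
    have e1 : x + zm hζ ^ k = (x + 1) + (zm hζ ^ k - 1) := by ring
    rw [e1, Valuation.map_add_eq_of_lt_right _ (by
      rw [h3]
      refine lt_of_le_of_lt hx ?_
      rw [exp_lt_exp]
      norm_num), h3]
  refine ⟨?_, h2⟩
  have hprod := (zm_prim hζ).pow_add_pow_eq_prod_add_mul x 1 hodd
  simp only [one_pow, mul_one] at hprod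
  have hmem : (1 : Kl hζ) ∈ nthRootsFinset ℓ (1 : Kl hζ) := by
    rw [mem_nthRootsFinset hℓ, one_pow]
  rw [h, ← Finset.mul_prod_erase _ _ hmem] at hprod
  have hrest : V hζ (∏ η ∈ (nthRootsFinset ℓ (1 : Kl hζ)).erase 1, (x + η)) =
      exp (-(((ℓ - 1 : ℕ) : ℤ))) := by
    rw [map_prod, Finset.prod_congr rfl (g := fun _ => exp (-1 : ℤ)), Finset.prod_const,
      Finset.card_erase_of_mem hmem, (zm_prim hζ).card_nthRootsFinset, exp_pow]
    · congr 1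
      ring
    · intro η hη
      rw [Finset.mem_erase, mem_nthRootsFinset hℓ] at hη
      obtain ⟨k, -, rfl⟩ := (zm_prim hζ).eq_pow_of_pow_eq_one hη.2
      exact h2 k hη.1
  have h3 := congrArg (V hζ) hprod
  rw [map_mul, map_mul, hε, one_mul, map_pow, hz, hrest, exp_pow] at h3
  have h4 : V hζ (x + 1) ≠ 0 := by
    intro h5
    rw [h5, zero_mul] at h3
    exact exp_ne_zero h3
  obtain ⟨a, ha⟩ := exists_exp h4
  rw [ha, ← exp_add, exp_inj] at h3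
  rw [ha]
  congr 1
  have h5 : ((ℓ - 1 : ℕ) : ℤ) = ℓ - 1 := by
    have := hp.out.pos
    omega
  rw [h5] at h3
  linarith

end Pool.Agent.Y158.KL
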