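import Pool.Agent.Y158.KL.Case2

/-!
# The second case: infinite descent at the prime above `ℓ` (2)
-/

set_option autoImplicit false
set_option linter.unusedSectionVars false

namespace Pool.Agent.Y158.KL

open NumberField IsDedekindDomain WithZero Pool.Agent.TH954 Polynomial

variable {K L : Type} [Field K] [NumberField K] [Field L] [Algebra K L] {ℓ : ℕ}
  [hp : Fact ℓ.Prime] [hK : IsCyclotomicExtension {ℓ} ℚ K] {ζ : K} (hζ : IsPrimitiveRoot ζ ℓ)

lemma V_dvd {n : ℤ} (h : (ℓ : ℤ) ∣ n) : V hζ (n : Kl hζ) ≤ exp (-((ℓ - 1 : ℕ) : ℤ)) := by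
  obtain ⟨t, rfl⟩ := h
  push_cast
  rw [map_mul, V_ell]
  exact mul_le_of_le_one_right zero_le (V_intCast hζ t)

lemma near_root (hodd : Odd ℓ) {x z ε : Kl hζ} (hε : V hζ ε = 1) (h : x ^ ℓ + 1 = ε * z ^ ℓ)
    {m : ℤ} (hm : 1 ≤ m) (hz : V hζ z = exp (-m)) :
    V hζ x ≤ 1 ∧ ∃ k : ℕ, V hζ (x + zm hζ ^ k) ≤ exp (-2) := by
  have hℓ := hp.out.pos
  have hℓ2 : 2 ≤ ℓ := hp.out.two_le
  have hbig : exp (-((ℓ - 1 : ℕ) : ℤ)) ≤ (exp (-1) : WithZero (Multiplicative ℤ)) := by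
    rw [exp_le_exp]
    omega
  have h1 : V hζ (x ^ ℓ + 1) = exp (-(ℓ * m)) := by
    rw [h, map_mul, hε, one_mul, map_pow, hz, exp_pow]
    congr 1
    ring
  have h1' : V hζ (x ^ ℓ + 1) ≤ exp (-1) := by
    rw [h1, exp_le_exp]
    nlinarith
  have hlt1 : (exp (-1) : WithZero (Multiplicative ℤ)) ≤ 1 := by
    rw [← exp_zero, exp_le_exp]
    norm_num
  have hx : V hζ x ≤ 1 := by
    have h2 : V hζ (x ^ ℓ) ≤ 1 := by
      have e : x ^ ℓ = (x ^ ℓ + 1) - 1 := by ring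
      rw [e]
      exact Valuation.map_sub_le _ (h1'.trans hlt1) (by rw [map_one])
    rw [map_pow] at h2
    exact (pow_le_one_iff_of_nonneg zero_le hℓ.ne').1 h2
  refine ⟨hx, ?_⟩
  obtain ⟨r, hr1, hr⟩ := add_pow_near hζ hx (y := 1) (by rw [map_one])
  have h2 : V hζ (x + 1) ≤ exp (-1) := by
    rw [← lt_one_iff]
    have h3 : V hζ ((x + 1) ^ ℓ) < 1 := by
      rw [hr, one_pow]
      refine lt_of_le_of_lt (b := exp (-1)) (Valuation.map_add_le _ h1' ?_) ?_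
      · rw [map_mul, map_mul, map_mul, V_ell, map_one, mul_one]
        refine le_trans (mul_le_of_le_one_right zero_le hr1) ?_
        exact le_trans (mul_le_of_le_one_right zero_le hx) hbig
      · rw [← exp_zero, exp_lt_exp]
        norm_num
    rw [map_pow] at h3
    by_contra hcon
    exact absurd h3 (not_lt.2 (one_le_pow₀ (not_lt.1 hcon)))
  set π := om hζ (hζ.toInteger - 1) with hπ
  have hπ0 : π ≠ 0 := om_ne hζ (pi_ne_zero hζ)
  have hVπ : V hζ π = exp (-1) := V_pi hζ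
  have hy : V hζ ((x + 1) / π) ≤ 1 := by
    rw [map_div₀, hVπ]
    exact (div_le_one₀ (zero_lt_iff.2 exp_ne_zero)).2 h2
  obtain ⟨n, hn⟩ := near_rat hζ hy
  obtain ⟨k, hk⟩ : ∃ k : ℕ, (ℓ : ℤ) ∣ n + k := by
    refine ⟨((-n) % ℓ).toNat, ?_⟩
    have h3 : 0 ≤ (-n) % (ℓ : ℤ) := Int.emod_nonneg _ (by exact_mod_cast hℓ.ne')
    rw [Int.toNat_of_nonneg h3]
    have h4 := Int.emod_add_mul_ediv (-n) ℓ
    refine ⟨-((-n) / ℓ), ?_⟩
    linarith
  refine ⟨k, ?_⟩
  have hgeom := geom_sum_mul (zm hζ) k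
  have hzm : zm hζ - 1 = π := by
    rw [hπ, map_sub, map_one]
    rfl
  have hS : V hζ ((∑ i ∈ Finset.range k, zm hζ ^ i) - k) ≤ exp (-1) := by
    have e : (∑ i ∈ Finset.range k, zm hζ ^ i) - k =
        ∑ i ∈ Finset.range k, (zm hζ ^ i - 1) := by
      rw [Finset.sum_sub_distrib, Finset.sum_const, Finset.card_range, nsmul_eq_mul, mul_one]
    rw [e]
    refine Valuation.map_sum_le _ fun i _ => ?_
    by_cases h5 : zm hζ ^ i = 1
    · rw [h5, sub_self, map_zero]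
      exact zero_le
    · have := V_diff hζ (i := i) (j := 0) (by rwa [pow_zero])
      rw [pow_zero] at this
      exact this.le
  have e2 : x + zm hζ ^ k = π * ((((x + 1) / π) - n) + ((n + k : ℤ) : Kl hζ) +
      ((∑ i ∈ Finset.range k, zm hζ ^ i) - k)) := by
    rw [hzm] at hgeom
    have e3 : π * ((x + 1) / π) = x + 1 := mul_div_cancel₀ _ hπ0
    push_cast
    linear_combination (-1 : Kl hζ) * hgeom - e3
  rw [e2, map_mul, hVπ]
  have h6 : V hζ ((((x + 1) / π) - n) + ((n + k : ℤ) : Kl hζ) +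
      ((∑ i ∈ Finset.range k, zm hζ ^ i) - k)) ≤ exp (-1) :=
    Valuation.map_add_le _ (Valuation.map_add_le _ hn ((V_dvd hζ hk).trans hbig)) hS
  have e3 : (exp (-2) : WithZero (Multiplicative ℤ)) = exp (-1) * exp (-1) := by
    rw [← exp_add]
    norm_num
  rw [e3]
  exact mul_le_mul' le_rfl h6

end Pool.Agent.Y158.KL
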