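import Pool.Agent.Y158.KL.Case2c

/-!
# The second case: infinite descent at the prime above `ℓ` (4)
-/

set_option autoImplicit false
set_option linter.unusedSectionVars false

namespace Pool.Agent.Y158.KL

open NumberField IsDedekindDomain WithZero Pool.Agent.TH954 Polynomial

variable {K L : Type} [Field K] [NumberField K] [Field L] [Algebra K L] {ℓ : ℕ}
  [hp : Fact ℓ.Prime] [hK : IsCyclotomicExtension {ℓ} ℚ K] {ζ : K} (hζ : IsPrimitiveRoot ζ ℓ)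

theorem red_step (hodd : Odd ℓ) (hcop : (classNumber K).Coprime ℓ) (hKL : KLem ℓ K)
    (hkum : Kum ℓ K L) (pl : ∀ v : HeightOneSpectrum (𝓞 K), Plc K L (v.adicCompletion K))
    {x z : L} {ε : (𝓞 K)ˣ} (hz : z ≠ 0) (h : x ^ ℓ + 1 = oo K L ε * z ^ ℓ)
    {x' z' : Kl hζ} (hx' : (pl (lam hζ)).val x x') (hz' : (pl (lam hζ)).val z z')
    {m : ℤ} (hm : 1 ≤ m) (hVz : V hζ z' = exp (-m)) :
    2 ≤ m ∧ ∃ (X Z : L) (ε₁ : (𝓞 K)ˣ) (X' Z' : Kl hζ), Z ≠ 0 ∧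
      X ^ ℓ + 1 = oo K L ε₁ * Z ^ ℓ ∧ (pl (lam hζ)).val X X' ∧ (pl (lam hζ)).val Z Z' ∧
      V hζ Z' = exp (-(m - 1)) := by
  set P := pl (lam hζ) with hP
  have hloc : x' ^ ℓ + 1 = om hζ ε * z' ^ ℓ := by
    have h1 : P.val (x ^ ℓ + 1) (x' ^ ℓ + 1) := (hx'.pow ℓ).add Plc.val_one
    rw [h] at h1
    exact h1.unique ((val_om hζ _).mul (hz'.pow ℓ))
  obtain ⟨-, k, hk⟩ := near_root hζ hodd (V_unit hζ ε) hloc hm hVz
  have hzm0 : zm hζ ^ k ≠ 0 := pow_ne_zero _ ((zm_prim hζ).ne_zero hp.out.ne_zero)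
  have hVzk : V hζ (zm hζ ^ k) = 1 := by rw [map_pow, V_zm, one_pow]
  refine step hζ hodd hcop hKL hkum pl (ε := ε) (x := x / zl hζ L ^ k) (x' := x' / zm hζ ^ k) hz ?_ ?_ hz'
    hm hVz ?_
  · rw [div_pow, ← pow_mul, mul_comm k ℓ, pow_mul, (zl_prim hζ).pow_eq_one, one_pow, div_one, h]
  · rw [div_eq_mul_inv, div_eq_mul_inv]
    exact hx'.mul (((val_zm hζ).pow k).inv hzm0)
  · have e : x' / zm hζ ^ k + 1 = (x' + zm hζ ^ k) / zm hζ ^ k := by
      field_simp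
    rw [e, map_div₀, hVzk, div_one]
    exact hk

/-- There are no points in the second case with a nonzero value of `z`. -/
theorem case2 (hodd : Odd ℓ) (hcop : (classNumber K).Coprime ℓ) (hKL : KLem ℓ K)
    (hkum : Kum ℓ K L) (pl : ∀ v : HeightOneSpectrum (𝓞 K), Plc K L (v.adicCompletion K))
    (m : ℕ) (hm : 1 ≤ m) :
    ∀ {x z : L} {ε : (𝓞 K)ˣ}, z ≠ 0 → x ^ ℓ + 1 = oo K L ε * z ^ ℓ →
    ∀ {x' z' : Kl hζ}, (pl (lam hζ)).val x x' → (pl (lam hζ)).val z z' →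
      V hζ z' = exp (-(m : ℤ)) → False := by
  induction m, hm using Nat.le_induction with
  | base =>
    intro x z ε hz h x' z' hx' hz' hV
    obtain ⟨h1, -⟩ := red_step hζ hodd hcop hKL hkum pl hz h hx' hz' (m := 1) le_rfl
      (by simpa using hV)
    omega
  | succ m hm ih =>
    intro x z ε hz h x' z' hx' hz' hV
    obtain ⟨-, X, Z, ε₁, X', Z', h1, h2, h3, h4, h5⟩ :=
      red_step hζ hodd hcop hKL hkum pl hz h hx' hz' (m := ((m + 1 : ℕ) : ℤ)) (by omega) hV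
    refine ih h1 h2 h3 h4 ?_
    rw [h5]
    congr 1
    push_cast
    ring

end Pool.Agent.Y158.KL
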