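import Mathlib

/-!
# Numbers all of whose valuations are divisible by `ℓ`, when `ℓ` does not divide the class number
-/

set_option autoImplicit false

namespace Pool.Agent.Y158.KL

open NumberField IsDedekindDomain WithZero

variable {K : Type*} [Field K] [NumberField K]

lemma exp_pow (m : ℤ) (n : ℕ) : (exp m : WithZero (Multiplicative ℤ)) ^ n = exp ((n : ℤ) * m) := by
  rw [← exp_nsmul, nsmul_eq_mul]

lemma exists_exp {t : WithZero (Multiplicative ℤ)} (ht : t ≠ 0) : ∃ m : ℤ, t = exp m :=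
  ⟨log t, (exp_log ht).symm⟩

theorem int_case {ℓ : ℕ} (hℓ : 0 < ℓ) (hcop : (classNumber K).Coprime ℓ) (c : 𝓞 K) (hc : c ≠ 0)
    (h : ∀ v : HeightOneSpectrum (𝓞 K), ∃ t : WithZero (Multiplicative ℤ),
      v.intValuation c = t ^ ℓ) : ∃ (u : (𝓞 K)ˣ) (k : 𝓞 K), k ≠ 0 ∧ c = u * k ^ ℓ := by
  classical
  have hspan : Ideal.span {c} ≠ 0 := by
    rw [Ne, Ideal.zero_eq_bot, Ideal.span_singleton_eq_bot]
    exact hc
  have hmk : Associates.mk (Ideal.span {c} : Ideal (𝓞 K)) ≠ 0 := Associates.mk_ne_zero.2 hspan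
  have hcount : ∀ p : Associates (Ideal (𝓞 K)), Irreducible p →
      ℓ ∣ p.count (Associates.mk (Ideal.span {c} : Ideal (𝓞 K))).factors := by
    intro p hp
    obtain ⟨P, rfl⟩ := Associates.mk_surjective p
    have hP : Prime P := (Associates.irreducible_mk.1 hp).prime
    have hPp : P.IsPrime := Ideal.isPrime_of_prime hP
    let v : HeightOneSpectrum (𝓞 K) := ⟨P, hPp, hP.ne_zero⟩
    obtain ⟨t, ht⟩ := h v
    rw [v.intValuation_if_neg hc] at ht
    have ht0 : t ≠ 0 := by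
      rintro rfl
      rw [zero_pow hℓ.ne'] at ht
      exact exp_ne_zero ht
    obtain ⟨m, rfl⟩ := exists_exp ht0
    rw [exp_pow, exp_inj] at ht
    have h1 : (ℓ : ℤ) ∣ ((Associates.mk P).count
        (Associates.mk (Ideal.span {c} : Ideal (𝓞 K))).factors : ℤ) := by
      refine ⟨-m, ?_⟩
      have : (v.asIdeal) = P := rfl
      rw [this] at ht
      linarith
    exact_mod_cast h1
  obtain ⟨b, hb⟩ := Associates.is_pow_of_dvd_count hmk hcount
  obtain ⟨I, rfl⟩ := Associates.mk_surjective b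
  rw [← Associates.mk_pow, Associates.mk_eq_mk_iff_associated, associated_iff_eq] at hb
  have hI0 : I ≠ 0 := by
    rintro rfl
    rw [zero_pow hℓ.ne'] at hb
    exact hspan hb
  have hI' : I ∈ nonZeroDivisors (Ideal (𝓞 K)) := mem_nonZeroDivisors_iff_ne_zero.2 hI0
  have hcl : ClassGroup.mk0 ⟨I, hI'⟩ = 1 := by
    have h1 : ClassGroup.mk0 (⟨I, hI'⟩ : nonZeroDivisors (Ideal (𝓞 K))) ^ ℓ = 1 := by
      rw [← map_pow, ClassGroup.mk0_eq_one_iff]
      · change (I ^ ℓ).IsPrincipal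
        rw [← hb]
        exact ⟨c, rfl⟩
    have h2 : orderOf (ClassGroup.mk0 (⟨I, hI'⟩ : nonZeroDivisors (Ideal (𝓞 K)))) ∣ ℓ :=
      orderOf_dvd_of_pow_eq_one h1
    have h3 : orderOf (ClassGroup.mk0 (⟨I, hI'⟩ : nonZeroDivisors (Ideal (𝓞 K)))) ∣
        classNumber K := orderOf_dvd_card
    have h4 := Nat.dvd_gcd h3 h2
    rw [hcop] at h4
    exact orderOf_eq_one_iff.1 (Nat.dvd_one.1 h4)
  rw [ClassGroup.mk0_eq_one_iff] at hcl
  obtain ⟨k, hk⟩ := hcl
  change I = Ideal.span {k} at hk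
  rw [hk, Ideal.span_singleton_pow, Ideal.span_singleton_eq_span_singleton] at hb
  obtain ⟨u, hu⟩ := hb.symm
  refine ⟨u, k, ?_, ?_⟩
  · rintro rfl
    apply hI0
    rw [hk, Ideal.zero_eq_bot, Ideal.span_singleton_eq_bot]
  · rw [← hu, mul_comm]

/-- A number all of whose valuations are divisible by `ℓ` is the product of a unit and an `ℓ`-th
power. -/
theorem exists_unit_mul_pow {ℓ : ℕ} (hℓ : 0 < ℓ) (hcop : (classNumber K).Coprime ℓ) (c : K)
    (hc : c ≠ 0) (h : ∀ v : HeightOneSpectrum (𝓞 K), ∃ t : WithZero (Multiplicative ℤ),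
      v.valuation K c = t ^ ℓ) :
    ∃ (u : (𝓞 K)ˣ) (k : K), k ≠ 0 ∧ c = algebraMap (𝓞 K) K u * k ^ ℓ := by
  obtain ⟨a, b, hb, rfl⟩ := IsFractionRing.div_surjective (A := 𝓞 K) c
  have hb0 : b ≠ 0 := nonZeroDivisors.ne_zero hb
  have hbK : algebraMap (𝓞 K) K b ≠ 0 :=
    (map_ne_zero_iff _ (FaithfulSMul.algebraMap_injective (𝓞 K) K)).2 hb0
  have ha0 : a ≠ 0 := by
    rintro rfl
    rw [map_zero, zero_div] at hc
    exact hc rfl
  obtain ⟨u, k, hk, hu⟩ := int_case hℓ hcop (a * b ^ (ℓ - 1))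
    (mul_ne_zero ha0 (pow_ne_zero _ hb0)) (by
      intro v
      obtain ⟨t, ht⟩ := h v
      refine ⟨t * v.intValuation b, ?_⟩
      rw [map_div₀, v.valuation_of_algebraMap, v.valuation_of_algebraMap] at ht
      have hvb : v.intValuation b ≠ 0 := v.intValuation_ne_zero b hb0
      rw [map_mul, map_pow, mul_pow, ← ht]
      obtain ⟨m, rfl⟩ : ∃ m, ℓ = m + 1 := ⟨ℓ - 1, by omega⟩
      rw [Nat.add_sub_cancel, pow_succ, div_mul_eq_mul_div, eq_div_iff hvb, mul_assoc])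
  refine ⟨u, algebraMap (𝓞 K) K k / algebraMap (𝓞 K) K b, div_ne_zero
    ((map_ne_zero_iff _ (FaithfulSMul.algebraMap_injective (𝓞 K) K)).2 hk) hbK, ?_⟩
  rw [div_pow, mul_div_assoc', ← map_pow, ← map_mul, ← hu, map_mul, map_pow]
  obtain ⟨m, rfl⟩ : ∃ m, ℓ = m + 1 := ⟨ℓ - 1, by omega⟩
  rw [Nat.add_sub_cancel]
  field_simp
  ring

end Pool.Agent.Y158.KL
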