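import Mathlib

/-!
# Approximation in the completions of a number field
-/

set_option autoImplicit false

namespace Pool.Agent.Y158.KL

open NumberField IsDedekindDomain WithZero

variable {K : Type*} [Field K] [NumberField K] (v : HeightOneSpectrum (𝓞 K))

/-- the valuation on the completion -/
noncomputable abbrev Vv : Valuation (v.adicCompletion K) (WithZero (Multiplicative ℤ)) := Valued.v

lemma Vv_coe (k : K) : Vv v (algebraMap K (v.adicCompletion K) k) = v.valuation K k :=
  HeightOneSpectrum.valuedAdicCompletion_eq_valuation' v k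

lemma Vv_int (a : 𝓞 K) :
    Vv v (algebraMap K (v.adicCompletion K) (algebraMap (𝓞 K) K a)) = v.intValuation a := by
  rw [Vv_coe, v.valuation_of_algebraMap]

lemma near_K (w : v.adicCompletion K) (γ : (WithZero (Multiplicative ℤ))ˣ) :
    ∃ k : K, Vv v (w - algebraMap K (v.adicCompletion K) k) < γ := by
  obtain ⟨g, hg⟩ := v.valuation_surjective K (γ : WithZero (Multiplicative ℤ))
  rw [← Vv_coe] at hg
  have h0 : IsOpen {z : v.adicCompletion K | Valued.v.restrict (z - w) <
      Valued.v.restrict (algebraMap K (v.adicCompletion K) g)} :=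
    (Valued.isOpen_ball (v.adicCompletion K) _).preimage (continuous_id.sub continuous_const)
  have h1 : {z : v.adicCompletion K | Vv v (z - w) < γ} ∈ nhds w := by
    have e : {z : v.adicCompletion K | Vv v (z - w) < γ} =
        {z : v.adicCompletion K | Valued.v.restrict (z - w) <
          Valued.v.restrict (algebraMap K (v.adicCompletion K) g)} := by
      ext z
      rw [Set.mem_ofPred_eq, Set.mem_ofPred_eq, Valuation.restrict_lt_iff, hg]
    rw [e]
    refine h0.mem_nhds ?_
    rw [← e, Set.mem_ofPred_eq, sub_self, map_zero]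
    exact zero_lt_iff.2 γ.ne_zero
  obtain ⟨_, ⟨k, rfl⟩, hz⟩ :=
    (HeightOneSpectrum.denseRange_algebraMap (K := K) v).inter_nhds_nonempty h1
  refine ⟨k, ?_⟩
  rw [Valuation.map_sub_swap]
  exact hz

lemma near_int (w : v.adicCompletion K) (hw : Vv v w ≤ 1) (n : ℕ) :
    ∃ a : 𝓞 K, Vv v (w - algebraMap K (v.adicCompletion K) (algebraMap (𝓞 K) K a)) ≤
      exp (-(n : ℤ)) := by
  let γ : (WithZero (Multiplicative ℤ))ˣ := Units.mk0 (exp (-(n : ℤ))) exp_ne_zero
  have hγ : (γ : WithZero (Multiplicative ℤ)) = exp (-(n : ℤ)) := rfl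
  have hγ1 : (γ : WithZero (Multiplicative ℤ)) ≤ 1 := by
    rw [hγ, ← exp_zero, exp_le_exp]
    omega
  obtain ⟨k, hk⟩ := near_K v w γ
  have hk1 : v.valuation K k ≤ 1 := by
    rw [← Vv_coe]
    have e1 : algebraMap K (v.adicCompletion K) k =
        w - (w - algebraMap K (v.adicCompletion K) k) := by ring
    rw [e1]
    exact Valuation.map_sub_le _ hw (hk.le.trans hγ1)
  obtain ⟨a, ha⟩ := v.exists_valuation_sub_lt_of_integer hk1 γ
  refine ⟨a, ?_⟩
  have e1 : w - algebraMap K (v.adicCompletion K) (algebraMap (𝓞 K) K a) =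
      (w - algebraMap K (v.adicCompletion K) k) -
        algebraMap K (v.adicCompletion K) (algebraMap (𝓞 K) K a - k) := by
    rw [map_sub]
    ring
  rw [e1, ← hγ]
  refine Valuation.map_sub_le _ hk.le ?_
  rw [Vv_coe]
  exact ha.le

end Pool.Agent.Y158.KL
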