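import Pool.Agent.Y158.KL.Lam

/-!
# Complex conjugation on the cyclotomic field
-/

set_option autoImplicit false
set_option linter.unusedSectionVars false

namespace Pool.Agent.Y158.KL

open NumberField IsDedekindDomain WithZero

variable {K : Type*} [Field K] [NumberField K] {ℓ : ℕ} [hp : Fact ℓ.Prime]
  [hK : IsCyclotomicExtension {ℓ} ℚ K] {ζ : K} (hζ : IsPrimitiveRoot ζ ℓ)

/-- complex conjugation -/
theorem exists_conj (hodd : Odd ℓ) : ∃ c : 𝓞 K →+* 𝓞 K,
    c hζ.toInteger * hζ.toInteger = 1 ∧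
      ∀ η : (𝓞 K)ˣ, ∃ r : ℕ, (η : 𝓞 K) = (-hζ.toInteger) ^ r * c η := by
  have hℓ2 : 2 < ℓ := by
    obtain ⟨t, ht⟩ := hodd
    have := hp.out.two_le
    omega
  have hCM : IsCMField K := IsCyclotomicExtension.Rat.isCMField K (S := {ℓ}) ⟨ℓ, rfl, hℓ2⟩
  refine ⟨(IsCMField.ringOfIntegersComplexConj K : 𝓞 K →+* 𝓞 K), ?_, ?_⟩
  · set zu : (𝓞 K)ˣ := (hζ.toInteger_isPrimitiveRoot.isUnit hp.out.ne_zero).unit with hzu
    have htor : zu ∈ Units.torsion K := by
      rw [Units.torsion, CommGroup.mem_torsion, isOfFinOrder_iff_pow_eq_one]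
      refine ⟨ℓ, hp.out.pos, ?_⟩
      ext
      push_cast
      exact_mod_cast congrArg (fun x : 𝓞 K => (x : K)) hζ.toInteger_isPrimitiveRoot.pow_eq_one
    have h1 := IsCMField.complexConj_torsion K ⟨zu, htor⟩
    apply RingOfIntegers.ext
    change IsCMField.complexConj K ζ * ζ = 1
    have h2 : IsCMField.complexConj K ζ = ζ⁻¹ := h1
    rw [h2, inv_mul_cancel₀ (hζ.ne_zero hp.out.ne_zero)]
  · intro η
    have h1 := (IsCMField.unitsMulComplexConjInv K η).2
    rw [IsCMField.unitsMulComplexConjInv_apply] at h1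
    set t : (𝓞 K)ˣ := η * (IsCMField.unitsComplexConj K η)⁻¹ with ht
    have h2 : IsOfFinOrder (((t : (𝓞 K)ˣ) : 𝓞 K) : K) := by
      rw [Units.torsion, CommGroup.mem_torsion, isOfFinOrder_iff_pow_eq_one] at h1
      obtain ⟨n, hn, h3⟩ := h1
      rw [isOfFinOrder_iff_pow_eq_one]
      refine ⟨n, hn, ?_⟩
      have h4 := congrArg (fun x : (𝓞 K)ˣ => ((x : 𝓞 K) : K)) h3
      simpa using h4
    obtain ⟨r, hr⟩ := hζ.exists_neg_pow_of_isOfFinOrder hodd h2
    refine ⟨r, ?_⟩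
    have h5 : (t : 𝓞 K) = (-hζ.toInteger) ^ r := by
      apply RingOfIntegers.ext
      rw [hr]
      push_cast
      rfl
    have h6 : η = t * IsCMField.unitsComplexConj K η := by
      rw [ht, inv_mul_cancel_right]
    have h7 := congrArg (fun x : (𝓞 K)ˣ => (x : 𝓞 K)) h6
    simp only [Units.val_mul] at h7
    rw [h5] at h7
    exact h7

end Pool.Agent.Y158.KL
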