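import Pool.Agent.Y158.KL.Pl

/-!
# The classes of the quotients of the `x + ζ ^ i`
-/

set_option autoImplicit false
set_option linter.unusedSectionVars false

namespace Pool.Agent.Y158.KL

open NumberField IsDedekindDomain WithZero Pool.Agent.TH954

/-- Kummer theory for the extension `L` of `K`. -/
def Kum (ℓ : ℕ) (K L : Type) [Field K] [Field L] [Algebra K L] : Prop :=
  ∀ w : L, w ≠ 0 → (∀ O : ValuationSubring L, (∀ c : K, algebraMap K L c ∈ O) →
    ∃ t : L, t ≠ 0 ∧ O.valuation w = O.valuation t ^ ℓ) →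
    ∃ c : K, c ≠ 0 ∧ ∃ g : L, w = algebraMap K L c * g ^ ℓ

lemma triv_val {K L : Type} [Field K] [Field L] [Algebra K L] {O : ValuationSubring L}
    (hO : ∀ c : K, algebraMap K L c ∈ O) {c : K} (hc : c ≠ 0) :
    O.valuation (algebraMap K L c) = 1 := by
  apply le_antisymm
  · exact (O.valuation_le_one_iff _).2 (hO c)
  · have h1 := hO c⁻¹
    rw [map_inv₀, ← O.valuation_le_one_iff, map_inv₀] at h1
    have h2 : O.valuation (algebraMap K L c) ≠ 0 :=
      (Valuation.ne_zero_iff _).2 ((map_ne_zero _).2 hc)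
    exact (inv_le_one₀ (zero_lt_iff.2 h2)).1 h1

/-- the integers of `K` in `L` -/
noncomputable def oo (K L : Type) [Field K] [Field L] [Algebra K L] : 𝓞 K →+* L :=
  (algebraMap K L).comp (algebraMap (𝓞 K) K)

section

variable {K L : Type} [Field K] [Field L] [Algebra K L]

lemma oo_apply (a : 𝓞 K) : oo K L a = algebraMap K L (algebraMap (𝓞 K) K a) := rfl

lemma oo_inj : Function.Injective (oo K L) :=
  (algebraMap K L).injective.comp (FaithfulSMul.algebraMap_injective (𝓞 K) K)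

lemma oo_ne {a : 𝓞 K} (h : a ≠ 0) : oo K L a ≠ 0 := (map_ne_zero_iff _ oo_inj).2 h

end

variable {K L : Type} [Field K] [NumberField K] [Field L] [Algebra K L] {ℓ : ℕ}
  [hp : Fact ℓ.Prime] [hK : IsCyclotomicExtension {ℓ} ℚ K] {ζ : K} (hζ : IsPrimitiveRoot ζ ℓ)

/-- the root of unity in `L` -/
noncomputable def zl (L : Type) [Field L] [Algebra K L] : L := oo K L hζ.toInteger

lemma zl_prim : IsPrimitiveRoot (zl hζ L) ℓ := hζ.toInteger_isPrimitiveRoot.map_of_injective oo_inj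

lemma comp_int {v : HeightOneSpectrum (𝓞 K)} (pl : Plc K L (v.adicCompletion K)) {a : 𝓞 K}
    (ha : v.intValuation a = 1) : (comp pl (Vv v)).valuation (oo K L a) = 1 :=
  comp_of (Plc.val_alg _) (by rw [Vv_int]; exact ha)

/-- The quotients are units times powers of `ζ - 1` times `ℓ`-th powers. -/
theorem cls (hodd : Odd ℓ) (hcop : (classNumber K).Coprime ℓ) (hkum : Kum ℓ K L)
    (pl : ∀ v : HeightOneSpectrum (𝓞 K), Plc K L (v.adicCompletion K)) {x z : L} {ε : (𝓞 K)ˣ}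
    (hz : z ≠ 0) (h : x ^ ℓ + 1 = oo K L ε * z ^ ℓ) (hne : ∀ i : ℕ, x + zl hζ L ^ i ≠ 0)
    (i j : ℕ) :
    ∃ (u : (𝓞 K)ˣ) (a : ℤ) (g : L), g ≠ 0 ∧
      (x + zl hζ L ^ i) / (x + zl hζ L ^ j) =
        oo K L u * oo K L (hζ.toInteger - 1) ^ a * g ^ ℓ := by
  have hℓ := hp.out.pos
  have hdiff : ∀ a b : ℕ, zl hζ L ^ a ≠ zl hζ L ^ b →
      ∃ d : 𝓞 K, d ≠ 0 ∧ zl hζ L ^ a - zl hζ L ^ b = oo K L d ∧
        Associated (hζ.toInteger - 1) d := by
    intro a b hab
    have h1 : hζ.toInteger ^ a ≠ hζ.toInteger ^ b := by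
      intro h2
      apply hab
      unfold zl
      rw [← map_pow, h2, map_pow]
    have h3 := diff_assoc hζ h1
    refine ⟨_, ?_, ?_, h3⟩
    · exact sub_ne_zero.2 h1
    · unfold zl
      rw [map_sub, map_pow, map_pow]
  have hw0 : (x + zl hζ L ^ i) / (x + zl hζ L ^ j) ≠ 0 := div_ne_zero (hne i) (hne j)
  have hε0 : ((ε : (𝓞 K)ˣ) : 𝓞 K) ≠ 0 := ε.ne_zero
  obtain ⟨c, hc, g, hg⟩ := hkum _ hw0 (fun O hO => by
    refine fermat_local O hℓ hodd (zl_prim hζ) ?_ (ε := oo K L ε) ?_ hz h i j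
    · intro a b hab
      obtain ⟨d, hd, h1, -⟩ := hdiff a b hab
      rw [h1]
      exact triv_val hO ((map_ne_zero_iff _ (FaithfulSMul.algebraMap_injective (𝓞 K) K)).2 hd)
    · exact triv_val hO ((map_ne_zero_iff _ (FaithfulSMul.algebraMap_injective (𝓞 K) K)).2 hε0))
  have hg0 : g ≠ 0 := by
    rintro rfl
    rw [zero_pow hℓ.ne', mul_zero] at hg
    exact hw0 hg
  -- the valuations outside `λ`
  have hval : ∀ v : HeightOneSpectrum (𝓞 K), v ≠ lam hζ →
      ∃ t : WithZero (Multiplicative ℤ), v.valuation K c = t ^ ℓ := by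
    intro v hv
    obtain ⟨t, ht0, ht⟩ := fermat_local (comp (pl v) (Vv v)) hℓ hodd (zl_prim hζ) (by
      intro a b hab
      obtain ⟨d, hd, h1, h2⟩ := hdiff a b hab
      rw [h1]
      exact comp_int (pl v) (by rw [← lam_assoc h2, other_pi hζ hv])) (ε := oo K L ε)
      (comp_int (pl v) (val_unit v ε)) hz h i j
    rw [hg] at ht
    obtain ⟨τ, -, hτ⟩ := const_val hℓ hc hg0 ht0 ht
    refine ⟨Vv v τ, ?_⟩
    rw [← hτ, Vv_coe]
  obtain ⟨m, hm⟩ := exists_exp (((lam hζ).valuation K).ne_zero_iff.2 hc)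
  set π : K := algebraMap (𝓞 K) K (hζ.toInteger - 1) with hπ
  have hπ0 : π ≠ 0 := (map_ne_zero_iff _ (FaithfulSMul.algebraMap_injective (𝓞 K) K)).2
    (pi_ne_zero hζ)
  obtain ⟨u, k, hk, hu⟩ := exists_unit_mul_pow hℓ hcop (c * π ^ m)
    (mul_ne_zero hc (zpow_ne_zero _ hπ0)) (by
      intro v
      by_cases hv : v = lam hζ
      · subst hv
        refine ⟨1, ?_⟩
        rw [map_mul, map_zpow₀, hπ, (lam hζ).valuation_of_algebraMap, lam_pi, hm, one_pow,
          ← exp_zsmul, ← exp_add, ← exp_zero]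
        congr 1
        simp
      · obtain ⟨t, ht⟩ := hval v hv
        refine ⟨t, ?_⟩
        rw [map_mul, map_zpow₀, hπ, v.valuation_of_algebraMap, other_pi hζ hv, one_zpow, mul_one,
          ht])
  refine ⟨u, -m, algebraMap K L k * g, mul_ne_zero ((map_ne_zero _).2 hk) hg0, ?_⟩
  rw [hg]
  have e1 : c = algebraMap (𝓞 K) K u * k ^ ℓ * π ^ (-m) := by
    rw [← hu, mul_assoc, ← zpow_add₀ hπ0, add_neg_cancel, zpow_zero, mul_one]
  have e2 : algebraMap K L c = oo K L u * algebraMap K L k ^ ℓ *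
      oo K L (hζ.toInteger - 1) ^ (-m) := by
    rw [e1, map_mul, map_mul, map_pow, map_zpow₀]
    rfl
  rw [e2]
  ring

end Pool.Agent.Y158.KL
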