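import Mathlib

/-!
# Indices of images and orders of kernels of endomorphisms of abelian groups
-/

set_option autoImplicit false

namespace Pool.Agent.Y158.KL

section qq

variable {A B : Type*} [AddCommGroup A] [AddCommGroup B]

/-- the index of the image divided by the order of the kernel -/
noncomputable def qq (f : A →+ A) : ℚ := (f.range.index : ℚ) / Nat.card f.ker

/-- finite kernel and cokernel -/
structure Fq (f : A →+ A) : Prop where
  i : f.range.index ≠ 0
  k : Finite f.ker

lemma Fq.kc {f : A →+ A} (h : Fq f) : Nat.card f.ker ≠ 0 := by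
  have := h.k
  exact Nat.card_pos.ne'

theorem qq_comp {f g : A →+ A} (hf : Fq f) (hg : Fq g) :
    Fq (g.comp f) ∧ qq (g.comp f) = qq g * qq f := by
  obtain ⟨H, hH⟩ : ∃ H : AddSubgroup A, H = f.range := ⟨_, rfl⟩
  have e1 : (g.comp f).range = H.map g := by
    rw [hH, AddMonoidHom.range_comp]
  have e2 : (H.map g).index = (H ⊔ g.ker).index * g.range.index := AddSubgroup.index_map H g
  have e3 : H.relIndex (H ⊔ g.ker) * (H ⊔ g.ker).index = H.index :=
    AddSubgroup.relIndex_mul_index le_sup_left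
  have e4 : H.relIndex (H ⊔ g.ker) = H.relIndex g.ker := by
    rw [AddSubgroup.relIndex_sup_left]
  have e5 : H.relIndex g.ker * Nat.card (H ⊓ g.ker : AddSubgroup A) = Nat.card g.ker := by
    have := AddSubgroup.index_mul_card (H.addSubgroupOf g.ker)
    rw [← this]
    congr 1
    rw [← AddSubgroup.inf_addSubgroupOf_right]
    exact (Nat.card_congr (AddSubgroup.addSubgroupOfEquivOfLe inf_le_right).toEquiv).symm
  have e6 : Nat.card (g.comp f).ker = Nat.card f.ker * Nat.card (H ⊓ g.ker : AddSubgroup A) := by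
    have h1 : f.ker ≤ (g.comp f).ker := by
      intro x hx
      rw [AddMonoidHom.mem_ker] at hx ⊢
      rw [AddMonoidHom.comp_apply, hx, map_zero]
    have h2 := AddSubgroup.relIndex_ker (g.comp f).ker f
    have h3 : ((g.comp f).ker).map f = H ⊓ g.ker := by
      rw [← AddMonoidHom.comap_ker, AddSubgroup.map_comap_eq, hH]
    rw [h3] at h2
    have h4 := AddSubgroup.index_mul_card (f.ker.addSubgroupOf (g.comp f).ker)
    rw [← h4, ← h2, mul_comm]
    congr 1
    exact (Nat.card_congr (AddSubgroup.addSubgroupOfEquivOfLe h1).toEquiv)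
  have hkf := hf.kc
  have hkg := hg.kc
  have hif : H.index ≠ 0 := by
    rw [hH]
    exact hf.i
  have hig := hg.i
  rw [← e5] at hkg
  rw [← e3, e4] at hif
  have hr : H.relIndex g.ker ≠ 0 := left_ne_zero_of_mul hkg
  have hc : Nat.card (H ⊓ g.ker : AddSubgroup A) ≠ 0 := right_ne_zero_of_mul hkg
  have hs : (H ⊔ g.ker).index ≠ 0 := right_ne_zero_of_mul hif
  refine ⟨⟨?_, ?_⟩, ?_⟩
  · rw [e1, e2]
    exact mul_ne_zero hs hig
  · apply Nat.finite_of_card_ne_zero
    rw [e6]
    exact mul_ne_zero hkf hc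
  · unfold qq
    rw [e1, e2, e6, ← hH, ← e3, e4, ← e5]
    push_cast
    have h1 : (Nat.card f.ker : ℚ) ≠ 0 := by exact_mod_cast hkf
    have h2 : (H.relIndex g.ker : ℚ) ≠ 0 := by exact_mod_cast hr
    have h3 : (Nat.card (H ⊓ g.ker : AddSubgroup A) : ℚ) ≠ 0 := by exact_mod_cast hc
    field_simp

theorem qq_bij {f : A →+ A} (hf : Function.Bijective f) : Fq f ∧ qq f = 1 := by
  have h1 : f.range.index = 1 := by
    rw [AddMonoidHom.range_eq_top.2 hf.2, AddSubgroup.index_top]
  have h2 : f.ker = ⊥ := (AddMonoidHom.ker_eq_bot_iff f).2 hf.1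
  refine ⟨⟨by rw [h1]; exact one_ne_zero, by rw [h2]; infer_instance⟩, ?_⟩
  unfold qq
  rw [h1, h2]
  simp

theorem qq_finite [Finite A] (f : A →+ A) : Fq f ∧ qq f = 1 := by
  have h1 : f.ker.index * Nat.card f.ker = Nat.card A := AddSubgroup.index_mul_card _
  have h2 : f.range.index * Nat.card f.range = Nat.card A := AddSubgroup.index_mul_card _
  rw [AddSubgroup.index_ker] at h1
  have h3 : Nat.card f.range ≠ 0 := Nat.card_pos.ne'
  have h4 : Nat.card f.ker ≠ 0 := Nat.card_pos.ne'
  have h5 : f.range.index = Nat.card f.ker := by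
    apply Nat.eq_of_mul_eq_mul_right (Nat.pos_of_ne_zero h3)
    rw [h2, ← h1, mul_comm]
  refine ⟨⟨by rw [h5]; exact h4, inferInstance⟩, ?_⟩
  unfold qq
  rw [h5, div_self]
  exact_mod_cast h4

theorem qq_prod {f : A →+ A} {g : B →+ B} (hf : Fq f) (hg : Fq g) :
    Fq (f.prodMap g) ∧ qq (f.prodMap g) = qq f * qq g := by
  have e1 : (f.prodMap g).range = f.range.prod g.range := by
    ext ⟨x, y⟩
    simp only [AddMonoidHom.mem_range, AddSubgroup.mem_prod, Prod.exists,
      AddMonoidHom.prodMap_def, AddMonoidHom.prod_apply, Prod.mk.injEq, AddMonoidHom.comp_apply,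
      AddMonoidHom.coe_fst, AddMonoidHom.coe_snd]
    constructor
    · rintro ⟨a, b, h1, h2⟩
      exact ⟨⟨a, h1⟩, ⟨b, h2⟩⟩
    · rintro ⟨⟨a, h1⟩, ⟨b, h2⟩⟩
      exact ⟨a, b, h1, h2⟩
  have e2 : (f.prodMap g).ker = f.ker.prod g.ker := by
    ext ⟨x, y⟩
    simp [AddMonoidHom.mem_ker, AddSubgroup.mem_prod]
  have e3 : Nat.card (f.prodMap g).ker = Nat.card f.ker * Nat.card g.ker := by
    rw [e2, Nat.card_congr (AddSubgroup.prodEquiv f.ker g.ker).toEquiv, Nat.card_prod]
  have h1 := hf.kc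
  have h2 := hg.kc
  refine ⟨⟨?_, ?_⟩, ?_⟩
  · rw [e1, AddSubgroup.index_prod]
    exact mul_ne_zero hf.i hg.i
  · apply Nat.finite_of_card_ne_zero
    rw [e3]
    exact mul_ne_zero h1 h2
  · unfold qq
    rw [e1, AddSubgroup.index_prod, e3]
    push_cast
    rw [mul_div_mul_comm]

theorem qq_equiv (e : A ≃+ B) {f : A →+ A} {g : B →+ B} (h : ∀ x, e (f x) = g (e x))
    (hg : Fq g) : Fq f ∧ qq f = qq g := by
  have e1 : g.range = f.range.map (e : A →+ B) := by
    ext x
    simp only [AddMonoidHom.mem_range, AddSubgroup.mem_map]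
    constructor
    · rintro ⟨a, rfl⟩
      refine ⟨f (e.symm a), ⟨_, rfl⟩, ?_⟩
      change e (f (e.symm a)) = g a
      rw [h, e.apply_symm_apply]
    · rintro ⟨_, ⟨a, rfl⟩, rfl⟩
      exact ⟨e a, (h a).symm⟩
  have e2 : g.range.index = f.range.index := by
    rw [e1]
    exact AddSubgroup.index_map_equiv _ e
  have e3 : Nat.card g.ker = Nat.card f.ker := by
    refine (Nat.card_congr ?_).symm
    refine Equiv.subtypeEquiv e.toEquiv ?_
    intro a
    change f a = 0 ↔ g (e a) = 0
    rw [← h, map_eq_zero_iff e e.injective]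
  refine ⟨⟨by rw [← e2]; exact hg.i, ?_⟩, ?_⟩
  · apply Nat.finite_of_card_ne_zero
    rw [← e3]
    exact hg.kc
  · unfold qq
    rw [e2, e3]

/-- multiplication by `n` -/
def mulN (A : Type*) [AddCommGroup A] (n : ℕ) : A →+ A := nsmulAddMonoidHom n

lemma mulN_apply (n : ℕ) (x : A) : mulN A n x = n • x := rfl

theorem qq_int (p : ℕ) [hp : NeZero p] (n : ℕ) :
    Fq (mulN (Fin n → ℤ) p) ∧ qq (mulN (Fin n → ℤ) p) = (p : ℚ) ^ n := by
  have hker : (mulN (Fin n → ℤ) p).ker = ⊥ := by
    rw [AddMonoidHom.ker_eq_bot_iff]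
    intro x y h
    funext i
    have h1 := congrFun h i
    simp only [mulN_apply, Pi.smul_apply, nsmul_eq_mul] at h1
    have h2 : (p : ℤ) ≠ 0 := by exact_mod_cast hp.out
    exact mul_left_cancel₀ h2 h1
  let φ : (Fin n → ℤ) →+ (Fin n → ZMod p) :=
    { toFun := fun x i => (x i : ZMod p)
      map_zero' := by funext i; simp
      map_add' := fun x y => by funext i; simp }
  have h1 : φ.ker = (mulN (Fin n → ℤ) p).range := by
    ext x
    rw [AddMonoidHom.mem_ker, AddMonoidHom.mem_range]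
    constructor
    · intro h
      have h2 : ∀ i, ∃ y : ℤ, x i = p * y := fun i => by
        have h3 : ((x i : ℤ) : ZMod p) = 0 := congrFun h i
        rw [ZMod.intCast_zmod_eq_zero_iff_dvd] at h3
        exact h3
      choose y hy using h2
      refine ⟨y, ?_⟩
      funext i
      rw [mulN_apply, Pi.smul_apply, nsmul_eq_mul, hy i]
    · rintro ⟨y, rfl⟩
      funext i
      change (((mulN (Fin n → ℤ) p y) i : ℤ) : ZMod p) = 0
      rw [mulN_apply, Pi.smul_apply, nsmul_eq_mul]
      push_cast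
      rw [ZMod.natCast_self, zero_mul]
  have h2 : Function.Surjective φ := by
    intro y
    refine ⟨fun i => ((y i).val : ℤ), ?_⟩
    funext i
    change ((((y i).val : ℕ) : ℤ) : ZMod p) = y i
    rw [Int.cast_natCast, ZMod.natCast_zmod_val]
  have h3 : (mulN (Fin n → ℤ) p).range.index = p ^ n := by
    rw [← h1, AddSubgroup.index_ker, AddMonoidHom.range_eq_top.2 h2]
    rw [Nat.card_congr (AddSubgroup.topEquiv).toEquiv, Nat.card_eq_fintype_card,
      Fintype.card_fun, ZMod.card, Fintype.card_fin]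
  refine ⟨⟨?_, by rw [hker]; infer_instance⟩, ?_⟩
  · rw [h3]
    exact pow_ne_zero _ hp.out
  · unfold qq
    rw [h3, hker]
    simp

theorem finrank_rk {A B : Type} [AddCommGroup A] [AddCommGroup B] [Module.Finite ℤ A]
    (f : A →ₗ[ℤ] B) : Module.finrank ℤ (LinearMap.range f) + Module.finrank ℤ (LinearMap.ker f) =
      Module.finrank ℤ A := by
  rw [← Submodule.finrank_quotient_add_finrank (LinearMap.ker f),
    LinearEquiv.finrank_eq f.quotKerEquivRange]

theorem qq_nsmul (p : ℕ) [hp : NeZero p] (A : Type) [AddCommGroup A] [hA : Module.Finite ℤ A] :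
    Fq (mulN A p) ∧ qq (mulN A p) = (p : ℚ) ^ (Module.finrank ℤ A) := by
  have hfg : AddGroup.FG A := Module.Finite.iff_addGroup_fg.1 hA
  obtain ⟨n, ι, hι, q, hq, e, ⟨E⟩⟩ := AddCommGroup.equiv_free_prod_directSum_zmod A
  have hfin : Finite (DirectSum ι fun i => ZMod (q i ^ e i)) := by
    have hne : ∀ i, NeZero (q i ^ e i) := fun i => ⟨pow_ne_zero _ (hq i).ne_zero⟩
    exact Finite.of_injective (DirectSum.addEquivProd fun i => ZMod (q i ^ e i))
      (DirectSum.addEquivProd fun i => ZMod (q i ^ e i)).injective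
  let e1 : (Fin n →₀ ℤ) ≃+ (Fin n → ℤ) := (Finsupp.linearEquivFunOnFinite ℤ ℤ (Fin n)).toAddEquiv
  let E' : A ≃+ (Fin n → ℤ) × (DirectSum ι fun i => ZMod (q i ^ e i)) :=
    E.trans (AddEquiv.prodCongr e1 (AddEquiv.refl _))
  have hr : Module.finrank ℤ A = n := by
    rw [LinearEquiv.finrank_eq E'.toIntLinearEquiv]
    have h1 : Module.finrank ℤ ((Fin n → ℤ) × (DirectSum ι fun i => ZMod (q i ^ e i))) =
        Module.finrank ℤ (Fin n → ℤ) := by
      have : Module.Finite ℤ ((Fin n → ℤ) × (DirectSum ι fun i => ZMod (q i ^ e i))) :=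
        Module.Finite.equiv E'.toIntLinearEquiv
      have h2 := finrank_rk
        (LinearMap.fst ℤ (Fin n → ℤ) (DirectSum ι fun i => ZMod (q i ^ e i)))
      have h3 : Module.finrank ℤ (LinearMap.ker
        (LinearMap.fst ℤ (Fin n → ℤ) (DirectSum ι fun i => ZMod (q i ^ e i)))) = 0 := by
        have h4 : Finite (LinearMap.ker
          (LinearMap.fst ℤ (Fin n → ℤ) (DirectSum ι fun i => ZMod (q i ^ e i)))) := by
          refine Finite.of_injective (fun x => x.1.2) ?_
          rintro ⟨⟨a, b⟩, h⟩ ⟨⟨a', b'⟩, h'⟩ hab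
          rw [LinearMap.mem_ker, LinearMap.fst_apply] at h h'
          simp only at h h' hab
          subst h h' hab
          rfl
        have hmf : Module.Finite ℤ (LinearMap.ker
          (LinearMap.fst ℤ (Fin n → ℤ) (DirectSum ι fun i => ZMod (q i ^ e i)))) := inferInstance
        refine (Module.finrank_eq_zero_iff (R := ℤ) (M := (LinearMap.ker
          (LinearMap.fst ℤ (Fin n → ℤ) (DirectSum ι fun i => ZMod (q i ^ e i)))))).2 ?_
        intro x
        exact ⟨addOrderOf x, by exact_mod_cast (addOrderOf_pos x).ne', by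
          rw [natCast_zsmul, addOrderOf_nsmul_eq_zero]⟩
      rw [h3, add_zero] at h2
      rw [← h2]
      rw [LinearMap.range_eq_top.2 LinearMap.fst_surjective, finrank_top]
    rw [h1, Module.finrank_fin_fun]
  have h5 := qq_prod (qq_int p n).1
    (qq_finite (mulN (DirectSum ι fun i => ZMod (q i ^ e i)) p)).1
  have h6 := qq_equiv E' (f := mulN A p)
    (g := (mulN (Fin n → ℤ) p).prodMap (mulN (DirectSum ι fun i => ZMod (q i ^ e i)) p))
    (fun x => by
      rw [mulN_apply, map_nsmul]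
      rfl) h5.1
  refine ⟨h6.1, ?_⟩
  rw [h6.2, h5.2, (qq_int p n).2, (qq_finite _).2, mul_one, hr]

end qq

end Pool.Agent.Y158.KL
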