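import Pool.Agent.Y158.KL.Hil

/-!
# Hilbert's theorem on relative units, abstract form
-/

set_option autoImplicit false

namespace Pool.Agent.Y158.KL

theorem qq_End {W : Type} [AddCommGroup W] [Module.Finite ℤ W] {R : Type*} [CommRing R]
    (φ : R →+* Module.End ℤ W) {p n : ℕ} [NeZero p] {π : R} {ε : Rˣ} (h : (p : R) = ε * π ^ n)
    (hn : n ≠ 0) : Fq (φ π).toAddMonoidHom ∧
      qq (φ π).toAddMonoidHom ^ n = (p : ℚ) ^ (Module.finrank ℤ W) := by
  have hp : (φ (p : R)).toAddMonoidHom = mulN W p := by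
    ext x
    rw [map_natCast]
    rfl
  have hP := qq_nsmul p W
  obtain ⟨m, rfl⟩ : ∃ m, n = m + 1 := ⟨n - 1, by omega⟩
  have hF : Fq (φ π).toAddMonoidHom := by
    constructor
    · intro h0
      apply hP.1.i
      have h1 : (mulN W p).range ≤ (φ π).toAddMonoidHom.range := by
        rintro _ ⟨x, rfl⟩
        refine ⟨(φ (ε * π ^ m)) x, ?_⟩
        rw [← hp]
        change (φ π) ((φ (ε * π ^ m)) x) = φ (p : R) x
        rw [← Module.End.mul_apply, ← map_mul, h]
        congr 2
        ring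
      have h2 := AddSubgroup.index_dvd_of_le h1
      rw [h0] at h2
      exact Nat.eq_zero_of_zero_dvd h2
    · have := hP.1.k
      have h1 : (φ π).toAddMonoidHom.ker ≤ (mulN W p).ker := by
        intro x hx
        rw [AddMonoidHom.mem_ker] at hx ⊢
        rw [← hp]
        change φ π x = 0 at hx
        change φ (p : R) x = 0
        have : (p : R) = ε * π ^ m * π := by rw [h]; ring
        rw [this, map_mul, Module.End.mul_apply, hx, map_zero]
      exact Finite.of_injective (AddSubgroup.inclusion h1) (AddSubgroup.inclusion_injective h1)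
  refine ⟨hF, ?_⟩
  have hpow : ∀ k : ℕ, Fq (φ (π ^ k)).toAddMonoidHom ∧
      qq (φ (π ^ k)).toAddMonoidHom = qq (φ π).toAddMonoidHom ^ k := by
    intro k
    induction k with
    | zero =>
      have h1 : (φ (π ^ 0)).toAddMonoidHom = AddMonoidHom.id W := by
        rw [pow_zero, map_one]
        rfl
      rw [h1, pow_zero]
      exact qq_bij Function.bijective_id
    | succ k ih =>
      have h1 : (φ (π ^ (k + 1))).toAddMonoidHom =
          (φ (π ^ k)).toAddMonoidHom.comp (φ π).toAddMonoidHom := by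
        rw [pow_succ, map_mul]
        rfl
      have h2 := qq_comp hF ih.1
      rw [h1]
      exact ⟨h2.1, by rw [h2.2, ih.2, pow_succ]⟩
  have hε : Fq (φ (ε : R)).toAddMonoidHom ∧ qq (φ (ε : R)).toAddMonoidHom = 1 := by
    apply qq_bij
    have h1 : ∀ x, φ (ε : R) (φ ((ε⁻¹ : Rˣ) : R) x) = x := fun x => by
      rw [← Module.End.mul_apply, ← map_mul, Units.mul_inv, map_one, Module.End.one_apply]
    have h2 : ∀ x, φ ((ε⁻¹ : Rˣ) : R) (φ (ε : R) x) = x := fun x => by
      rw [← Module.End.mul_apply, ← map_mul, Units.inv_mul, map_one, Module.End.one_apply]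
    exact ⟨Function.LeftInverse.injective h2, Function.RightInverse.surjective h1⟩
  have h3 := qq_comp (hpow (m + 1)).1 hε.1
  have h4 : (φ (ε : R)).toAddMonoidHom.comp (φ (π ^ (m + 1))).toAddMonoidHom = mulN W p := by
    rw [← hp, h, map_mul]
    rfl
  rw [h4] at h3
  rw [← hP.2, h3.2, hε.2, one_mul, (hpow (m + 1)).2]

theorem hilb92 {A : Type} [AddCommGroup A] [Module.Finite ℤ A] {ℓ : ℕ} [hℓ : Fact ℓ.Prime]
    (s : Module.End ℤ A) (hs : s ^ ℓ = 1) {r : ℕ}
    (hA : Module.finrank ℤ A + 1 = ℓ * (r + 1))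
    (hfix : Module.finrank ℤ (LinearMap.ker (s - 1)) = r)
    (hk : Nat.card {x : A // s x = x ∧ ℓ • x = 0} = ℓ)
    {R : Type} [CommRing R] {π : R} {ε : Rˣ} (hπ : (ℓ : R) = ε * π ^ (ℓ - 1))
    (hR : ∀ (W : Type) [AddCommGroup W] (t : Module.End ℤ W),
      ∑ i ∈ Finset.range ℓ, t ^ i = 0 → ∃ φ : R →+* Module.End ℤ W, φ π = t - 1) :
    ∃ x : A, (∑ i ∈ Finset.range ℓ, s ^ i) x = 0 ∧ ∀ y, x ≠ s y - y := by
  classical
  by_contra hcon
  push Not at hcon
  have hℓ2 := hℓ.out.two_le
  have : NeZero ℓ := ⟨hℓ.out.ne_zero⟩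
  obtain ⟨N, hN⟩ : ∃ N : Module.End ℤ A, N = ∑ i ∈ Finset.range ℓ, s ^ i := ⟨_, rfl⟩
  obtain ⟨D, hD⟩ : ∃ D : Module.End ℤ A, D = s - 1 := ⟨_, rfl⟩
  rw [← hN] at hcon
  rw [← hD] at hfix
  have hDx : ∀ x, D x = s x - x := fun x => by rw [hD]; rfl
  have hND : N * D = 0 := by
    rw [hN, hD, geom_sum_mul, hs, sub_self]
  have hDN : D * N = 0 := by
    rw [hN, hD, mul_geom_sum, hs, sub_self]
  have hsD : s * D = D * s := by
    rw [hD, mul_sub, sub_mul, mul_one, one_mul]
  have hsN : s * N = N := by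
    have := hDN
    rw [hD, sub_mul, one_mul, sub_eq_zero] at this
    exact this
  have hNs : N * s = N := by
    have := hND
    rw [hD, mul_sub, mul_one, sub_eq_zero] at this
    exact this
  have hWr : LinearMap.ker N = LinearMap.range D := by
    ext x
    rw [LinearMap.mem_ker, LinearMap.mem_range]
    constructor
    · intro h
      obtain ⟨y, hy⟩ := hcon x h
      exact ⟨y, by rw [hDx, hy]⟩
    · rintro ⟨y, rfl⟩
      rw [← Module.End.mul_apply, hND, LinearMap.zero_apply]
  have hfixN : ∀ x, D x = 0 → N x = ℓ • x := by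
    intro x hx
    have hx' : s x = x := by rwa [hDx, sub_eq_zero] at hx
    have h1 : ∀ i : ℕ, (s ^ i) x = x := by
      intro i
      induction i with
      | zero => rw [pow_zero, Module.End.one_apply]
      | succ i ih => rw [pow_succ, Module.End.mul_apply, hx', ih]
    rw [hN, LinearMap.sum_apply, Finset.sum_congr rfl (fun i _ => h1 i), Finset.sum_const,
      Finset.card_range]
  -- rank of W
  have hrkW : Module.finrank ℤ (LinearMap.ker N) = (ℓ - 1) * (r + 1) := by
    have h1 := finrank_rk D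
    rw [hfix, ← hWr] at h1
    obtain ⟨k, rfl⟩ : ∃ k, ℓ = k + 1 := ⟨ℓ - 1, by omega⟩
    rw [Nat.add_sub_cancel]
    have : (k + 1) * (r + 1) = k * (r + 1) + (r + 1) := by ring
    rw [this] at hA
    omega
  -- the module W
  have hmap : ∀ x ∈ LinearMap.ker N, s x ∈ LinearMap.ker N := by
    intro x hx
    rw [LinearMap.mem_ker] at hx ⊢
    rw [← Module.End.mul_apply, hNs, hx]
  obtain ⟨t, ht⟩ : ∃ t : Module.End ℤ (LinearMap.ker N), ∀ x, ((t x : LinearMap.ker N) : A) = s x :=
    ⟨s.restrict hmap, fun x => rfl⟩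
  have htpow : ∀ (i : ℕ) (x : LinearMap.ker N), (((t ^ i) x : LinearMap.ker N) : A) = (s ^ i) x := by
    intro i
    induction i with
    | zero => intro x; rfl
    | succ i ih =>
      intro x
      rw [pow_succ, Module.End.mul_apply, ih, ht, pow_succ, Module.End.mul_apply]
  have htsum : ∑ i ∈ Finset.range ℓ, t ^ i = 0 := by
    ext x
    rw [LinearMap.sum_apply, AddSubmonoidClass.coe_finsetSum,
      Finset.sum_congr rfl (fun i _ => htpow i x), ← LinearMap.sum_apply, ← hN, x.2]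
    rfl
  obtain ⟨φ, hφ⟩ := hR _ t htsum
  obtain ⟨hF, hq⟩ := qq_End φ hπ (by omega)
  rw [hφ, hrkW, mul_comm (ℓ - 1) (r + 1), pow_mul] at hq
  have hq' : qq (t - 1).toAddMonoidHom = (ℓ : ℚ) ^ (r + 1) := by
    have h0 : 0 ≤ qq (t - 1).toAddMonoidHom := by
      unfold qq
      positivity
    exact (pow_left_inj₀ h0 (by positivity) (by omega)).1 hq
  rw [hφ] at hF
  -- the kernel
  have hkc : Nat.card (t - 1).toAddMonoidHom.ker = ℓ := by
    rw [← hk]
    refine Nat.card_congr ⟨fun x => ⟨x.1.1, ?_, ?_⟩, fun x => ⟨⟨x.1, ?_⟩, ?_⟩, ?_, ?_⟩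
    · have h1 : t x.1 - x.1 = 0 := x.2
      have h2 := congrArg Subtype.val h1
      change ((t x.1 : LinearMap.ker N) : A) - x.1.1 = 0 at h2
      rw [ht] at h2
      exact sub_eq_zero.1 h2
    · have h1 : t x.1 - x.1 = 0 := x.2
      have h2 := congrArg Subtype.val h1
      change ((t x.1 : LinearMap.ker N) : A) - x.1.1 = 0 at h2
      rw [ht] at h2
      rw [← hfixN _ (by rw [hDx]; exact h2)]
      exact x.1.2
    · rw [LinearMap.mem_ker, hfixN _ (by rw [hDx, x.2.1, sub_self]), x.2.2]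
    · rw [AddMonoidHom.mem_ker]
      apply Subtype.ext
      change ((t _ : LinearMap.ker N) : A) - x.1 = 0
      rw [ht]
      change s x.1 - x.1 = 0
      rw [x.2.1, sub_self]
    · intro x; rfl
    · intro x; rfl
  have hind : (t - 1).toAddMonoidHom.range.index = ℓ ^ (r + 2) := by
    have hℓ0 : (ℓ : ℚ) ≠ 0 := by exact_mod_cast hℓ.out.ne_zero
    unfold qq at hq'
    rw [hkc, div_eq_iff hℓ0, ← pow_succ] at hq'
    exact_mod_cast hq'
  -- indices
  obtain ⟨D', hD'⟩ : ∃ D' : A →+ A, D' = D.toAddMonoidHom := ⟨_, rfl⟩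
  obtain ⟨N', hN'⟩ : ∃ N' : A →+ A, N' = N.toAddMonoidHom := ⟨_, rfl⟩
  have hNx' : ∀ x, N' x = N x := fun x => by rw [hN']; rfl
  have hDx' : ∀ x, D' x = D x := fun x => by rw [hD']; rfl
  have hWr' : N'.ker = D'.range := by
    ext x
    rw [AddMonoidHom.mem_ker, hNx', AddMonoidHom.mem_range, ← LinearMap.mem_ker, hWr,
      LinearMap.mem_range]
    simp only [hDx']
  have i1 : (N'.ker.map D').relIndex N'.ker = ℓ ^ (r + 2) := by
    rw [← hind]
    have e : N'.ker ≃+ LinearMap.ker N :=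
      { toFun := fun x => ⟨x.1, by rw [LinearMap.mem_ker, ← hNx']; exact x.2⟩
        invFun := fun x => ⟨x.1, by rw [AddMonoidHom.mem_ker, hNx']; exact x.2⟩
        left_inv := fun x => rfl
        right_inv := fun x => rfl
        map_add' := fun x y => rfl }
    have h1 : N'.ker = (LinearMap.ker N).toAddSubgroup := by
      ext x
      rw [AddMonoidHom.mem_ker, hNx']
      rfl
    rw [h1]
    change (((LinearMap.ker N).toAddSubgroup.map D').addSubgroupOf
      (LinearMap.ker N).toAddSubgroup).index = _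
    congr 1
    ext x
    rw [AddSubgroup.mem_addSubgroupOf, AddSubgroup.mem_map, AddMonoidHom.mem_range]
    constructor
    · rintro ⟨y, hy, h2⟩
      refine ⟨⟨y, hy⟩, ?_⟩
      apply Subtype.ext
      change ((t _ : LinearMap.ker N) : A) - y = _
      rw [ht]
      change s y - y = _
      rw [← hDx, ← hDx', h2]
    · rintro ⟨y, rfl⟩
      refine ⟨y.1, y.2, ?_⟩
      change _ = ((t _ : LinearMap.ker N) : A) - y.1
      rw [ht, hDx', hDx]
  have i2 : (N'.ker.map D').relIndex N'.ker = (N'.ker ⊔ D'.ker).index := by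
    have h1 := AddSubgroup.relIndex_map_map D' N'.ker ⊤
    rw [top_sup_eq, AddSubgroup.relIndex_top_right, ← AddMonoidHom.range_eq_map, ← hWr'] at h1
    exact h1
  have i3 : (D'.ker.map N').relIndex N'.range = (D'.ker ⊔ N'.ker).index := by
    have h1 := AddSubgroup.relIndex_map_map N' D'.ker ⊤
    rw [top_sup_eq, AddSubgroup.relIndex_top_right, ← AddMonoidHom.range_eq_map] at h1
    exact h1
  have h4 : D'.ker.map N' ≤ N'.range := by
    rintro _ ⟨x, _, rfl⟩
    exact ⟨x, rfl⟩
  have h5 : N'.range ≤ D'.ker := by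
    rintro _ ⟨x, rfl⟩
    rw [AddMonoidHom.mem_ker, hDx', hNx', ← Module.End.mul_apply, hDN]
    rfl
  have i4 := AddSubgroup.relIndex_mul_relIndex _ _ _ h4 h5
  have i5 : (D'.ker.map N').relIndex D'.ker = ℓ ^ (r + 1) := by
    have h6 := qq_nsmul ℓ (LinearMap.ker D)
    have h7 : Nat.card (mulN (LinearMap.ker D) ℓ).ker = ℓ := by
      refine Eq.trans ?_ hk
      refine Nat.card_congr ⟨fun x => ⟨x.1.1, ?_, ?_⟩, fun x => ⟨⟨x.1, ?_⟩, ?_⟩, ?_, ?_⟩
      · have h1 := x.1.2
        rw [LinearMap.mem_ker, hDx, sub_eq_zero] at h1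
        exact h1
      · have h1 : ℓ • x.1 = 0 := x.2
        have h2 := congrArg Subtype.val h1
        exact h2
      · rw [LinearMap.mem_ker, hDx, x.2.1, sub_self]
      · rw [AddMonoidHom.mem_ker]
        apply Subtype.ext
        exact x.2.2
      · intro x; rfl
      · intro x; rfl
    have h8 : (mulN (LinearMap.ker D) ℓ).range.index = ℓ ^ (r + 1) := by
      have h9 := h6.2
      have hℓ0 : (ℓ : ℚ) ≠ 0 := by exact_mod_cast hℓ.out.ne_zero
      unfold qq at h9
      rw [h7, hfix, div_eq_iff hℓ0, ← pow_succ] at h9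
      exact_mod_cast h9
    rw [← h8]
    have h1 : D'.ker = (LinearMap.ker D).toAddSubgroup := by
      ext x
      rw [AddMonoidHom.mem_ker, hDx']
      rfl
    rw [h1]
    change (((LinearMap.ker D).toAddSubgroup.map N').addSubgroupOf
      (LinearMap.ker D).toAddSubgroup).index = _
    congr 1
    ext x
    rw [AddSubgroup.mem_addSubgroupOf, AddSubgroup.mem_map, AddMonoidHom.mem_range]
    constructor
    · rintro ⟨y, hy, h2⟩
      refine ⟨⟨y, hy⟩, ?_⟩
      apply Subtype.ext
      change ℓ • y = _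
      rw [← hfixN y hy, ← hNx', h2]
    · rintro ⟨y, rfl⟩
      refine ⟨y.1, y.2, ?_⟩
      change _ = ℓ • y.1
      rw [hNx', hfixN y.1 y.2]
  rw [i5, i3, sup_comm, ← i2, i1] at i4
  have h10 : 0 < ℓ ^ (r + 1) := pow_pos hℓ.out.pos _
  have h11 : N'.range.relIndex D'.ker ≠ 0 := by
    intro h
    rw [h, mul_zero] at i4
    omega
  have h12 : ℓ ^ (r + 2) ≤ ℓ ^ (r + 1) := by
    rw [← i4]
    exact Nat.le_mul_of_pos_right _ (Nat.pos_of_ne_zero h11)
  have h13 : ℓ ^ (r + 1) < ℓ ^ (r + 2) := Nat.pow_lt_pow_right (by omega) (by omega)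
  omega

end Pool.Agent.Y158.KL
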