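import Pool.Agent.Y158.KL.Hil2
import Pool.Agent.Y158.KL.Cls

/-!
# Hilbert's theorem on unramified cyclic extensions of a cyclotomic field
-/

set_option autoImplicit false
set_option linter.unusedSectionVars false

namespace Pool.Agent.Y158.KL

open NumberField IsDedekindDomain Polynomial

section

variable {ℓ : ℕ} [hp : Fact ℓ.Prime] {K : Type} [Field K] [NumberField K]
  [hK : IsCyclotomicExtension {ℓ} ℚ K] {ζ : K} (hζ : IsPrimitiveRoot ζ ℓ)

include hζ in
theorem exists_ringHom (W : Type) [AddCommGroup W] (t : Module.End ℤ W)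
    (ht : ∑ i ∈ Finset.range ℓ, t ^ i = 0) :
    ∃ φ : 𝓞 K →+* Module.End ℤ W, φ (hζ.toInteger - 1) = t - 1 := by
  have hmin : minpoly ℤ hζ.integralPowerBasis.gen = cyclotomic ℓ ℤ := by
    rw [hζ.integralPowerBasis_gen, cyclotomic_eq_minpoly hζ hp.out.pos]
    exact (minpoly.algebraMap_eq (RingOfIntegers.coe_injective (K := K)) hζ.toInteger).symm
  have h0 : aeval t (minpoly ℤ hζ.integralPowerBasis.gen) = 0 := by
    rw [hmin, cyclotomic_prime, map_sum]
    simp only [map_pow, aeval_X]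
    exact ht
  refine ⟨(hζ.integralPowerBasis.lift t h0).toRingHom, ?_⟩
  rw [map_sub, map_one]
  congr 1
  have := hζ.integralPowerBasis.lift_gen t h0
  rw [hζ.integralPowerBasis_gen] at this
  exact this

end

section

variable {ℓ : ℕ} [hp : Fact ℓ.Prime] {K L : Type} [Field K] [NumberField K] [Field L]
  [NumberField L] [Algebra K L] [hK : IsCyclotomicExtension {ℓ} ℚ K] {ζ : K}
  (hζ : IsPrimitiveRoot ζ ℓ)

include hp hK in
theorem card_places (hℓ : 2 < ℓ) (hdeg : Module.finrank K L = ℓ) :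
    Fintype.card (InfinitePlace L) = ℓ * Fintype.card (InfinitePlace K) := by
  have h1 : IsTotallyComplex K := IsCyclotomicExtension.Rat.isTotallyComplex K hℓ
  have h2 : IsTotallyComplex L := isTotallyComplex_of_algebra K L
  have h3 := IsTotallyComplex.finrank K
  have h4 := IsTotallyComplex.finrank L
  have h5 := Module.finrank_mul_finrank ℚ K L
  rw [InfinitePlace.card_eq_nrRealPlaces_add_nrComplexPlaces,
    InfinitePlace.card_eq_nrRealPlaces_add_nrComplexPlaces,
    IsTotallyComplex.nrRealPlaces_eq_zero K, IsTotallyComplex.nrRealPlaces_eq_zero L, zero_add,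
    zero_add]
  rw [hdeg, h3, h4] at h5
  have : 2 * (ℓ * InfinitePlace.nrComplexPlaces K) = 2 * InfinitePlace.nrComplexPlaces L := by
    rw [← h5]; ring
  omega

/-- the action on the units of the ring of integers -/
noncomputable def su (σ : L ≃ₐ[K] L) : (𝓞 L)ˣ →* (𝓞 L)ˣ :=
  Units.map (galRestrict (𝓞 K) K L (𝓞 L) σ : 𝓞 L →* 𝓞 L)

lemma su_coe (σ : L ≃ₐ[K] L) (x : (𝓞 L)ˣ) : (((su σ x : (𝓞 L)ˣ) : 𝓞 L) : L) = σ ((x : 𝓞 L) : L) :=
  algebraMap_galRestrict_apply (𝓞 K) σ (x : 𝓞 L)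

lemma unit_ext {x y : (𝓞 L)ˣ} (h : ((x : 𝓞 L) : L) = ((y : 𝓞 L) : L)) : x = y :=
  Units.ext (RingOfIntegers.ext h)

/-- the action on the units as a linear map -/
noncomputable def sl (σ : L ≃ₐ[K] L) : Module.End ℤ (Additive (𝓞 L)ˣ) :=
  (MonoidHom.toAdditive (su σ)).toIntLinearMap

lemma sl_apply (σ : L ≃ₐ[K] L) (x : (𝓞 L)ˣ) :
    sl σ (Additive.ofMul x) = Additive.ofMul (su σ x) := rfl

lemma sl_pow (σ : L ≃ₐ[K] L) (i : ℕ) (x : (𝓞 L)ˣ) :
    (sl σ ^ i) (Additive.ofMul x) = Additive.ofMul (su (σ ^ i) x) := by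
  induction i generalizing x with
  | zero =>
    rw [pow_zero, pow_zero, Module.End.one_apply]
    congr 1
    apply unit_ext
    rw [su_coe]
    rfl
  | succ i ih =>
    rw [pow_succ, Module.End.mul_apply, sl_apply, ih]
    congr 1
    apply unit_ext
    rw [su_coe, su_coe, su_coe, pow_succ]
    rfl

lemma fixed_iff [IsGalois K L] {σ : L ≃ₐ[K] L} (hσ : ∀ τ, τ ∈ Subgroup.zpowers σ) {x : L}
    (hx : σ x = x) : ∃ k : K, algebraMap K L k = x := by
  have h1 : x ∈ (⊥ : IntermediateField K L) := by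
    rw [IsGalois.mem_bot_iff_fixed]
    intro τ
    obtain ⟨n, rfl⟩ := Subgroup.mem_zpowers_iff.1 (hσ τ)
    have : σ ∈ MulAction.stabilizer (L ≃ₐ[K] L) x := hx
    exact Subgroup.zpow_mem _ this n
  obtain ⟨k, hk⟩ := IntermediateField.mem_bot.1 h1
  exact ⟨k, hk⟩

/-- the units of the ground field are the fixed units -/
noncomputable def ufix [IsGalois K L] {σ : L ≃ₐ[K] L} (hσ : ∀ τ, τ ∈ Subgroup.zpowers σ) :
    Additive (𝓞 K)ˣ ≃ₗ[ℤ] LinearMap.ker (sl σ - 1) :=
  LinearEquiv.ofBijective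
    (LinearMap.codRestrict _
      ((MonoidHom.toAdditive (Units.map (algebraMap (𝓞 K) (𝓞 L) : 𝓞 K →* 𝓞 L))).toIntLinearMap)
      (by
        intro x
        rw [LinearMap.mem_ker, LinearMap.sub_apply, sub_eq_zero, Module.End.one_apply]
        apply unit_ext
        change ((((su σ) (Units.map (algebraMap (𝓞 K) (𝓞 L) : 𝓞 K →* 𝓞 L) x.toMul) :
          (𝓞 L)ˣ) : 𝓞 L) : L) = _
        rw [su_coe]
        change σ (algebraMap (𝓞 L) L (algebraMap (𝓞 K) (𝓞 L) (x.toMul : (𝓞 K)ˣ))) =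
          algebraMap (𝓞 L) L (algebraMap (𝓞 K) (𝓞 L) (x.toMul : (𝓞 K)ˣ))
        rw [← IsScalarTower.algebraMap_apply, IsScalarTower.algebraMap_apply (𝓞 K) K L]
        exact σ.commutes _))
    (by
      constructor
      · intro x y hxy
        have h1 := congrArg Subtype.val hxy
        have h2 : algebraMap (𝓞 K) (𝓞 L) (x.toMul : (𝓞 K)ˣ) =
          algebraMap (𝓞 K) (𝓞 L) (y.toMul : (𝓞 K)ˣ) := congrArg Units.val h1
        have h3 := FaithfulSMul.algebraMap_injective (𝓞 K) (𝓞 L) h2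
        exact Units.ext h3
      · rintro ⟨x, hx⟩
        rw [LinearMap.mem_ker, LinearMap.sub_apply, sub_eq_zero, Module.End.one_apply] at hx
        have h1 : σ ((((x.toMul : (𝓞 L)ˣ) : 𝓞 L)) : L) = (((x.toMul : (𝓞 L)ˣ) : 𝓞 L) : L) := by
          rw [← su_coe]
          exact congrArg (fun u : (𝓞 L)ˣ => ((u : 𝓞 L) : L)) hx
        have h2 : σ (((((x.toMul)⁻¹ : (𝓞 L)ˣ) : 𝓞 L)) : L) =
            ((((x.toMul)⁻¹ : (𝓞 L)ˣ) : 𝓞 L) : L) := by
          rw [← su_coe]
          exact congrArg (fun u : (𝓞 L)ˣ => (((u⁻¹ : (𝓞 L)ˣ) : 𝓞 L) : L)) hx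
        obtain ⟨k, hk⟩ := fixed_iff hσ h1
        obtain ⟨k', hk'⟩ := fixed_iff hσ h2
        have i1 : IsIntegral ℤ k := by
          rw [← isIntegral_algebraMap_iff (algebraMap K L).injective, hk]
          exact RingOfIntegers.isIntegral_coe _
        have i2 : IsIntegral ℤ k' := by
          rw [← isIntegral_algebraMap_iff (algebraMap K L).injective, hk']
          exact RingOfIntegers.isIntegral_coe _
        have h3 : k * k' = 1 := by
          apply (algebraMap K L).injective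
          rw [map_mul, hk, hk', map_one]
          change algebraMap (𝓞 L) L ((x.toMul : (𝓞 L)ˣ) : 𝓞 L) *
            algebraMap (𝓞 L) L (((x.toMul)⁻¹ : (𝓞 L)ˣ) : 𝓞 L) = 1
          rw [← map_mul, Units.mul_inv, map_one]
        let u : (𝓞 K)ˣ := ⟨⟨k, i1⟩, ⟨k', i2⟩, RingOfIntegers.ext h3,
          RingOfIntegers.ext (by rw [mul_comm] at h3; exact h3)⟩
        refine ⟨Additive.ofMul u, ?_⟩
        apply Subtype.ext
        apply unit_ext
        exact hk)

end

end Pool.Agent.Y158.KL
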