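import Pool.Agent.Y158.KL.Cmp
import Pool.Agent.Y158.KL.Cls

/-!
# The prime above `ℓ` of the cyclotomic field `ℚ(ζ_ℓ)`
-/

set_option autoImplicit false
set_option linter.unusedSectionVars false

namespace Pool.Agent.Y158.KL

open NumberField IsDedekindDomain WithZero Polynomial

variable {K : Type*} [Field K] [NumberField K] {ℓ : ℕ} [hp : Fact ℓ.Prime]
  [hK : IsCyclotomicExtension {ℓ} ℚ K] {ζ : K} (hζ : IsPrimitiveRoot ζ ℓ)

include hK in
lemma pi_ne_zero : hζ.toInteger - 1 ≠ 0 := hζ.zeta_sub_one_prime'.ne_zero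

/-- the prime above `ℓ` -/
noncomputable def lam : HeightOneSpectrum (𝓞 K) where
  asIdeal := Ideal.span {hζ.toInteger - 1}
  isPrime := by
    rw [Ideal.span_singleton_prime (pi_ne_zero hζ)]
    exact hζ.zeta_sub_one_prime'
  ne_bot := by
    rw [Ne, Ideal.span_singleton_eq_bot]
    exact pi_ne_zero hζ

lemma lam_pi : (lam hζ).intValuation (hζ.toInteger - 1) = exp (-1) :=
  (lam hζ).intValuation_singleton (pi_ne_zero hζ) rfl

lemma lam_assoc {v : HeightOneSpectrum (𝓞 K)} {a b : 𝓞 K} (h : Associated a b) :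
    v.intValuation a = v.intValuation b := by
  obtain ⟨u, rfl⟩ := h
  have : v.intValuation (u : 𝓞 K) = 1 := by
    rw [HeightOneSpectrum.intValuation_eq_one_iff]
    intro hu
    exact v.isPrime.ne_top (Ideal.eq_top_of_isUnit_mem _ hu u.isUnit)
  rw [map_mul, this, mul_one]

lemma val_unit (v : HeightOneSpectrum (𝓞 K)) (u : (𝓞 K)ˣ) : v.intValuation (u : 𝓞 K) = 1 := by
  have h := lam_assoc (v := v) (a := 1) (b := u) ⟨u, one_mul _⟩
  rw [← h, map_one]

lemma lam_ell : (lam hζ).intValuation (ℓ : 𝓞 K) = exp (-((ℓ - 1 : ℕ) : ℤ)) := by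
  rw [← lam_assoc (v := lam hζ)
    (IsCyclotomicExtension.Rat.associated_zeta_sub_one_pow_prime ℓ hζ),
    map_pow, lam_pi, exp_pow]
  congr 1
  ring

lemma lam_dvd (a : 𝓞 K) (n : ℕ) :
    (lam hζ).intValuation a ≤ exp (-(n : ℤ)) ↔ (hζ.toInteger - 1) ^ n ∣ a := by
  rw [HeightOneSpectrum.intValuation_le_pow_iff_mem]
  change a ∈ (Ideal.span {hζ.toInteger - 1}) ^ n ↔ _
  rw [Ideal.span_singleton_pow, Ideal.mem_span_singleton]

lemma ell_dvd_of {a : 𝓞 K} (h : (lam hζ).intValuation a ≤ exp (-((ℓ - 1 : ℕ) : ℤ))) :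
    (ℓ : 𝓞 K) ∣ a := by
  rw [lam_dvd] at h
  exact ((IsCyclotomicExtension.Rat.associated_zeta_sub_one_pow_prime ℓ hζ).symm.dvd).trans h

lemma other_pi {v : HeightOneSpectrum (𝓞 K)} (hv : v ≠ lam hζ) :
    v.intValuation (hζ.toInteger - 1) = 1 := by
  rw [HeightOneSpectrum.intValuation_eq_one_iff]
  intro h
  apply hv
  have h1 : (lam hζ).asIdeal ≤ v.asIdeal := by
    change Ideal.span {hζ.toInteger - 1} ≤ _
    rw [Ideal.span_singleton_le_iff_mem]
    exact h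
  have h2 : (lam hζ).asIdeal.IsMaximal := (lam hζ).isMaximal
  exact (HeightOneSpectrum.ext (h2.eq_of_le v.isPrime.ne_top h1)).symm

/-- differences of roots of unity -/
lemma diff_assoc {i j : ℕ} (h : hζ.toInteger ^ i ≠ hζ.toInteger ^ j) :
    Associated (hζ.toInteger - 1) (hζ.toInteger ^ i - hζ.toInteger ^ j) := by
  have hz := hζ.toInteger_isPrimitiveRoot
  have hmem : ∀ k : ℕ, hζ.toInteger ^ k ∈ nthRootsFinset ℓ (1 : 𝓞 K) := by
    intro k
    rw [mem_nthRootsFinset hp.out.pos, ← pow_mul, mul_comm, pow_mul, hz.pow_eq_one, one_pow]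
  exact hz.nthRootsFinset_pairwise_associated_sub_one_sub_of_prime hp.out (hmem i) (hmem j) h

/-- integers are congruent to rational integers modulo the prime above `ℓ` -/
lemma res_int (a : 𝓞 K) : ∃ n : ℤ, hζ.toInteger - 1 ∣ a - n := by
  have hadj : a ∈ Algebra.adjoin ℤ {hζ.toInteger} := by
    have h1 := IsCyclotomicExtension.adjoin_primitive_root_eq_top (A := ℤ) (B := 𝓞 K)
      hζ.toInteger_isPrimitiveRoot
    rw [h1]
    exact Algebra.mem_top
  refine Algebra.adjoin_induction (p := fun a _ => ∃ n : ℤ, hζ.toInteger - 1 ∣ a - n)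
    ?_ ?_ ?_ ?_ hadj
  · rintro x rfl
    exact ⟨1, by simp⟩
  · intro r
    refine ⟨r, ?_⟩
    simp
  · rintro x y _ _ ⟨n, hn⟩ ⟨m, hm⟩
    refine ⟨n + m, ?_⟩
    have e : x + y - ((n + m : ℤ) : 𝓞 K) = (x - n) + (y - m) := by
      push_cast
      ring
    rw [e]
    exact dvd_add hn hm
  · rintro x y _ _ ⟨n, hn⟩ ⟨m, hm⟩
    refine ⟨n * m, ?_⟩
    have e : x * y - ((n * m : ℤ) : 𝓞 K) = (x - n) * y + n * (y - m) := by
      push_cast
      ring
    rw [e]
    exact dvd_add (hn.mul_right y) (hm.mul_left _)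

/-- the completion at the prime above `ℓ` -/
abbrev Kl : Type _ := (lam hζ).adicCompletion K

/-- the embedding in the completion -/
noncomputable def cm : K →+* Kl hζ := algebraMap K ((lam hζ).adicCompletion K)

/-- the valuation on the completion -/
noncomputable def V : Valuation (Kl hζ) (WithZero (Multiplicative ℤ)) := Vv (lam hζ)

lemma V_int (a : 𝓞 K) : V hζ (cm hζ (algebraMap (𝓞 K) K a)) = (lam hζ).intValuation a :=
  Vv_int _ a

lemma V_cm (a : K) : V hζ (cm hζ a) = (lam hζ).valuation K a := Vv_coe _ a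

lemma V_ell : V hζ (ℓ : Kl hζ) = exp (-((ℓ - 1 : ℕ) : ℤ)) := by
  have h := V_int hζ (ℓ : 𝓞 K)
  rw [map_natCast, map_natCast, lam_ell] at h
  exact h

lemma lt_one_iff (w : Kl hζ) : V hζ w < 1 ↔ V hζ w ≤ exp (-1) := by
  rcases eq_or_ne (V hζ w) 0 with h | h
  · rw [h]
    simp
  · obtain ⟨m, hm⟩ := exists_exp h
    rw [hm, ← exp_zero, exp_lt_exp, exp_le_exp]
    omega

/-- integers of the completion are congruent to rational integers -/
lemma near_rat {w : Kl hζ} (hw : V hζ w ≤ 1) : ∃ n : ℤ, V hζ (w - n) ≤ exp (-1) := by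
  obtain ⟨a, ha⟩ := near_int (lam hζ) w hw 1
  obtain ⟨n, hn⟩ := res_int hζ a
  refine ⟨n, ?_⟩
  have e : w - n = (w - cm hζ (algebraMap (𝓞 K) K a)) + cm hζ (algebraMap (𝓞 K) K (a - n)) := by
    rw [map_sub, map_sub, map_intCast, map_intCast]
    ring
  rw [e]
  refine Valuation.map_add_le _ ha ?_
  rw [V_int]
  exact (lam_dvd hζ (a - n) 1).2 (by rwa [pow_one])

lemma V_intCast (n : ℤ) : V hζ (n : Kl hζ) ≤ 1 := by
  have h := V_int hζ (n : 𝓞 K)
  rw [map_intCast, map_intCast] at h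
  rw [h]
  exact HeightOneSpectrum.intValuation_le_one _ _

/-- sums and `ℓ`-th powers -/
lemma add_pow_near {x y : Kl hζ} (hx : V hζ x ≤ 1) (hy : V hζ y ≤ 1) :
    ∃ r : Kl hζ, V hζ r ≤ 1 ∧ (x + y) ^ ℓ = x ^ ℓ + y ^ ℓ + ℓ * x * y * r := by
  obtain ⟨r, hr⟩ := exists_add_pow_prime_eq hp.out (⟨x, hx⟩ : (V hζ).integer) ⟨y, hy⟩
  refine ⟨r, r.2, ?_⟩
  have := congrArg Subtype.val hr
  push_cast at this
  exact this

/-- `ℓ`-th powers are congruent to rational integers modulo `ℓ` -/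
lemma pow_near {w : Kl hζ} (hw : V hζ w ≤ 1) :
    ∃ n : ℤ, V hζ (w ^ ℓ - n) ≤ exp (-((ℓ - 1 : ℕ) : ℤ)) := by
  obtain ⟨n, hn⟩ := near_rat hζ hw
  have hn1 : V hζ (w - n) ≤ 1 := hn.trans (by rw [← exp_zero, exp_le_exp]; omega)
  obtain ⟨r, hr1, hr⟩ := add_pow_near hζ (V_intCast hζ n) hn1
  refine ⟨n ^ ℓ, ?_⟩
  have e : w ^ ℓ - ((n ^ ℓ : ℤ) : Kl hζ) = (w - n) ^ ℓ + ℓ * (n * (w - n) * r) := by
    have e1 : (n : Kl hζ) + (w - n) = w := by ring
    rw [e1] at hr
    rw [hr]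
    push_cast
    ring
  rw [e]
  refine Valuation.map_add_le _ ?_ ?_
  · rw [map_pow]
    refine (pow_le_pow_left₀ zero_le hn ℓ).trans ?_
    rw [exp_pow, exp_le_exp]
    have := hp.out.pos
    omega
  · rw [map_mul, V_ell, map_mul, map_mul]
    refine mul_le_of_le_one_right zero_le ?_
    exact mul_le_one' (mul_le_one' (V_intCast hζ n) hn1) hr1

end Pool.Agent.Y158.KL
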