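import Pool.Agent.Y158.KL.Hil4

/-!
# Kummer extensions generated by a root of a primary unit are unramified
-/

set_option autoImplicit false
set_option linter.unusedSectionVars false

namespace Pool.Agent.Y158.KL

open NumberField IsDedekindDomain Polynomial

section poly

variable {R : Type*} [CommRing R] [IsDomain R]

/-- the polynomial `((1 + π X) ^ ℓ - u) / π ^ ℓ` -/
theorem exists_poly {ℓ : ℕ} (hp : ℓ.Prime) {π : R} (hπ0 : π ≠ 0) (hπ : π ^ (ℓ - 1) ∣ (ℓ : R)) {u : R}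
    (hu : π ^ ℓ ∣ u - 1) : ∃ g : R[X], g.Monic ∧ C (π ^ ℓ) * g = (1 + C π * X) ^ ℓ - C u := by
  have hℓ := hp.pos
  have hco : ∀ i, ((1 + C π * X) ^ ℓ : R[X]).coeff i = (ℓ.choose i : R) * π ^ i := by
    intro i
    have h1 : (1 + C π * X : R[X]) ^ ℓ = ((1 + X) ^ ℓ : R[X]).comp (C π * X) := by
      rw [pow_comp, add_comp, one_comp, X_comp]
    rw [h1, comp_C_mul_X_coeff, coeff_one_add_X_pow]
  obtain ⟨g, hg⟩ : C (π ^ ℓ) ∣ ((1 + C π * X) ^ ℓ - C u : R[X]) := by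
    rw [C_dvd_iff_dvd_coeff]
    intro i
    rw [coeff_sub, hco]
    rcases Nat.eq_zero_or_pos i with rfl | hi
    · rw [coeff_C_zero, Nat.choose_zero_right, pow_zero, Nat.cast_one, one_mul,
        ← neg_sub, dvd_neg]
      exact hu
    · rw [coeff_C_of_ne_zero hi.ne', sub_zero]
      rcases lt_trichotomy i ℓ with h | rfl | h
      · have h1 : ℓ ∣ ℓ.choose i := hp.dvd_choose_self hi.ne' h
        obtain ⟨c, hc⟩ := h1
        have h2 : π ^ ℓ = π ^ (ℓ - 1) * π := by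
          rw [← pow_succ, Nat.sub_add_cancel hℓ]
        rw [h2, hc, Nat.cast_mul]
        exact mul_dvd_mul (hπ.mul_right _) (dvd_pow_self π hi.ne')
      · exact Dvd.intro_left _ rfl
      · rw [Nat.choose_eq_zero_of_lt h, Nat.cast_zero, zero_mul]
        exact dvd_zero _
  have hco2 : ∀ i, 0 < i → π ^ ℓ * g.coeff i = (ℓ.choose i : R) * π ^ i := by
    intro i hi
    rw [← coeff_C_mul, ← hg, coeff_sub, hco, coeff_C_of_ne_zero hi.ne', sub_zero]
  have hπℓ : π ^ ℓ ≠ 0 := pow_ne_zero _ hπ0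
  refine ⟨g, ?_, hg.symm⟩
  apply monic_of_natDegree_le_of_coeff_eq_one ℓ
  · rw [natDegree_le_iff_coeff_eq_zero]
    intro i hi
    have h1 := hco2 i (by omega)
    rw [Nat.choose_eq_zero_of_lt hi, Nat.cast_zero, zero_mul] at h1
    exact (mul_eq_zero.1 h1).resolve_left hπℓ
  · have h1 := hco2 ℓ hℓ
    rw [Nat.choose_self, Nat.cast_one, one_mul] at h1
    exact mul_left_cancel₀ hπℓ (by rw [h1, mul_one])

end poly

variable {ℓ : ℕ} [hp : Fact ℓ.Prime] {K L : Type} [Field K] [NumberField K] [Field L]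
  [NumberField L] [Algebra K L]

attribute [local instance] FractionRing.liftAlgebra in
theorem unram_of_unit (Y : 𝓞 L) (hY : Algebra.adjoin K {algebraMap (𝓞 L) L Y} = ⊤) (g : (𝓞 K)[X])
    (hg : aeval Y g = 0) (hg' : IsUnit (aeval Y (derivative g))) (v : HeightOneSpectrum (𝓞 K)) :
    ∃ w : HeightOneSpectrum (𝓞 L), ∀ x : K,
      w.valuation L (algebraMap K L x) = v.valuation K x := by
  have hint : IsIntegral (𝓞 K) Y := IsIntegralClosure.isIntegral (𝓞 K) L Y
  obtain ⟨q, hq⟩ : minpoly (𝓞 K) Y ∣ g := minpoly.isIntegrallyClosed_dvd hint hg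
  have h1 : IsUnit (aeval Y (derivative (minpoly (𝓞 K) Y))) := by
    rw [hq, derivative_mul, map_add, map_mul, map_mul, minpoly.aeval, zero_mul, add_zero] at hg'
    exact isUnit_of_mul_isUnit_left hg'
  have h2 : differentIdeal (𝓞 K) (𝓞 L) = ⊤ :=
    Ideal.eq_top_of_isUnit_mem _ (aeval_derivative_mem_differentIdeal (𝓞 K) K L Y hY) h1
  obtain ⟨Q, hQ, hQl⟩ := Ideal.exists_maximal_ideal_liesOver_of_isIntegral (S := 𝓞 L) v.asIdeal
  have hQp : Q.IsPrime := hQ.isPrime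
  have hQ0 : Q ≠ ⊥ := Ideal.ne_bot_of_liesOver_of_ne_bot v.ne_bot Q
  let w : HeightOneSpectrum (𝓞 L) := ⟨Q, hQp, hQ0⟩
  have hsep : Algebra.IsSeparable (FractionRing (𝓞 K)) (FractionRing (𝓞 L)) := inferInstance
  have h3 : Algebra.IsUnramifiedAt (𝓞 K) Q := by
    rw [← not_dvd_differentIdeal_iff, h2]
    intro h
    apply hQp.ne_top
    exact top_le_iff.1 (Ideal.dvd_iff_le.1 h)
  let := Localization.AtPrime.algebraOfLiesOver (Q.under (𝓞 K)) Q
  have h4 := ((Algebra.isUnramifiedAt_iff_map_eq (𝓞 K) (Q.under (𝓞 K)) Q).1 h3).2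
  have h5 : Ideal.ramificationIdx' (Q.under (𝓞 K)) Q = 1 :=
    (Ideal.IsDedekindDomain.ramificationIdx'_eq_one_iff hQ0 Ideal.map_comap_le).2 h4
  have h6 : v.asIdeal = Q.under (𝓞 K) := hQl.over
  rw [← h6] at h5
  refine ⟨w, fun x => ?_⟩
  have hl : w.asIdeal.LiesOver v.asIdeal := hQl
  rw [← HeightOneSpectrum.valuation_liesOver L v w x]
  change v.valuation K x ^ (Ideal.ramificationIdx' v.asIdeal Q) = _
  rw [h5, pow_one]

end Pool.Agent.Y158.KL
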