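import Pool.Agent.Y158.KL.Hil5
import Pool.Agent.Y158.KL.Case2c

/-!
# Kummer's lemma
-/

set_option autoImplicit false
set_option linter.unusedSectionVars false

namespace Pool.Agent.Y158.KL

open NumberField IsDedekindDomain Polynomial

variable {ℓ : ℕ} [hp : Fact ℓ.Prime] {K : Type} [Field K] [NumberField K]
  [hK : IsCyclotomicExtension {ℓ} ℚ K] {ζ : K} (hζ : IsPrimitiveRoot ζ ℓ)

/-- an `ℓ`-th root of a unit is a unit -/
theorem unit_root (u : (𝓞 K)ˣ) {b : K} (hb : b ^ ℓ = algebraMap (𝓞 K) K u) :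
    ∃ η : (𝓞 K)ˣ, u = η ^ ℓ := by
  have hℓ := hp.out.pos
  have i1 : IsIntegral ℤ b := by
    apply IsIntegral.of_pow hℓ
    rw [hb]
    exact RingOfIntegers.isIntegral_coe _
  obtain ⟨b', hb'⟩ : ∃ b' : 𝓞 K, algebraMap (𝓞 K) K b' = b := ⟨⟨b, i1⟩, rfl⟩
  have h1 : b' ^ ℓ = (u : 𝓞 K) := by
    apply FaithfulSMul.algebraMap_injective (𝓞 K) K
    rw [map_pow, hb', hb]
  have h2 : IsUnit b' := by
    rw [← isUnit_pow_iff hℓ.ne', h1]
    exact u.isUnit
  refine ⟨h2.unit, ?_⟩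
  apply Units.ext
  rw [Units.val_pow_eq_pow_val, IsUnit.unit_spec, h1]

include hζ in
/-- a primary unit is an `ℓ`-th power -/
theorem primary_unit (hℓ2 : 2 < ℓ) (hcop : (classNumber K).Coprime ℓ) (u : (𝓞 K)ˣ)
    (hu : (hζ.toInteger - 1) ^ ℓ ∣ (u : 𝓞 K) - 1) : ∃ η : (𝓞 K)ˣ, u = η ^ ℓ := by
  classical
  by_contra hcon
  have hℓ := hp.out.pos
  have : NeZero ℓ := ⟨hp.out.ne_zero⟩
  have hirr : Irreducible (X ^ ℓ - C (algebraMap (𝓞 K) K u)) :=
    X_pow_sub_C_irreducible_of_prime hp.out fun b hb => hcon (unit_root u hb)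
  have hne : (primitiveRoots ℓ K).Nonempty := ⟨ζ, (mem_primitiveRoots hℓ).2 hζ⟩
  let L : Type := (X ^ ℓ - C (algebraMap (𝓞 K) K u)).SplittingField
  have hfd : FiniteDimensional K L := inferInstance
  have hchar : CharZero L := charZero_of_injective_algebraMap (algebraMap K L).injective
  have hL : NumberField L :=
    { to_charZero := hchar
      to_finiteDimensional := by
        have : FiniteDimensional ℚ L := FiniteDimensional.trans ℚ K L
        exact this }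
  have hG : IsGalois K L := isGalois_of_isSplittingField_X_pow_sub_C hne hirr L
  have hcyc : IsCyclic (L ≃ₐ[K] L) := isCyclic_of_isSplittingField_X_pow_sub_C hne hirr L
  have hdeg : Module.finrank K L = ℓ := finrank_of_isSplittingField_X_pow_sub_C hne hirr L
  obtain ⟨σ, hσ⟩ := hcyc.exists_generator
  obtain ⟨θ, hθ⟩ : ∃ θ : L, θ ^ ℓ = algebraMap K L (algebraMap (𝓞 K) K u) :=
    ⟨_, rootOfSplitsXPowSubC_pow (n := ℓ) (a := algebraMap (𝓞 K) K u) L⟩
  have hadj : Algebra.adjoin K {θ} = ⊤ :=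
    Algebra.adjoin_root_eq_top_of_isSplittingField hne hirr hθ
  have hπ0 : hζ.toInteger - 1 ≠ 0 := pi_ne_zero hζ
  obtain ⟨ε, hε⟩ := IsCyclotomicExtension.Rat.associated_zeta_sub_one_pow_prime ℓ hζ
  obtain ⟨g, hgm, hg⟩ := exists_poly hp.out hπ0 (Dvd.intro _ hε) hu
  obtain ⟨π, hπ⟩ : ∃ π : 𝓞 K, π = hζ.toInteger - 1 := ⟨_, rfl⟩
  rw [← hπ] at hπ0 hε hg hu
  have hπL : algebraMap (𝓞 K) L π ≠ 0 :=
    (map_ne_zero_iff _ (FaithfulSMul.algebraMap_injective (𝓞 K) L)).2 hπ0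
  obtain ⟨y, hy⟩ : ∃ y : L, y = (θ - 1) / algebraMap (𝓞 K) L π := ⟨_, rfl⟩
  have hyθ : 1 + algebraMap (𝓞 K) L π * y = θ := by
    rw [hy, mul_div_cancel₀ _ hπL, add_sub_cancel]
  have hgy : aeval y g = 0 := by
    have h1 := congrArg (aeval y) hg
    simp only [map_mul, aeval_C, map_sub, map_pow, map_add, map_one, aeval_X] at h1
    rw [hyθ, hθ, ← IsScalarTower.algebraMap_apply, sub_self] at h1
    exact (mul_eq_zero.1 h1).resolve_left (pow_ne_zero _ hπL)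
  have hyint : IsIntegral (𝓞 K) y := ⟨g, hgm, hgy⟩
  have hyZ : IsIntegral ℤ y := isIntegral_trans (R := ℤ) (A := 𝓞 K) y hyint
  let Y : 𝓞 L := ⟨y, hyZ⟩
  have hYy : algebraMap (𝓞 L) L Y = y := rfl
  have hgY : aeval Y g = 0 := by
    apply FaithfulSMul.algebraMap_injective (𝓞 L) L
    rw [← aeval_algebraMap_apply, hYy, hgy, map_zero]
  have hYtop : Algebra.adjoin K {algebraMap (𝓞 L) L Y} = ⊤ := by
    rw [← top_le_iff, ← hadj]
    apply Algebra.adjoin_le
    rintro _ rfl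
    rw [SetLike.mem_coe, ← hyθ, hYy, IsScalarTower.algebraMap_apply (𝓞 K) K L]
    exact add_mem (one_mem _) (mul_mem (Subalgebra.algebraMap_mem _ _)
      (Algebra.subset_adjoin rfl))
  obtain ⟨T, hT⟩ : ∃ T : 𝓞 L, T = 1 + algebraMap (𝓞 K) (𝓞 L) π * Y := ⟨_, rfl⟩
  have hTu : IsUnit T := by
    have h1 : T ^ ℓ = algebraMap (𝓞 K) (𝓞 L) u := by
      apply FaithfulSMul.algebraMap_injective (𝓞 L) L
      rw [hT, map_pow, map_add, map_one, map_mul, ← IsScalarTower.algebraMap_apply, hYy, hyθ, hθ,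
        ← IsScalarTower.algebraMap_apply, ← IsScalarTower.algebraMap_apply]
    rw [← isUnit_pow_iff hℓ.ne', h1]
    exact u.isUnit.map _
  have hder : IsUnit (aeval Y (derivative g)) := by
    have h0 := congrArg derivative hg
    rw [derivative_C_mul, derivative_sub, derivative_C, sub_zero, derivative_pow, derivative_add,
      derivative_one, zero_add, derivative_C_mul, derivative_X, mul_one] at h0
    have h1 := congrArg (aeval Y) h0
    simp only [map_mul, map_pow, map_add, map_one, aeval_C, aeval_X] at h1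
    rw [← hT] at h1
    have h2 : aeval Y (derivative g) = algebraMap (𝓞 K) (𝓞 L) ε * T ^ (ℓ - 1) := by
      have hπ' : algebraMap (𝓞 K) (𝓞 L) π ^ ℓ ≠ 0 := pow_ne_zero _
        ((map_ne_zero_iff _ (FaithfulSMul.algebraMap_injective (𝓞 K) (𝓞 L))).2 hπ0)
      apply mul_left_cancel₀ hπ'
      rw [h1]
      have h3 : (ℓ : 𝓞 L) = algebraMap (𝓞 K) (𝓞 L) π ^ (ℓ - 1) * algebraMap (𝓞 K) (𝓞 L) ε := by
        rw [← map_pow, ← map_mul, hε, map_natCast]
      obtain ⟨m, hm⟩ : ∃ m, ℓ = m + 1 := ⟨ℓ - 1, by omega⟩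
      have h4 : algebraMap (𝓞 K) (𝓞 L) π ^ ℓ =
          algebraMap (𝓞 K) (𝓞 L) π ^ (ℓ - 1) * algebraMap (𝓞 K) (𝓞 L) π := by
        rw [← pow_succ, Nat.sub_add_cancel hℓ]
      have h5 : aeval Y (C (ℓ : 𝓞 K)) = (ℓ : 𝓞 L) := by
        rw [aeval_C, map_natCast]
      rw [h4]
      simp only [map_natCast] at h5 ⊢
      rw [h3]
      ring
    rw [h2]
    exact (ε.isUnit.map _).mul (hTu.pow _)
  exact hilb94 hζ hσ hdeg hℓ2 hcop (unram_of_unit Y hYtop g hgY hder)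

end Pool.Agent.Y158.KL
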