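import Mathlib

/-!
# The functions `x + ζ ^ i` on a Fermat curve are `ℓ`-th powers up to units
-/

set_option autoImplicit false

namespace Pool.Agent.Y158.KL

open Polynomial

/-- The value of `x + ζ ^ i` is `1` or the `ℓ`-th power of the value of `z`, or all these values
are the value of `x`. -/
theorem fermat_values {L : Type*} [Field L] (O : ValuationSubring L) {ℓ : ℕ} (hℓ : 0 < ℓ)
    (hodd : Odd ℓ) {ζ : L} (hζ : IsPrimitiveRoot ζ ℓ)
    (hd : ∀ i j : ℕ, ζ ^ i ≠ ζ ^ j → O.valuation (ζ ^ i - ζ ^ j) = 1) {x z ε : L}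
    (hε : O.valuation ε = 1) (h : x ^ ℓ + 1 = ε * z ^ ℓ) :
    (∀ i : ℕ, O.valuation (x + ζ ^ i) = O.valuation x) ∨
      ∀ i : ℕ, O.valuation (x + ζ ^ i) = 1 ∨ O.valuation (x + ζ ^ i) = O.valuation z ^ ℓ := by
  have : NeZero ℓ := ⟨hℓ.ne'⟩
  have hvζ : O.valuation ζ = 1 := by
    have h1 : O.valuation ζ ^ ℓ = 1 := by rw [← map_pow, hζ.pow_eq_one, map_one]
    exact (pow_eq_one_iff_of_nonneg zero_le hℓ.ne').1 h1
  have hvζi : ∀ i : ℕ, O.valuation (ζ ^ i) = 1 := fun i => by rw [map_pow, hvζ, one_pow]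
  rcases lt_or_ge 1 (O.valuation x) with hx | hx
  · left
    intro i
    exact Valuation.map_add_eq_of_lt_left _ (by rw [hvζi]; exact hx)
  · right
    intro i
    have hle : O.valuation (x + ζ ^ i) ≤ 1 :=
      Valuation.map_add_le _ hx (hvζi i).le
    rcases hle.lt_or_eq with hlt | heq
    · right
      classical
      have hprod := hζ.pow_add_pow_eq_prod_add_mul x 1 hodd
      simp only [one_pow, mul_one] at hprod
      have hmem : ζ ^ i ∈ nthRootsFinset ℓ (1 : L) := by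
        rw [mem_nthRootsFinset hℓ, ← pow_mul, mul_comm, pow_mul, hζ.pow_eq_one, one_pow]
      rw [h, ← Finset.mul_prod_erase _ _ hmem] at hprod
      have hrest : O.valuation (∏ η ∈ (nthRootsFinset ℓ (1 : L)).erase (ζ ^ i), (x + η)) = 1 := by
        rw [map_prod]
        refine Finset.prod_eq_one fun η hη => ?_
        rw [Finset.mem_erase, mem_nthRootsFinset hℓ] at hη
        obtain ⟨k, -, rfl⟩ := hζ.eq_pow_of_pow_eq_one hη.2
        have e1 : x + ζ ^ k = (x + ζ ^ i) + (ζ ^ k - ζ ^ i) := by ring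
        rw [e1, Valuation.map_add_eq_of_lt_right _ (by rw [hd _ _ hη.1]; exact hlt),
          hd _ _ hη.1]
      have h2 := congrArg O.valuation hprod
      rw [map_mul, map_mul, hε, one_mul, map_pow, hrest, mul_one] at h2
      exact h2.symm
    · exact Or.inl heq

/-- The quotients of the `x + ζ ^ i` have the value of an `ℓ`-th power. -/
theorem fermat_local {L : Type*} [Field L] (O : ValuationSubring L) {ℓ : ℕ} (hℓ : 0 < ℓ)
    (hodd : Odd ℓ) {ζ : L} (hζ : IsPrimitiveRoot ζ ℓ)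
    (hd : ∀ i j : ℕ, ζ ^ i ≠ ζ ^ j → O.valuation (ζ ^ i - ζ ^ j) = 1) {x z ε : L}
    (hε : O.valuation ε = 1) (hz : z ≠ 0) (h : x ^ ℓ + 1 = ε * z ^ ℓ) (i j : ℕ) :
    ∃ t : L, t ≠ 0 ∧ O.valuation ((x + ζ ^ i) / (x + ζ ^ j)) = O.valuation t ^ ℓ := by
  have hε0 : ε ≠ 0 := by
    rintro rfl
    rw [map_zero] at hε
    exact zero_ne_one hε
  have hne : ∀ k : ℕ, x + ζ ^ k ≠ 0 := by
    intro k hk
    have h1 : x = -ζ ^ k := eq_neg_of_add_eq_zero_left hk
    have h2 : ε * z ^ ℓ = 0 := by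
      rw [← h, h1, Odd.neg_pow hodd, ← pow_mul, mul_comm, pow_mul, hζ.pow_eq_one, one_pow]
      ring
    exact mul_ne_zero hε0 (pow_ne_zero _ hz) h2
  have hv : ∀ k : ℕ, O.valuation (x + ζ ^ k) ≠ 0 := fun k => (Valuation.ne_zero_iff _).2 (hne k)
  have hz' : O.valuation z ≠ 0 := (Valuation.ne_zero_iff _).2 hz
  rcases fermat_values O hℓ hodd hζ hd hε h with h1 | h1
  · refine ⟨1, one_ne_zero, ?_⟩
    rw [map_div₀, h1 i, h1 j, map_one, one_pow, div_self]
    rw [← h1 i]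
    exact hv i
  · rw [map_div₀]
    rcases h1 i with hi | hi <;> rcases h1 j with hj | hj <;> rw [hi, hj]
    · exact ⟨1, one_ne_zero, by simp⟩
    · exact ⟨z⁻¹, inv_ne_zero hz, by rw [map_inv₀, inv_pow, one_div]⟩
    · exact ⟨z, hz, by simp⟩
    · exact ⟨1, one_ne_zero, by rw [map_one, one_pow, div_self (pow_ne_zero _ hz')]⟩

end Pool.Agent.Y158.KL
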