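import Pool.Agent.Y158.KL.Lam
import Pool.Agent.Y158.KL.Loc
import Pool.Agent.TH954.SVal

/-!
# Places with values in a valued field
-/

set_option autoImplicit false
set_option linter.unusedSectionVars false

namespace Pool.Agent.Y158.KL

open NumberField IsDedekindDomain WithZero Pool.Agent.TH954

section comp

variable {K L C Γ : Type} [Field K] [Field L] [Field C] [Algebra K L] [Algebra K C]
  [LinearOrderedCommGroupWithZero Γ] (pl : Plc K L C) (v : Valuation C Γ)

/-- the composite of a place and a valuation -/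
def comp : ValuationSubring L where
  carrier := {x | ∃ c, pl.val x c ∧ v c ≤ 1}
  mul_mem' := by
    rintro x y ⟨c, hc, h1⟩ ⟨d, hd, h2⟩
    exact ⟨c * d, hc.mul hd, by rw [map_mul]; exact mul_le_one' h1 h2⟩
  one_mem' := ⟨1, Plc.val_one, by rw [map_one]⟩
  add_mem' := by
    rintro x y ⟨c, hc, h1⟩ ⟨d, hd, h2⟩
    exact ⟨c + d, hc.add hd, Valuation.map_add_le _ h1 h2⟩
  zero_mem' := ⟨0, Plc.val_zero, by rw [map_zero]; exact zero_le⟩
  neg_mem' := by
    rintro x ⟨c, hc, h1⟩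
    refine ⟨-c, ?_, by rw [Valuation.map_neg]; exact h1⟩
    have := Plc.val_zero.sub hc
    rwa [zero_sub, zero_sub] at this
  mem_or_inv_mem' := by
    intro x
    by_cases hx : x ∈ pl.W
    · obtain ⟨c, hc⟩ := Plc.val_of_mem hx
      rcases le_or_gt (v c) 1 with h | h
      · exact Or.inl ⟨c, hc, h⟩
      · right
        have hc0 : c ≠ 0 := by
          rintro rfl
          rw [map_zero] at h
          exact absurd h (not_lt.2 zero_le)
        refine ⟨c⁻¹, hc.inv hc0, ?_⟩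
        rw [map_inv₀]
        exact inv_le_one_of_one_le₀ h.le
    · exact Or.inr ⟨0, Plc.val_inv_of_notMem hx, by rw [map_zero]; exact zero_le⟩

variable {pl v}

lemma mem_comp {x : L} : x ∈ comp pl v ↔ ∃ c, pl.val x c ∧ v c ≤ 1 := Iff.rfl

lemma comp_unit {x : L} (h : (comp pl v).valuation x = 1) : ∃ c, pl.val x c ∧ c ≠ 0 ∧ v c = 1 := by
  have hx0 : x ≠ 0 := by
    rintro rfl
    rw [map_zero] at h
    exact zero_ne_one h
  have h1 : x ∈ comp pl v := ((comp pl v).valuation_le_one_iff _).1 h.le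
  have h2 : x⁻¹ ∈ comp pl v := by
    rw [← (comp pl v).valuation_le_one_iff, map_inv₀, h, inv_one]
  obtain ⟨c, hc, hc1⟩ := mem_comp.1 h1
  obtain ⟨d, hd, hd1⟩ := mem_comp.1 h2
  have h3 := (hc.mul hd)
  rw [mul_inv_cancel₀ hx0] at h3
  have h4 : c * d = 1 := h3.unique Plc.val_one
  have hc0 : c ≠ 0 := left_ne_zero_of_mul_eq_one h4
  refine ⟨c, hc, hc0, le_antisymm hc1 ?_⟩
  have h5 := congrArg v h4
  rw [map_mul, map_one] at h5
  by_contra hlt
  push Not at hlt
  have h6 : v c * v d < 1 := mul_lt_one_of_lt_of_le hlt hd1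
  rw [h5] at h6
  exact lt_irrefl _ h6

lemma comp_of {x : L} {c : C} (hc : pl.val x c) (hc1 : v c = 1) : (comp pl v).valuation x = 1 := by
  have hc0 : c ≠ 0 := by
    rintro rfl
    rw [map_zero] at hc1
    exact zero_ne_one hc1
  have hx0 : x ≠ 0 := by
    rintro rfl
    exact hc0 (hc.unique Plc.val_zero)
  apply le_antisymm
  · rw [(comp pl v).valuation_le_one_iff]
    exact ⟨c, hc, hc1.le⟩
  · have h1 : x⁻¹ ∈ comp pl v := ⟨c⁻¹, hc.inv hc0, by rw [map_inv₀, hc1, inv_one]⟩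
    rw [← (comp pl v).valuation_le_one_iff, map_inv₀] at h1
    have h2 : (comp pl v).valuation x ≠ 0 := (Valuation.ne_zero_iff _).2 hx0
    exact (inv_le_one₀ (zero_lt_iff.2 h2)).1 h1

/-- the value of a constant which is a local `ℓ`-th power up to units -/
theorem const_val {ℓ : ℕ} (hℓ : 0 < ℓ) {c : K} (hc : c ≠ 0) {g t : L} (hg : g ≠ 0) (ht : t ≠ 0)
    (h : (comp pl v).valuation (algebraMap K L c * g ^ ℓ) = (comp pl v).valuation t ^ ℓ) :
    ∃ τ : C, τ ≠ 0 ∧ v (algebraMap K C c) = v τ ^ ℓ := by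
  have hcL : algebraMap K L c ≠ 0 := (map_ne_zero _).2 hc
  have hcC : algebraMap K C c ≠ 0 := (map_ne_zero _).2 hc
  have hh0 : t / g ≠ 0 := div_ne_zero ht hg
  have h1 : (comp pl v).valuation (algebraMap K L c / (t / g) ^ ℓ) = 1 := by
    have h2 : (comp pl v).valuation g ^ ℓ ≠ 0 := pow_ne_zero _ ((Valuation.ne_zero_iff _).2 hg)
    have h3 : (comp pl v).valuation t ^ ℓ ≠ 0 := pow_ne_zero _ ((Valuation.ne_zero_iff _).2 ht)
    rw [map_mul, map_pow] at h
    rw [map_div₀, map_pow, map_div₀, div_pow, div_div_eq_mul_div, h, div_self h3]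
  obtain ⟨u, hu, hu0, hu1⟩ := comp_unit h1
  have h4 := (Plc.val_alg (pl := pl) c).mul (hu.inv hu0)
  have e1 : algebraMap K L c * (algebraMap K L c / (t / g) ^ ℓ)⁻¹ = (t / g) ^ ℓ := by
    rw [inv_div, mul_div_cancel₀ _ hcL]
  rw [e1] at h4
  obtain ⟨τ, hτ⟩ := Plc.val_of_mem (Plc.mem_of_pow_mem hℓ h4.mem)
  have h5 := (hτ.pow ℓ).unique h4
  refine ⟨τ, ?_, ?_⟩
  · rintro rfl
    rw [zero_pow hℓ.ne'] at h5
    exact mul_ne_zero hcC (inv_ne_zero hu0) h5.symm
  · rw [← map_pow, h5, map_mul, map_inv₀, hu1, inv_one, mul_one]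

end comp

end Pool.Agent.Y158.KL
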