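import Pool.Agent.Y158.KL.Sec

/-!
# Kummer's theorem for sections
-/

set_option autoImplicit false
set_option linter.unusedSectionVars false

namespace Pool.Agent.Y158.KL

open NumberField IsDedekindDomain WithZero Pool.Agent.TH954 Pool.Agent.W620.SC

/-- the place of a section is compatible with the action -/
theorem geo_of_given {K F Ω M B : Type} [Field K] [CharZero K] [Field F] [Field Ω] [Field M]
    [Field B] [Algebra K F] [Algebra F Ω] [Algebra K Ω] [IsScalarTower K F Ω] [Algebra F M]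
    [Algebra K M] [IsScalarTower K F M] [Algebra K B] [Algebra.IsAlgebraic F M] [IsAlgClosure K B]
    (s : GalSection K F M B) {L : Type} [Field L] [Algebra K L]
    {pl : Plc K M (AlgebraicClosure L)} (hp : s.GivenBy L pl) : GeoPlc (toSAct s) pl := by
  intro σ τ hστ x
  refine hp σ ((eqv K B).autCongr τ) ?_ x _ ⟨x.2, rfl⟩
  intro z c hc
  obtain ⟨y, rfl⟩ := (eqv K B).surjective z
  have e1 : pl.val ((toSAct s).j y) (pl.iot (toSAct s).j y) := Plc.val_j _ y
  have e2 : pl.val ((toSAct s).j (τ y)) (pl.iot (toSAct s).j (τ y)) := Plc.val_j _ (τ y)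
  have e3 : s.j ((eqv K B).autCongr τ (eqv K B y)) = (toSAct s).j (τ y) := by
    change s.j (eqv K B (τ ((eqv K B).symm (eqv K B y)))) = _
    rw [AlgEquiv.symm_apply_apply]
    rfl
  have e4 : pl.iot (toSAct s).j y = c := e1.unique hc
  rw [e3, ← e4, ← hστ y]
  exact e2

/-- **Kummer's theorem for sections.** -/
theorem sec_main (ℓ : ℕ) [hp : Fact ℓ.Prime] (hℓ2 : ℓ ≠ 2) (K : Type) [Field K] [NumberField K]
    [hK : IsCyclotomicExtension {ℓ} ℚ K] (hcl : ¬ ℓ ∣ classNumber K) (hKL : KLem ℓ K)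
    (F Ω M B : Type) [Field F] [Field Ω] [Field M] [Field B] [Algebra K F] [Algebra F Ω]
    [Algebra K Ω] [Algebra F M] [Algebra K M] [Algebra K B] [IsScalarTower K F Ω]
    [IsScalarTower K F M] [IsAlgClosure F Ω] [IsAlgClosure K B] (U : Set (ValuationSubring F))
    (hU : ∀ O ∈ U, ∀ c : K, algebraMap K F c ∈ O) (e : M →ₐ[F] Ω)
    (he : unramified F Ω U ≤ e.fieldRange) (s : GalSection K F M B)
    (p : ∀ v : HeightOneSpectrum (𝓞 K), Plc K M (AlgebraicClosure (v.adicCompletion K)))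
    (hp' : ∀ v, s.GivenBy (v.adicCompletion K) (p v)) (n : ℕ) (hn : n ≠ 0) (hℓn : ℓ ∣ n)
    (x y : F) (hxy : x ^ n + y ^ n = 1) (v : HeightOneSpectrum (𝓞 K)) (hv : (ℓ : 𝓞 K) ∈ v.asIdeal) :
    (p v).val (algebraMap F M x) 0 ∨ (p v).val (algebraMap F M y) 0 ∨
      (x ≠ 0 ∧ (p v).val (algebraMap F M x)⁻¹ 0) := by
  classical
  have hΩ1 : IsAlgClosed Ω := IsAlgClosure.isAlgClosed F
  have hΩ2 : Algebra.IsAlgebraic F Ω := IsAlgClosure.isAlgebraic
  have hMalg : Algebra.IsAlgebraic F M := Algebra.IsAlgebraic.of_injective e e.injective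
  have hcv : ∀ v : HeightOneSpectrum (𝓞 K), CharZero (v.adicCompletion K) := fun v =>
    charZero_of_injective_algebraMap (algebraMap K (v.adicCompletion K)).injective
  have hodd : Odd ℓ := hp.out.odd_of_ne_two hℓ2
  obtain ⟨ζ, hζ⟩ : ∃ ζ : K, IsPrimitiveRoot ζ ℓ :=
    ⟨_, IsCyclotomicExtension.zeta_spec ℓ ℚ K⟩
  have hvl : v = lam hζ := by
    by_contra hne
    have h1 := other_pi hζ hne
    have h2 : v.intValuation (ℓ : 𝓞 K) = 1 := by
      rw [← lam_assoc (v := v) (IsCyclotomicExtension.Rat.associated_zeta_sub_one_pow_prime ℓ hζ),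
        map_pow, h1, one_pow]
    rw [HeightOneSpectrum.intValuation_eq_one_iff] at h2
    exact h2 hv
  subst hvl
  set A := toSAct s with hA
  have hAF : ∀ τ (x : F), A.s τ (algebraMap F M x) = algebraMap F M x :=
    fun τ x => (s.s ((eqv K B).autCongr τ)).commutes x
  have hgeo : ∀ v, GeoPlc A (p v) := fun v => geo_of_given (Ω := Ω) s (hp' v)
  have hvb : ∀ v, ∀ (x : M) (_ : x ∈ fld A U e) (hx : x ∈ (p v).W),
      ∃ z : v.adicCompletion K,
        algebraMap (v.adicCompletion K) (AlgebraicClosure (v.adicCompletion K)) z =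
          (p v).ρ ⟨x, hx⟩ := fun v x hxL hx => value_base A (hgeo v) (mem_fld.1 hxL).1 hx
  obtain ⟨m, rfl⟩ := hℓn
  have hm : 0 < m := Nat.pos_of_ne_zero (by
    rintro rfl
    exact hn (mul_zero _))
  let X : fld A U e := ⟨algebraMap F M (x ^ m), F_mem hAF _⟩
  let Y : fld A U e := ⟨algebraMap F M (y ^ m), F_mem hAF _⟩
  have hXY : X ^ ℓ + Y ^ ℓ = 1 := by
    apply Subtype.ext
    change (algebraMap F M (x ^ m)) ^ ℓ + (algebraMap F M (y ^ m)) ^ ℓ = 1
    rw [← map_pow, ← map_pow, ← map_add, ← pow_mul, ← pow_mul, mul_comm m ℓ, hxy, map_one]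
  have hcop : (classNumber K).Coprime ℓ := ((Nat.Prime.coprime_iff_not_dvd hp.out).2 hcl).symm
  have hfin : ∀ {w : M} {c : AlgebraicClosure ((lam hζ).adicCompletion K)},
      (p (lam hζ)).val (w ^ m) 0 → (p (lam hζ)).val w 0 := by
    intro w _ hw
    obtain ⟨c, hc⟩ := Plc.val_of_mem (Plc.mem_of_pow_mem hm hw.mem)
    have h1 := (hc.pow m).unique hw
    have h2 : c = 0 := pow_eq_zero_iff hm.ne' |>.1 h1
    rwa [h2] at hc
  rcases core_main hζ hodd hcop hKL (kum_fld (A := A) (e := e) hU he hp.out.pos)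
    (fun v => subPlc (fld A U e) (p v) (hvb v)) hXY with h | h | ⟨h0, h⟩
  · left
    have h1 := subPlc_val h
    rw [map_zero] at h1
    apply hfin (c := 0)
    rw [← map_pow]
    exact h1
  · right; left
    have h1 := subPlc_val h
    rw [map_zero] at h1
    apply hfin (c := 0)
    rw [← map_pow]
    exact h1
  · right; right
    refine ⟨?_, ?_⟩
    · rintro rfl
      apply h0
      apply Subtype.ext
      change algebraMap F M (0 ^ m) = 0
      rw [zero_pow hm.ne', map_zero]
    · have h1 := subPlc_val h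
      rw [map_zero] at h1
      apply hfin (c := 0)
      rw [inv_pow, ← map_pow]
      exact h1

end Pool.Agent.Y158.KL
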